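import Mathlib

/-!
# A generalised (ultrafilter) Abel mean of bounded sequences
-/

open Filter Topology

namespace Pool.Agent.FAD

/-- Abel mean of a sequence. -/
noncomputable def abelMean (x : ℕ → ℂ) (r : ℝ) : ℂ := (1 - (r : ℂ)) * ∑' n, x n * (r : ℂ) ^ n

/-- An ultrafilter finer than the filter of left neighbourhoods of `1`. -/
noncomputable def leftUF : Ultrafilter ℝ := Ultrafilter.of (𝓝[<] (1 : ℝ))

lemma leftUF_le : (leftUF : Filter ℝ) ≤ 𝓝[<] (1 : ℝ) := Ultrafilter.of_le _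

/-- The generalised mean: limit of the Abel means along the ultrafilter. -/
noncomputable def gm (x : ℕ → ℂ) : ℂ := limUnder (leftUF : Filter ℝ) (abelMean x)

/-- Bounded sequences. -/
def BddSeq (x : ℕ → ℂ) : Prop := ∃ C : ℝ, ∀ n, ‖x n‖ ≤ C

lemma eventually_Ioo : ∀ᶠ r : ℝ in (leftUF : Filter ℝ), 0 < r ∧ r < 1 := by
  have h : ∀ᶠ r : ℝ in 𝓝[<] (1 : ℝ), 0 < r ∧ r < 1 :=
    Ioo_mem_nhdsLT (by norm_num)
  exact leftUF_le h

lemma summable_of_bdd {x : ℕ → ℂ} {C : ℝ} (hx : ∀ n, ‖x n‖ ≤ C) {r : ℝ} (h0 : 0 ≤ r)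
    (h1 : r < 1) : Summable (fun n => x n * (r : ℂ) ^ n) := by
  refine Summable.of_norm_bounded (g := fun n => C * r ^ n)
    ((summable_geometric_of_lt_one h0 h1).mul_left C) ?_
  intro n
  rw [norm_mul, norm_pow, Complex.norm_real, Real.norm_of_nonneg h0]
  exact mul_le_mul_of_nonneg_right (hx n) (pow_nonneg h0 n)

lemma norm_abelMean_le_of_le {x : ℕ → ℂ} {y : ℕ → ℝ} {C : ℝ} (hxy : ∀ n, ‖x n‖ ≤ y n)
    (hy : ∀ n, y n ≤ C) {r : ℝ} (h0 : 0 ≤ r) (h1 : r < 1) :
    ‖abelMean x r‖ ≤ (1 - r) * ∑' n, y n * r ^ n := by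
  unfold abelMean
  rw [norm_mul]
  have hn : ‖(1 - (r : ℂ))‖ = 1 - r := by
    rw [← Complex.ofReal_one, ← Complex.ofReal_sub, Complex.norm_real,
      Real.norm_of_nonneg (by linarith)]
  rw [hn]
  refine mul_le_mul_of_nonneg_left ?_ (by linarith)
  have hs : Summable (fun n => y n * r ^ n) := by
    refine Summable.of_nonneg_of_le (fun n => mul_nonneg ((norm_nonneg _).trans (hxy n))
      (pow_nonneg h0 n)) (fun n => mul_le_mul_of_nonneg_right (hy n) (pow_nonneg h0 n))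
      ((summable_geometric_of_lt_one h0 h1).mul_left C)
  refine tsum_of_norm_bounded hs.hasSum ?_
  intro n
  rw [norm_mul, norm_pow, Complex.norm_real, Real.norm_of_nonneg h0]
  exact mul_le_mul_of_nonneg_right (hxy n) (pow_nonneg h0 n)

lemma norm_abelMean_le {x : ℕ → ℂ} {C : ℝ} (hx : ∀ n, ‖x n‖ ≤ C) {r : ℝ} (h0 : 0 ≤ r)
    (h1 : r < 1) : ‖abelMean x r‖ ≤ C := by
  have h := norm_abelMean_le_of_le (y := fun _ => C) hx (fun _ => le_rfl) h0 h1
  rw [tsum_mul_left, tsum_geometric_of_lt_one h0 h1] at h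
  have h1' : (1 - r) ≠ 0 := by linarith
  calc ‖abelMean x r‖ ≤ (1 - r) * (C * (1 - r)⁻¹) := h
    _ = C := by field_simp

lemma tendsto_gm {x : ℕ → ℂ} (hx : BddSeq x) :
    Tendsto (abelMean x) (leftUF : Filter ℝ) (𝓝 (gm x)) := by
  obtain ⟨C, hC⟩ := hx
  have hcomp : IsCompact (Metric.closedBall (0 : ℂ) C) := isCompact_closedBall _ _
  have hmem : ((leftUF.map (abelMean x) : Ultrafilter ℂ) : Filter ℂ) ≤
      𝓟 (Metric.closedBall (0 : ℂ) C) := by
    rw [le_principal_iff]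
    have h := eventually_Ioo
    show abelMean x ⁻¹' _ ∈ (leftUF : Filter ℝ)
    filter_upwards [h] with r hr
    simp only [Set.mem_preimage, mem_closedBall_zero_iff]
    exact norm_abelMean_le hC hr.1.le hr.2
  obtain ⟨a, -, ha⟩ := isCompact_iff_ultrafilter_le_nhds.1 hcomp _ hmem
  have ht : Tendsto (abelMean x) (leftUF : Filter ℝ) (𝓝 a) := ha
  exact tendsto_nhds_limUnder ⟨a, ht⟩

lemma gm_eq {x : ℕ → ℂ} {a : ℂ} (h : Tendsto (abelMean x) (leftUF : Filter ℝ) (𝓝 a)) :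
    gm x = a := h.limUnder_eq

lemma BddSeq.add {x y : ℕ → ℂ} (hx : BddSeq x) (hy : BddSeq y) :
    BddSeq (fun n => x n + y n) := by
  obtain ⟨C, hC⟩ := hx
  obtain ⟨D, hD⟩ := hy
  exact ⟨C + D, fun n => (norm_add_le _ _).trans (add_le_add (hC n) (hD n))⟩

lemma BddSeq.mul {x y : ℕ → ℂ} (hx : BddSeq x) (hy : BddSeq y) :
    BddSeq (fun n => x n * y n) := by
  obtain ⟨C, hC⟩ := hx
  obtain ⟨D, hD⟩ := hy
  refine ⟨C * D, fun n => ?_⟩
  rw [norm_mul]
  exact mul_le_mul (hC n) (hD n) (norm_nonneg _) ((norm_nonneg _).trans (hC 0))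

lemma BddSeq.const (c : ℂ) : BddSeq (fun _ => c) := ⟨‖c‖, fun _ => le_rfl⟩

lemma BddSeq.const_mul {x : ℕ → ℂ} (hx : BddSeq x) (c : ℂ) : BddSeq (fun n => c * x n) :=
  (BddSeq.const c).mul hx

lemma BddSeq.neg {x : ℕ → ℂ} (hx : BddSeq x) : BddSeq (fun n => - x n) := by
  obtain ⟨C, hC⟩ := hx
  exact ⟨C, fun n => by rw [norm_neg]; exact hC n⟩

lemma BddSeq.sub {x y : ℕ → ℂ} (hx : BddSeq x) (hy : BddSeq y) :
    BddSeq (fun n => x n - y n) := by
  simpa [sub_eq_add_neg] using hx.add hy.neg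

lemma BddSeq.sum {ι : Type*} (s : Finset ι) {x : ι → ℕ → ℂ} (hx : ∀ i ∈ s, BddSeq (x i)) :
    BddSeq (fun n => ∑ i ∈ s, x i n) := by
  classical
  induction s using Finset.induction_on with
  | empty => simpa using BddSeq.const 0
  | insert a s ha ih =>
    simp only [Finset.sum_insert ha]
    exact (hx a (Finset.mem_insert_self _ _)).add
      (ih (fun i hi => hx i (Finset.mem_insert_of_mem hi)))

lemma abelMean_add {x y : ℕ → ℂ} (hx : BddSeq x) (hy : BddSeq y) {r : ℝ} (h0 : 0 ≤ r)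
    (h1 : r < 1) : abelMean (fun n => x n + y n) r = abelMean x r + abelMean y r := by
  obtain ⟨C, hC⟩ := hx
  obtain ⟨D, hD⟩ := hy
  unfold abelMean
  rw [← mul_add, ← (summable_of_bdd hC h0 h1).tsum_add (summable_of_bdd hD h0 h1)]
  congr 1
  refine tsum_congr (fun n => by ring)

lemma abelMean_const_mul (x : ℕ → ℂ) (c : ℂ) (r : ℝ) :
    abelMean (fun n => c * x n) r = c * abelMean x r := by
  unfold abelMean
  have : (∑' n, c * x n * (r : ℂ) ^ n) = c * ∑' n, x n * (r : ℂ) ^ n := by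
    rw [← tsum_mul_left]
    exact tsum_congr (fun n => by ring)
  rw [this]; ring

lemma gm_add {x y : ℕ → ℂ} (hx : BddSeq x) (hy : BddSeq y) :
    gm (fun n => x n + y n) = gm x + gm y := by
  refine gm_eq ?_
  refine ((tendsto_gm hx).add (tendsto_gm hy)).congr' ?_
  filter_upwards [eventually_Ioo] with r hr
  exact (abelMean_add hx hy hr.1.le hr.2).symm

lemma gm_const_mul {x : ℕ → ℂ} (hx : BddSeq x) (c : ℂ) :
    gm (fun n => c * x n) = c * gm x := by
  refine gm_eq ?_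
  refine ((tendsto_gm hx).const_mul c).congr' ?_
  filter_upwards with r
  exact (abelMean_const_mul x c r).symm

lemma gm_neg {x : ℕ → ℂ} (hx : BddSeq x) : gm (fun n => - x n) = - gm x := by
  have := gm_const_mul hx (-1)
  simpa using this

lemma gm_sub {x y : ℕ → ℂ} (hx : BddSeq x) (hy : BddSeq y) :
    gm (fun n => x n - y n) = gm x - gm y := by
  have := gm_add hx hy.neg
  rw [gm_neg hy] at this
  simpa [sub_eq_add_neg] using this

lemma gm_zero : gm (fun _ => 0) = 0 := by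
  refine gm_eq ?_
  have : abelMean (fun _ => 0) = fun _ => 0 := by
    funext r; simp [abelMean]
  rw [this]
  exact tendsto_const_nhds

lemma gm_sum {ι : Type*} (s : Finset ι) {x : ι → ℕ → ℂ} (hx : ∀ i ∈ s, BddSeq (x i)) :
    gm (fun n => ∑ i ∈ s, x i n) = ∑ i ∈ s, gm (x i) := by
  classical
  induction s using Finset.induction_on with
  | empty => simpa using gm_zero
  | insert a s ha ih =>
    simp only [Finset.sum_insert ha]
    rw [gm_add (hx a (Finset.mem_insert_self _ _))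
      (BddSeq.sum s (fun i hi => hx i (Finset.mem_insert_of_mem hi))),
      ih (fun i hi => hx i (Finset.mem_insert_of_mem hi))]

lemma norm_gm_le {x : ℕ → ℂ} {C : ℝ} (hx : ∀ n, ‖x n‖ ≤ C) : ‖gm x‖ ≤ C := by
  refine le_of_tendsto (tendsto_gm ⟨C, hx⟩).norm ?_
  filter_upwards [eventually_Ioo] with r hr
  exact norm_abelMean_le hx hr.1.le hr.2

lemma tendsto_one_sub : Tendsto (fun r : ℝ => (1 - (r : ℂ))) (leftUF : Filter ℝ) (𝓝 0) := by
  have h : Tendsto (fun r : ℝ => (1 - (r : ℂ))) (𝓝 1) (𝓝 (1 - ((1 : ℝ) : ℂ))) :=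
    (continuous_const.sub Complex.continuous_ofReal).tendsto 1
  simp only [Complex.ofReal_one, sub_self] at h
  exact (h.mono_left nhdsWithin_le_nhds).mono_left leftUF_le

lemma tendsto_id' : Tendsto (fun r : ℝ => (r : ℂ)) (leftUF : Filter ℝ) (𝓝 1) := by
  have h : Tendsto (fun r : ℝ => (r : ℂ)) (𝓝 1) (𝓝 ((1 : ℝ) : ℂ)) :=
    Complex.continuous_ofReal.tendsto 1
  simp only [Complex.ofReal_one] at h
  exact (h.mono_left nhdsWithin_le_nhds).mono_left leftUF_le

/-- shift invariance -/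
lemma gm_shift {x : ℕ → ℂ} (hx : BddSeq x) : gm (fun n => x (n + 1)) = gm x := by
  refine gm_eq ?_
  have h1 : Tendsto (fun r : ℝ => (abelMean x r - (1 - (r : ℂ)) * x 0) / (r : ℂ))
      (leftUF : Filter ℝ) (𝓝 ((gm x - 0 * x 0) / 1)) :=
    ((tendsto_gm hx).sub (tendsto_one_sub.mul_const (x 0))).div tendsto_id' one_ne_zero
  simp only [zero_mul, sub_zero, div_one] at h1
  refine h1.congr' ?_
  filter_upwards [eventually_Ioo] with r hr
  obtain ⟨C, hC⟩ := hx
  have hs := summable_of_bdd hC hr.1.le hr.2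
  have hr0 : (r : ℂ) ≠ 0 := by exact_mod_cast hr.1.ne'
  unfold abelMean
  rw [hs.tsum_eq_zero_add]
  have : (∑' n, x (n + 1) * (r : ℂ) ^ (n + 1)) = (∑' n, x (n + 1) * (r : ℂ) ^ n) * r := by
    rw [← tsum_mul_right]
    exact tsum_congr (fun n => by ring)
  rw [this]
  field_simp
  ring

lemma BddSeq.shift {x : ℕ → ℂ} (hx : BddSeq x) (m : ℕ) : BddSeq (fun n => x (n + m)) := by
  obtain ⟨C, hC⟩ := hx
  exact ⟨C, fun n => hC _⟩

lemma gm_shift_nat {x : ℕ → ℂ} (hx : BddSeq x) (m : ℕ) : gm (fun n => x (n + m)) = gm x := by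
  induction m with
  | zero => simp
  | succ m ih =>
    have := gm_shift (hx.shift m)
    rw [ih] at this
    rw [← this]
    congr 1
    funext n
    congr 1
    ring

/-- Only the terms with `n ≥ 1` matter. -/
lemma gm_congr {x y : ℕ → ℂ} (hx : BddSeq x) (hy : BddSeq y) (h : ∀ n, 1 ≤ n → x n = y n) :
    gm x = gm y := by
  rw [← gm_shift hx, ← gm_shift hy]
  congr 1
  funext n
  exact h _ (by omega)

lemma gm_const (c : ℂ) : gm (fun _ => c) = c := by
  refine gm_eq ?_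
  refine tendsto_const_nhds.congr' ?_
  filter_upwards [eventually_Ioo] with r hr
  unfold abelMean
  rw [tsum_mul_left, tsum_geometric_of_norm_lt_one]
  · have : (1 - (r : ℂ)) ≠ 0 := by
      have : ((1 - r : ℝ) : ℂ) ≠ 0 := by exact_mod_cast (by linarith [hr.2] : (1 - r) ≠ 0)
      simpa using this
    field_simp
  · rw [Complex.norm_real, Real.norm_of_nonneg hr.1.le]; exact hr.2

/-- If `x (n + m) = θ * x n` with `θ ≠ 1`, the mean vanishes. -/
lemma gm_eq_zero_of_twist {x : ℕ → ℂ} (hx : BddSeq x) {m : ℕ} {θ : ℂ} (hθ : θ ≠ 1)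
    (h : ∀ n, x (n + m) = θ * x n) : gm x = 0 := by
  have h1 := gm_shift_nat hx m
  have h2 : gm (fun n => x (n + m)) = θ * gm x := by
    rw [← gm_const_mul hx]
    congr 1
    funext n
    exact h n
  rw [h2] at h1
  have h3 : (θ - 1) * gm x = 0 := by linear_combination h1
  rcases mul_eq_zero.1 h3 with h4 | h4
  · exact absurd (sub_eq_zero.1 h4) hθ
  · exact h4

/-- Mean of a periodic sequence. -/
lemma gm_periodic {x : ℕ → ℂ} (hx : BddSeq x) {m : ℕ} (hm : 0 < m) (h : ∀ n, x (n + m) = x n) :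
    gm x = (∑ b ∈ Finset.range m, x b) / m := by
  have hconst : ∀ n, ∑ b ∈ Finset.range m, x (n + b) = ∑ b ∈ Finset.range m, x b := by
    intro n
    induction n with
    | zero => simp
    | succ n ih =>
      rw [← ih]
      have h1 : ∑ b ∈ Finset.range m, x (n + 1 + b) = ∑ b ∈ Finset.range m, x (n + (b + 1)) :=
        Finset.sum_congr rfl (fun b _ => by congr 1; ring)
      have h2 := Finset.sum_range_succ' (fun b => x (n + b)) m
      have h3 := Finset.sum_range_succ (fun b => x (n + b)) m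
      rw [h1]
      have h4 : x (n + m) = x (n + 0) := by simpa using h n
      simp only [h4] at h3
      have := h2.symm.trans h3
      exact add_right_cancel this
  have h5 : gm (fun n => ∑ b ∈ Finset.range m, x (n + b)) = m * gm x := by
    rw [gm_sum _ (fun b _ => hx.shift b)]
    rw [Finset.sum_congr rfl (fun b _ => gm_shift_nat hx b)]
    simp
  have h6 : gm (fun n => ∑ b ∈ Finset.range m, x (n + b)) = ∑ b ∈ Finset.range m, x b := by
    simp_rw [hconst]
    exact gm_const _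
  rw [h5] at h6
  have hm' : (m : ℂ) ≠ 0 := by exact_mod_cast hm.ne'
  rw [← h6]; field_simp

/-- Comparison of means. -/
lemma norm_gm_le_of_le {x : ℕ → ℂ} {y : ℕ → ℝ} {C : ℝ} (hxy : ∀ n, ‖x n‖ ≤ y n)
    (hy : ∀ n, y n ≤ C) : ‖gm x‖ ≤ (gm (fun n => (y n : ℂ))).re := by
  have hxb : BddSeq x := ⟨C, fun n => (hxy n).trans (hy n)⟩
  have hyb : BddSeq (fun n => (y n : ℂ)) := by
    refine ⟨C, fun n => ?_⟩
    rw [Complex.norm_real, Real.norm_of_nonneg ((norm_nonneg _).trans (hxy n))]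
    exact hy n
  refine le_of_tendsto_of_tendsto (tendsto_gm hxb).norm
    ((Complex.continuous_re.tendsto _).comp (tendsto_gm hyb)) ?_
  filter_upwards [eventually_Ioo] with r hr
  refine (norm_abelMean_le_of_le hxy hy hr.1.le hr.2).trans (le_of_eq ?_)
  simp only [Function.comp_apply, abelMean]
  have : (1 - (r : ℂ)) * ∑' n, (y n : ℂ) * (r : ℂ) ^ n
      = (((1 - r) * ∑' n, y n * r ^ n : ℝ) : ℂ) := by
    push_cast
    ring
  rw [this, Complex.ofReal_re]

end Pool.Agent.FAD
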