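import Pool.Agent.FAD.ExpSeries
import Pool.Agent.FAD.Mean

/-!
# From nonvanishing means to natural boundaries
-/

open Filter Topology

namespace Pool.Agent.FAD

/-- The series `∑_{n≥1} (a_n/n) z^n`. -/
noncomputable def logSer (a : ℕ → ℂ) : PowerSeries ℂ :=
  PowerSeries.mk fun n => if n = 0 then 0 else a n / (n : ℂ)

section

variable {a : ℕ → ℂ} {Λ C : ℝ}

lemma norm_coeff_logSer_le (hΛ : 0 < Λ) (ha : ∀ n, 1 ≤ n → ‖a n‖ ≤ C * Λ ^ n) (hC : 0 ≤ C)
    (n : ℕ) : ‖PowerSeries.coeff n (logSer a)‖ ≤ C * Λ ^ n := by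
  rw [logSer, PowerSeries.coeff_mk]
  split_ifs with h
  · rw [norm_zero]; positivity
  · have hn : 1 ≤ n := Nat.one_le_iff_ne_zero.2 h
    rw [norm_div, Complex.norm_natCast]
    have h1 : (1 : ℝ) ≤ n := by exact_mod_cast hn
    exact (div_le_self (norm_nonneg _) h1).trans (ha n hn)

lemma summable_logSer (hΛ : 0 < Λ) (ha : ∀ n, 1 ≤ n → ‖a n‖ ≤ C * Λ ^ n) (hC : 0 ≤ C)
    {z : ℂ} (hz : ‖z‖ < 1 / Λ) :
    Summable fun n => ‖PowerSeries.coeff n (logSer a) * z ^ n‖ := by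
  have h1 : Λ * ‖z‖ < 1 := by
    rw [lt_div_iff₀ hΛ] at hz; linarith
  refine Summable.of_nonneg_of_le (fun n => norm_nonneg _) (fun n => ?_)
    ((summable_geometric_of_lt_one (by positivity) h1).mul_left C)
  rw [norm_mul, norm_pow, mul_pow, ← mul_assoc]
  exact mul_le_mul_of_nonneg_right (norm_coeff_logSer_le hΛ ha hC n) (by positivity)

lemma hasDerivAt_logSer (hΛ : 0 < Λ) (ha : ∀ n, 1 ≤ n → ‖a n‖ ≤ C * Λ ^ n) (hC : 0 ≤ C)
    {z : ℂ} (hz : ‖z‖ < 1 / Λ) :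
    HasDerivAt (fun w => ∑' n, PowerSeries.coeff n (logSer a) * w ^ n)
      (∑' n, PowerSeries.coeff n (logSer a) * ((n : ℂ) * z ^ (n - 1))) z := by
  obtain ⟨ρ, hρ1, hρ2⟩ := exists_between hz
  have hρ0 : 0 < ρ := (norm_nonneg z).trans_lt hρ1
  have h1 : Λ * ρ < 1 := by
    rw [lt_div_iff₀ hΛ] at hρ2; linarith
  refine hasDerivAt_tsum_of_isPreconnected (𝕜 := ℂ) (F := ℂ)
    (g := fun n w => PowerSeries.coeff n (logSer a) * w ^ n)
    (g' := fun n w => PowerSeries.coeff n (logSer a) * ((n : ℂ) * w ^ (n - 1)))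
    (u := fun n => C / ρ * (Λ * ρ) ^ n)
    (t := Metric.ball (0 : ℂ) ρ) (y₀ := 0)
    ((summable_geometric_of_lt_one (by positivity) h1).mul_left _)
    Metric.isOpen_ball (convex_ball (0 : ℂ) ρ).isPreconnected ?_ ?_ ?_ ?_ ?_
  · intro n y _
    exact HasDerivAt.const_mul (PowerSeries.coeff n (logSer a)) (hasDerivAt_pow n y)
  · intro n y hy
    rw [mem_ball_zero_iff] at hy
    rcases Nat.eq_zero_or_pos n with h | h
    · subst h
      simp; positivity
    · rw [logSer, PowerSeries.coeff_mk, if_neg h.ne']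
      have hn0 : (n : ℂ) ≠ 0 := by exact_mod_cast h.ne'
      have h2 : a n / (n : ℂ) * ((n : ℂ) * y ^ (n - 1)) = a n * y ^ (n - 1) := by
        field_simp
      rw [h2, norm_mul, norm_pow]
      have h3 : ‖y‖ ^ (n - 1) ≤ ρ ^ (n - 1) := pow_le_pow_left₀ (norm_nonneg _) hy.le _
      calc ‖a n‖ * ‖y‖ ^ (n - 1) ≤ (C * Λ ^ n) * ρ ^ (n - 1) :=
            mul_le_mul (ha n h) h3 (by positivity) (by positivity)
        _ = C / ρ * (Λ * ρ) ^ n := by
            rw [mul_pow]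
            obtain ⟨m, rfl⟩ : ∃ m, n = m + 1 := ⟨n - 1, by omega⟩
            simp only [Nat.add_sub_cancel]
            field_simp
            ring
  · rw [mem_ball_zero_iff, norm_zero]; exact hρ0
  · exact (summable_logSer hΛ ha hC (by rw [norm_zero]; positivity)).of_norm
  · rw [mem_ball_zero_iff]; exact hρ1

lemma mul_deriv_logSer {z : ℂ} :
    z * (∑' n, PowerSeries.coeff n (logSer a) * ((n : ℂ) * z ^ (n - 1))) =
      ∑' n, (if n = 0 then 0 else a n) * z ^ n := by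
  rw [← tsum_mul_left]
  refine tsum_congr (fun n => ?_)
  rcases Nat.eq_zero_or_pos n with h | h
  · subst h; simp
  · rw [logSer, PowerSeries.coeff_mk, if_neg h.ne', if_neg h.ne']
    have hn0 : (n : ℂ) ≠ 0 := by exact_mod_cast h.ne'
    obtain ⟨m, rfl⟩ : ∃ m, n = m + 1 := ⟨n - 1, by omega⟩
    simp only [Nat.add_sub_cancel]
    field_simp
    ring

/-- If the means of `(a_n/Λ^n) ζ^n` are nonzero for a dense set of `ζ`, then
`exp(∑ (a_n/n) z^n)` has the circle `|z| = 1/Λ` as natural boundary. -/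
theorem hasNaturalBoundary_of_dense (hΛ : 0 < Λ) (ha : ∀ n, 1 ≤ n → ‖a n‖ ≤ C * Λ ^ n)
    (hC : 0 ≤ C)
    (hdense : ∀ V : Set ℂ, IsOpen V → ∀ z₀ ∈ V, ‖z₀‖ = 1 →
      ∃ ζ ∈ V, ‖ζ‖ = 1 ∧ gm (fun n => (a n / (Λ : ℂ) ^ n) * ζ ^ n) ≠ 0) :
    HasNaturalBoundary ((PowerSeries.exp ℂ).subst (logSer a)) (1 / Λ) := by
  have hG0 : PowerSeries.constantCoeff (logSer a) = 0 := by
    rw [← PowerSeries.coeff_zero_eq_constantCoeff_apply, logSer, PowerSeries.coeff_mk, if_pos rfl]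
  have hR : (0 : ℝ) < 1 / Λ := by positivity
  have hΛC : (Λ : ℂ) ≠ 0 := by exact_mod_cast hΛ.ne'
  have hsum : ∀ z : ℂ, ‖z‖ < 1 / Λ → HasSum (fun n => PowerSeries.coeff n
      ((PowerSeries.exp ℂ).subst (logSer a)) * z ^ n)
      (Complex.exp (∑' n, PowerSeries.coeff n (logSer a) * z ^ n)) := fun z hz =>
    hasSum_exp_subst _ hG0 z (summable_logSer hΛ ha hC hz)
  refine ⟨fun z hz => (hsum z hz).summable, ?_⟩
  rintro U hU ⟨z₁, hz₁U, hz₁⟩ ⟨g, hgan, hg⟩
  rw [Set.mem_ofPred_eq] at hz₁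
  set L : ℂ → ℂ := fun w => ∑' n, PowerSeries.coeff n (logSer a) * w ^ n with hL
  have hgE : ∀ z ∈ U, ‖z‖ < 1 / Λ → g z = Complex.exp (L z) := fun z hzU hz => by
    rw [hg z hzU hz, (hsum z hz).tsum_eq]
  have hz₁0 : z₁ ≠ 0 := by
    intro h; rw [h, norm_zero] at hz₁; linarith
  -- radial sequences
  have hradial : ∀ w : ℂ, ‖w‖ = 1 / Λ → ∀ᶠ r : ℝ in 𝓝[<] (1 : ℝ), 0 < r ∧ r < 1 ∧
      ‖(r : ℂ) * w‖ < 1 / Λ := by
    intro w hw
    have : ∀ᶠ r : ℝ in 𝓝[<] (1 : ℝ), 0 < r ∧ r < 1 := Ioo_mem_nhdsLT (by norm_num)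
    filter_upwards [this] with r hr
    refine ⟨hr.1, hr.2, ?_⟩
    rw [norm_mul, Complex.norm_real, Real.norm_of_nonneg hr.1.le, hw]
    nlinarith [hr.2]
  have hradT : ∀ w : ℂ, Tendsto (fun r : ℝ => (r : ℂ) * w) (𝓝[<] (1 : ℝ)) (𝓝 w) := by
    intro w
    have h : Tendsto (fun r : ℝ => (r : ℂ) * w) (𝓝 1) (𝓝 (((1 : ℝ) : ℂ) * w)) :=
      (Complex.continuous_ofReal.mul continuous_const).tendsto 1
    simp only [Complex.ofReal_one, one_mul] at h
    exact h.mono_left nhdsWithin_le_nhds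
  -- g is not locally zero at z₁
  have hnz : ∀ᶠ z in 𝓝[≠] z₁, g z ≠ 0 := by
    rcases (hgan z₁ hz₁U).eventually_eq_zero_or_eventually_ne_zero with h | h
    · exfalso
      have h1 := (hradT z₁).eventually h
      have h2 := (hradT z₁).eventually (hU.mem_nhds hz₁U)
      obtain ⟨r, hr1, hr2, hr3⟩ := (h1.and (h2.and (hradial z₁ hz₁))).exists
      rw [hgE _ hr2 hr3.2.2] at hr1
      exact Complex.exp_ne_zero _ hr1
    · exact h
  rw [eventually_nhdsWithin_iff] at hnz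
  have hnz' := hnz.and (hU.mem_nhds hz₁U)
  obtain ⟨B, hBsub, hBo, hz₁B⟩ := mem_nhds_iff.1 hnz'
  -- the open set for ζ
  set V : Set ℂ := {ζ | ζ / (Λ : ℂ) ∈ B ∧ ζ / (Λ : ℂ) ≠ z₁} with hV
  have hVo : IsOpen V := by
    have h1 : Continuous fun ζ : ℂ => ζ / (Λ : ℂ) := continuous_id.div_const _
    exact (hBo.preimage h1).inter (isOpen_compl_singleton.preimage h1)
  have hexz₀ : ∃ z₀ ∈ V, ‖z₀‖ = 1 := by
    have hcont : Tendsto (fun ε : ℝ => z₁ * Complex.exp ((ε : ℂ) * Complex.I)) (𝓝[≠] 0)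
        (𝓝 z₁) := by
      have h : Tendsto (fun ε : ℝ => z₁ * Complex.exp ((ε : ℂ) * Complex.I)) (𝓝 0)
          (𝓝 (z₁ * Complex.exp (((0 : ℝ) : ℂ) * Complex.I))) := by
        apply Continuous.tendsto
        fun_prop
      simp only [Complex.ofReal_zero, zero_mul, Complex.exp_zero, mul_one] at h
      exact h.mono_left nhdsWithin_le_nhds
    have h1 := hcont.eventually (hBo.mem_nhds hz₁B)
    have h2 : ∀ᶠ ε : ℝ in 𝓝[≠] 0, ε ≠ 0 ∧ |ε| < 1 := by
      rw [eventually_nhdsWithin_iff]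
      filter_upwards [Metric.ball_mem_nhds (0 : ℝ) one_pos] with ε hε hε0
      exact ⟨hε0, by simpa using hε⟩
    obtain ⟨ε, hε1, hε2, hε3⟩ := (h1.and h2).exists
    refine ⟨z₁ * Complex.exp ((ε : ℂ) * Complex.I) * Λ, ⟨?_, ?_⟩, ?_⟩
    · rwa [mul_div_assoc, div_self hΛC, mul_one]
    · rw [mul_div_assoc, div_self hΛC, mul_one]
      intro h
      have h3 : Complex.exp ((ε : ℂ) * Complex.I) = 1 := by
        have : z₁ * (Complex.exp ((ε : ℂ) * Complex.I) - 1) = 0 := by rw [mul_sub, h]; ring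
        rcases mul_eq_zero.1 this with h | h
        · exact absurd h hz₁0
        · exact sub_eq_zero.1 h
      rw [Complex.exp_eq_one_iff] at h3
      obtain ⟨n, hn⟩ := h3
      have h4 : (ε : ℂ) = n * (2 * Real.pi) := by
        have : ((ε : ℂ) - n * (2 * Real.pi)) * Complex.I = 0 := by rw [sub_mul, hn]; ring
        rcases mul_eq_zero.1 this with h | h
        · exact sub_eq_zero.1 h
        · exact absurd h Complex.I_ne_zero
      have h5 : ε = n * (2 * Real.pi) := by exact_mod_cast h4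
      rcases eq_or_ne n 0 with h6 | h6
      · rw [h6] at h5; simp at h5; exact hε2 h5
      · have h7 : (1 : ℝ) ≤ |(n : ℝ)| := by exact_mod_cast Int.one_le_abs h6
        rw [h5, abs_mul, abs_of_pos (by positivity : (0 : ℝ) < 2 * Real.pi)] at hε3
        nlinarith [Real.pi_gt_three]
    · rw [norm_mul, norm_mul, hz₁, Complex.norm_exp_ofReal_mul_I, Complex.norm_real,
        Real.norm_of_nonneg hΛ.le]
      field_simp
  obtain ⟨z₀, hz₀V, hz₀⟩ := hexz₀
  obtain ⟨ζ, hζV, hζ, hζne⟩ := hdense V hVo z₀ hz₀V hz₀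
  set w : ℂ := ζ / (Λ : ℂ) with hw
  have hwn : ‖w‖ = 1 / Λ := by
    rw [hw, norm_div, hζ, Complex.norm_real, Real.norm_of_nonneg hΛ.le]
  have hwB : w ∈ B := hζV.1
  have hww : w ≠ z₁ := hζV.2
  have hwU : w ∈ U := (hBsub hwB).2
  have hgw : g w ≠ 0 := (hBsub hwB).1 hww
  -- limit of the logarithmic derivative along the radius
  have hlim : Tendsto (fun r : ℝ => ((r : ℂ) * w) * (deriv g ((r : ℂ) * w) / g ((r : ℂ) * w)))
      (𝓝[<] (1 : ℝ)) (𝓝 (w * (deriv g w / g w))) := by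
    refine (hradT w).mul ?_
    have h1 : Tendsto (fun r : ℝ => deriv g ((r : ℂ) * w)) (𝓝[<] (1 : ℝ)) (𝓝 (deriv g w)) :=
      ((hgan w hwU).deriv.continuousAt.tendsto).comp (hradT w)
    have h2 : Tendsto (fun r : ℝ => g ((r : ℂ) * w)) (𝓝[<] (1 : ℝ)) (𝓝 (g w)) :=
      ((hgan w hwU).continuousAt.tendsto).comp (hradT w)
    exact h1.div h2 hgw
  have hlim2 : Tendsto (fun r : ℝ => ∑' n, (if n = 0 then 0 else a n) * ((r : ℂ) * w) ^ n)
      (𝓝[<] (1 : ℝ)) (𝓝 (w * (deriv g w / g w))) := by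
    refine hlim.congr' ?_
    filter_upwards [hradial w hwn, (hradT w).eventually (hU.mem_nhds hwU)] with r hr hrU
    rw [← mul_deriv_logSer]
    congr 1
    have hopen : IsOpen (U ∩ {z : ℂ | ‖z‖ < 1 / Λ}) :=
      hU.inter (isOpen_lt continuous_norm continuous_const)
    have hev : g =ᶠ[𝓝 ((r : ℂ) * w)] fun z => Complex.exp (L z) := by
      filter_upwards [hopen.mem_nhds ⟨hrU, hr.2.2⟩] with z hz
      exact hgE z hz.1 hz.2
    rw [hev.deriv_eq, hgE _ hrU hr.2.2, (hasDerivAt_logSer hΛ ha hC hr.2.2).cexp.deriv]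
    rw [mul_comm, mul_div_assoc, div_self (Complex.exp_ne_zero _), mul_one]
  -- hence the Abel means tend to zero
  apply hζne
  apply gm_eq
  refine Tendsto.mono_left ?_ leftUF_le
  have h3 : Tendsto (fun r : ℝ => (1 - (r : ℂ)) * (a 0 +
      ∑' n, (if n = 0 then 0 else a n) * ((r : ℂ) * w) ^ n)) (𝓝[<] (1 : ℝ))
      (𝓝 (0 * (a 0 + w * (deriv g w / g w)))) := by
    refine Tendsto.mul ?_ (tendsto_const_nhds.add hlim2)
    have h : Tendsto (fun r : ℝ => (1 - (r : ℂ))) (𝓝 1) (𝓝 (1 - ((1 : ℝ) : ℂ))) :=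
      (continuous_const.sub Complex.continuous_ofReal).tendsto 1
    simp only [Complex.ofReal_one, sub_self] at h
    exact h.mono_left nhdsWithin_le_nhds
  rw [zero_mul] at h3
  refine h3.congr' ?_
  filter_upwards [hradial w hwn] with r hr
  unfold abelMean
  congr 1
  have hs1 : Summable fun n => (a n / (Λ : ℂ) ^ n) * ζ ^ n * (r : ℂ) ^ n := by
    refine summable_of_bdd (x := fun n => (a n / (Λ : ℂ) ^ n) * ζ ^ n) (C := max C ‖a 0‖)
      (fun n => ?_) hr.1.le hr.2.1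
    rw [norm_mul, norm_pow, hζ, one_pow, mul_one, norm_div, norm_pow, Complex.norm_real,
      Real.norm_of_nonneg hΛ.le]
    rcases Nat.eq_zero_or_pos n with h | h
    · subst h; simp
    · rw [div_le_iff₀ (by positivity)]
      exact (ha n h).trans (mul_le_mul_of_nonneg_right (le_max_left _ _) (by positivity))
  have hterm : ∀ n, (a n / (Λ : ℂ) ^ n) * ζ ^ n * (r : ℂ) ^ n = a n * ((r : ℂ) * w) ^ n := by
    intro n
    rw [hw, mul_pow, div_pow]; field_simp
  have hs2 : Summable fun n => a n * ((r : ℂ) * w) ^ n := hs1.congr hterm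
  have hs3 : Summable fun n => (if n = 0 then 0 else a n) * ((r : ℂ) * w) ^ n := by
    have h4 : (fun n => (if n = 0 then 0 else a n) * ((r : ℂ) * w) ^ n) =
        Function.update (fun n => a n * ((r : ℂ) * w) ^ n) 0 0 := by
      funext n
      rcases Nat.eq_zero_or_pos n with h | h
      · subst h; simp
      · rw [Function.update_of_ne h.ne', if_neg h.ne']
    rw [h4]
    exact hs2.update 0 0
  rw [tsum_congr hterm, hs2.tsum_eq_zero_add, hs3.tsum_eq_zero_add]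
  simp

end

end Pool.Agent.FAD
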