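import Pool.Agent.FAD.Trig

/-!
# Core: Fourier-Bohr coefficients of a distorted trigonometric polynomial
-/

open Filter Topology

namespace Pool.Agent.FAD

lemma norm_gm_le' {x : ℕ → ℂ} {C : ℝ} (hb : BddSeq x) (hx : ∀ n, 1 ≤ n → ‖x n‖ ≤ C) :
    ‖gm x‖ ≤ C := by
  rw [← gm_shift hb]
  exact norm_gm_le (fun n => hx (n + 1) (by omega))

/-- The approximation property: `D` is uniformly close to `n ↦ D (gcd n M^L)`. -/
def GcdApprox (D : ℕ → ℝ) (M : ℕ) : Prop :=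
  ∀ ε : ℝ, 0 < ε → ∃ L : ℕ, ∀ n : ℕ, 1 ≤ n → |D n - D (Nat.gcd n (M ^ L))| ≤ ε

lemma gcd_add_pow (M L n : ℕ) : Nat.gcd (n + M ^ L) (M ^ L) = Nat.gcd n (M ^ L) := by
  simp

lemma periodic_mod {m : ℕ} {y : ℕ → ℂ} (hy : ∀ n, y (n + m) = y n) (n : ℕ) :
    y n = y (n % m) := by
  have h2 : ∀ k l : ℕ, y (l + m * k) = y l := by
    intro k
    induction k with
    | zero => intro l; simp
    | succ k ih => intro l; rw [Nat.mul_succ, ← add_assoc, hy, ih]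
  conv_lhs => rw [← Nat.mod_add_div n m]
  exact h2 _ _

lemma sum_range_mul_coprime {m c : ℕ} (hm : 0 < m) (hc : Nat.Coprime c m) (y : ℕ → ℂ)
    (hy : ∀ n, y (n + m) = y n) :
    ∑ b ∈ Finset.range m, y (c * b) = ∑ b ∈ Finset.range m, y b := by
  refine Finset.sum_bij (fun b _ => (c * b) % m) ?_ ?_ ?_ ?_
  · intro b _
    exact Finset.mem_range.2 (Nat.mod_lt _ hm)
  · intro a ha b hb hab
    have h1 : c * a ≡ c * b [MOD m] := hab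
    have h2 : a ≡ b [MOD m] := Nat.ModEq.cancel_left_of_coprime (Nat.coprime_comm.1 hc) h1
    rw [Finset.mem_range] at ha hb
    unfold Nat.ModEq at h2
    rwa [Nat.mod_eq_of_lt ha, Nat.mod_eq_of_lt hb] at h2
  · intro b hb
    obtain ⟨a, ha, hab⟩ := Nat.exists_mul_mod_eq_of_coprime b hc hm.ne'
    refine ⟨a, Finset.mem_range.2 ha, ?_⟩
    rw [hab, Nat.mod_eq_of_lt (Finset.mem_range.1 hb)]
  · intro b _
    exact periodic_mod hy _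

section

variable {D : ℕ → ℝ} {M : ℕ}

lemma bddSeq_D {C : ℝ} (hD : ∀ n, 1 ≤ n → |D n| ≤ C) : BddSeq (fun n => (D n : ℂ)) := by
  refine ⟨max C |D 0|, fun n => ?_⟩
  rw [Complex.norm_real, Real.norm_eq_abs]
  rcases Nat.eq_zero_or_pos n with h | h
  · subst h; exact le_max_right _ _
  · exact (hD n h).trans (le_max_left _ _)

lemma bddSeq_Dgcd (hM : 0 < M) {C : ℝ} (hD : ∀ n, 1 ≤ n → |D n| ≤ C) (L : ℕ) :
    BddSeq (fun n => (D (Nat.gcd n (M ^ L)) : ℂ)) := by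
  refine ⟨C, fun n => ?_⟩
  rw [Complex.norm_real, Real.norm_eq_abs]
  exact hD _ (Nat.gcd_pos_of_pos_right _ (pow_pos hM L))

lemma norm_gm_sub_le (hM : 0 < M) {C : ℝ} (hD : ∀ n, 1 ≤ n → |D n| ≤ C) {ε : ℝ} {L : ℕ}
    (hL : ∀ n : ℕ, 1 ≤ n → |D n - D (Nat.gcd n (M ^ L))| ≤ ε) {θ : ℂ} (hθ : ‖θ‖ = 1) :
    ‖gm (fun n => (D n : ℂ) * θ ^ n) - gm (fun n => (D (Nat.gcd n (M ^ L)) : ℂ) * θ ^ n)‖ ≤ ε := by
  have hb : BddSeq (fun n => (D n : ℂ) * θ ^ n) := (bddSeq_D hD).mul (bddSeq_pow hθ)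
  have hb' : BddSeq (fun n => (D (Nat.gcd n (M ^ L)) : ℂ) * θ ^ n) :=
    (bddSeq_Dgcd hM hD L).mul (bddSeq_pow hθ)
  rw [← gm_sub hb hb']
  refine norm_gm_le' (hb.sub hb') (fun n hn => ?_)
  rw [← sub_mul, norm_mul, norm_pow, hθ, one_pow, mul_one, ← Complex.ofReal_sub,
    Complex.norm_real, Real.norm_eq_abs]
  exact hL n hn

/-- (D1) no non-torsion frequencies -/
lemma gm_D_nontorsion (hM : 0 < M) {C : ℝ} (hD : ∀ n, 1 ≤ n → |D n| ≤ C)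
    (happ : GcdApprox D M) {θ : ℂ} (hθ : ‖θ‖ = 1) (hnt : ∀ m : ℕ, 0 < m → θ ^ m ≠ 1) :
    gm (fun n => (D n : ℂ) * θ ^ n) = 0 := by
  rw [← norm_le_zero_iff]
  refine le_of_forall_pos_le_add (fun ε hε => ?_)
  obtain ⟨L, hL⟩ := happ ε hε
  have hML : 0 < M ^ L := pow_pos hM L
  have h0 : gm (fun n => (D (Nat.gcd n (M ^ L)) : ℂ) * θ ^ n) = 0 := by
    refine gm_eq_zero_of_twist ((bddSeq_Dgcd hM hD L).mul (bddSeq_pow hθ)) (m := M ^ L)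
      (hnt _ hML) (fun n => ?_)
    rw [gcd_add_pow, pow_add]; ring
  have h1 := norm_gm_sub_le hM hD hL hθ
  rw [h0, sub_zero] at h1
  rwa [zero_add]

/-- (D2) the coefficients are invariant under `θ ↦ θ^c`, `c` coprime to `M`, for torsion `θ`
of order dividing a power of `M`. -/
lemma gm_D_torsion (hM : 0 < M) {C : ℝ} (hD : ∀ n, 1 ≤ n → |D n| ≤ C)
    (happ : GcdApprox D M) {θ : ℂ} {j : ℕ} (hθj : θ ^ (M ^ j) = 1) {c : ℕ}
    (hc : Nat.Coprime c M) :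
    gm (fun n => (D n : ℂ) * (θ ^ c) ^ n) = gm (fun n => (D n : ℂ) * θ ^ n) := by
  have hθ : ‖θ‖ = 1 := by
    have h1 : ‖θ‖ ^ (M ^ j) = 1 := by rw [← norm_pow, hθj, norm_one]
    exact (pow_eq_one_iff_of_nonneg (norm_nonneg θ) (pow_pos hM j).ne').1 h1
  have hθc : ‖θ ^ c‖ = 1 := by rw [norm_pow, hθ, one_pow]
  rw [← sub_eq_zero, ← norm_le_zero_iff]
  refine le_of_forall_pos_le_add (fun ε hε => ?_)
  obtain ⟨L, hL⟩ := happ (ε / 2) (half_pos hε)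
  have hbg := bddSeq_Dgcd hM hD L
  have h1 := norm_gm_sub_le hM hD hL hθ
  have h2 := norm_gm_sub_le hM hD hL hθc
  have hm : 0 < M ^ L * M ^ j := mul_pos (pow_pos hM L) (pow_pos hM j)
  have hD' : ∀ n k : ℕ, D (Nat.gcd (n + M ^ L * k) (M ^ L)) = D (Nat.gcd n (M ^ L)) := by
    intro n k; simp
  have h3 : gm (fun n => (D (Nat.gcd n (M ^ L)) : ℂ) * (θ ^ c) ^ n) =
      gm (fun n => (D (Nat.gcd n (M ^ L)) : ℂ) * θ ^ n) := by
    have hy : ∀ n, (D (Nat.gcd (n + M ^ L * M ^ j) (M ^ L)) : ℂ) * θ ^ (n + M ^ L * M ^ j) =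
        (D (Nat.gcd n (M ^ L)) : ℂ) * θ ^ n := by
      intro n
      rw [hD', pow_add, mul_comm (M ^ L), pow_mul, hθj, one_pow, mul_one]
    have hyc : ∀ n, (D (Nat.gcd (n + M ^ L * M ^ j) (M ^ L)) : ℂ) *
        (θ ^ c) ^ (n + M ^ L * M ^ j) = (D (Nat.gcd n (M ^ L)) : ℂ) * (θ ^ c) ^ n := by
      intro n
      rw [hD', pow_add, mul_comm (M ^ L), ← pow_mul θ c (M ^ j * M ^ L),
        show c * (M ^ j * M ^ L) = M ^ j * (c * M ^ L) by ring, pow_mul θ (M ^ j), hθj,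
        one_pow, mul_one]
    rw [gm_periodic (hbg.mul (bddSeq_pow hθ)) hm hy, gm_periodic (hbg.mul (bddSeq_pow hθc)) hm hyc]
    congr 1
    have hcm : Nat.Coprime c (M ^ L * M ^ j) :=
      Nat.Coprime.mul_right (hc.pow_right L) (hc.pow_right j)
    rw [← sum_range_mul_coprime hm hcm
      (fun n => (D (Nat.gcd n (M ^ L)) : ℂ) * θ ^ n) hy]
    refine Finset.sum_congr rfl (fun b _ => ?_)
    rw [Nat.Coprime.gcd_mul_left_cancel b (hc.pow_right L), pow_mul]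
  rw [h3] at h2
  calc ‖gm (fun n => (D n : ℂ) * (θ ^ c) ^ n) - gm (fun n => (D n : ℂ) * θ ^ n)‖
      = ‖(gm (fun n => (D n : ℂ) * (θ ^ c) ^ n) -
          gm (fun n => (D (Nat.gcd n (M ^ L)) : ℂ) * θ ^ n)) -
        (gm (fun n => (D n : ℂ) * θ ^ n) -
          gm (fun n => (D (Nat.gcd n (M ^ L)) : ℂ) * θ ^ n))‖ := by congr 1; ring
    _ ≤ ε / 2 + ε / 2 := (norm_sub_le _ _).trans (add_le_add h2 h1)
    _ = 0 + ε := by ring

/-- multiplicative invariance of `D` itself -/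
lemma D_mul_coprime (hM : 0 < M) (happ : GcdApprox D M) {c n : ℕ} (hc : Nat.Coprime c M)
    (hc0 : 0 < c) (hn : 1 ≤ n) : D (c * n) = D n := by
  rw [← sub_eq_zero, ← abs_nonpos_iff]
  refine le_of_forall_pos_le_add (fun ε hε => ?_)
  obtain ⟨L, hL⟩ := happ (ε / 2) (half_pos hε)
  have h1 := hL n hn
  have h2 := hL (c * n) (Nat.mul_pos hc0 hn)
  rw [Nat.Coprime.gcd_mul_left_cancel n (hc.pow_right L)] at h2
  rw [abs_le] at h1 h2 ⊢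
  constructor <;> linarith [h1.1, h1.2, h2.1, h2.2]

/-- Transfer: coefficients of `D_n x_n` at `u₀⁻¹ θ^c` and `u₀⁻¹ θ` agree. -/
lemma gm_transfer (hM : 0 < M) {C : ℝ} (hD : ∀ n, 1 ≤ n → |D n| ≤ C)
    (happ : GcdApprox D M) {F : Finset ℂ} {a : ℂ → ℂ} (hF : ∀ u ∈ F, ‖u‖ = 1)
    (htor : ∀ u ∈ F, ∀ v ∈ F, (∃ m : ℕ, 0 < m ∧ (u / v) ^ m = 1) → (u / v) ^ M = 1)
    {u₀ : ℂ} (hu₀ : u₀ ∈ F) {θ : ℂ} {j : ℕ} (hθj : θ ^ (M ^ j) = 1) (l : ℕ) :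
    gm (fun n => (D n : ℂ) * (∑ u ∈ F, a u * u ^ n) * (u₀⁻¹ * θ ^ (1 + M * l)) ^ n) =
      gm (fun n => (D n : ℂ) * (∑ u ∈ F, a u * u ^ n) * (u₀⁻¹ * θ) ^ n) := by
  have hθ : ‖θ‖ = 1 := by
    have h1 : ‖θ‖ ^ (M ^ j) = 1 := by rw [← norm_pow, hθj, norm_one]
    exact (pow_eq_one_iff_of_nonneg (norm_nonneg θ) (pow_pos hM j).ne').1 h1
  have hc : Nat.Coprime (1 + M * l) M := by simp
  have hdiv : ∀ u ∈ F, ‖u / u₀‖ = 1 := fun u hu => by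
    rw [norm_div, hF u hu, hF u₀ hu₀, div_one]
  -- expansion
  have hexp : ∀ ψ : ℂ, ‖ψ‖ = 1 → gm (fun n => (D n : ℂ) * (∑ u ∈ F, a u * u ^ n) *
      (u₀⁻¹ * ψ) ^ n) = ∑ u ∈ F, a u * gm (fun n => (D n : ℂ) * ((u / u₀) * ψ) ^ n) := by
    intro ψ hψ
    have hb : ∀ u ∈ F, BddSeq (fun n => (D n : ℂ) * ((u / u₀) * ψ) ^ n) := fun u hu =>
      (bddSeq_D hD).mul (bddSeq_pow (by rw [norm_mul, hdiv u hu, hψ, one_mul]))
    have h1 : (fun n => (D n : ℂ) * (∑ u ∈ F, a u * u ^ n) * (u₀⁻¹ * ψ) ^ n) =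
        fun n => ∑ u ∈ F, a u * ((D n : ℂ) * ((u / u₀) * ψ) ^ n) := by
      funext n
      rw [Finset.mul_sum, Finset.sum_mul]
      refine Finset.sum_congr rfl (fun u _ => ?_)
      rw [div_eq_mul_inv, mul_pow, mul_pow, mul_pow]; ring
    rw [h1, gm_sum F (fun u hu => (hb u hu).const_mul (a u))]
    exact Finset.sum_congr rfl (fun u hu => gm_const_mul (hb u hu) (a u))
  rw [hexp _ (by rw [norm_pow, hθ, one_pow]), hexp θ hθ]
  refine Finset.sum_congr rfl (fun u hu => ?_)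
  congr 1
  by_cases ht : ∃ m : ℕ, 0 < m ∧ (u / u₀) ^ m = 1
  · have hM1 := htor u hu u₀ hu₀ ht
    have h1 : (u / u₀) * θ ^ (1 + M * l) = ((u / u₀) * θ) ^ (1 + M * l) := by
      rw [mul_pow, pow_add (u / u₀), pow_mul (u / u₀), hM1, one_pow, pow_one, mul_one]
    rw [h1]
    refine gm_D_torsion (j := j + 1) hM hD happ ?_ hc
    rw [mul_pow, pow_succ, mul_comm, pow_mul, hθj, one_pow, one_mul, mul_comm, pow_mul, hM1,
      one_pow]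
  · have hnt : ∀ ψ : ℂ, (∃ k, 0 < k ∧ ψ ^ k = 1) → ∀ m : ℕ, 0 < m → ((u / u₀) * ψ) ^ m ≠ 1 := by
      rintro ψ ⟨k, hk, hψ⟩ m hm h1
      refine ht ⟨m * k, Nat.mul_pos hm hk, ?_⟩
      have h2 : ((u / u₀) * ψ) ^ (m * k) = 1 := by rw [pow_mul, h1, one_pow]
      rwa [mul_pow, mul_comm m k, pow_mul ψ, hψ, one_pow, mul_one, mul_comm k m] at h2
    have hθt : ∃ k, 0 < k ∧ θ ^ k = 1 := ⟨M ^ j, pow_pos hM j, hθj⟩
    have hθt' : ∃ k, 0 < k ∧ (θ ^ (1 + M * l)) ^ k = 1 :=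
      ⟨M ^ j, pow_pos hM j, by rw [← pow_mul, mul_comm, pow_mul, hθj, one_pow]⟩
    rw [gm_D_nontorsion hM hD happ
        (by rw [norm_mul, hdiv u hu, norm_pow, hθ, one_pow, one_mul]) (hnt _ hθt'),
      gm_D_nontorsion hM hD happ (by rw [norm_mul, hdiv u hu, hθ, one_mul]) (hnt _ hθt)]

end

end Pool.Agent.FAD
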