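import Pool.Agent.FAD.Core

/-!
# Core theorem: the nonvanishing frequencies are dense
-/

open Filter Topology

namespace Pool.Agent.FAD

lemma exists_root_near {V : Set ℂ} (hV : IsOpen V) {z₀ : ℂ} (hz₀ : z₀ ∈ V) (hz₀n : ‖z₀‖ = 1) :
    ∃ K : ℕ, ∀ m : ℕ, K ≤ m → ∀ ω : ℂ, IsPrimitiveRoot ω m → ∀ z : ℂ, ‖z‖ = 1 →
      ∃ l : ℕ, z * ω ^ l ∈ V := by
  obtain ⟨δ, hδ, hball⟩ := Metric.isOpen_iff.1 hV z₀ hz₀
  obtain ⟨K, hK⟩ := exists_nat_gt (2 * Real.pi / δ)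
  refine ⟨K + 1, fun m hm ω hω z hz => ?_⟩
  have hm0 : 0 < m := by omega
  have hmR : (0 : ℝ) < m := by exact_mod_cast hm0
  have : NeZero m := ⟨hm0.ne'⟩
  set w : ℂ := z₀ / z with hw
  have hwn : ‖w‖ = 1 := by rw [hw, norm_div, hz₀n, hz, div_one]
  set α : ℝ := Complex.arg w with hα
  have hwe : w = Complex.exp (Complex.I * α) := by
    have := Complex.norm_mul_exp_arg_mul_I w
    rw [hwn] at this
    rw [mul_comm, ← hα] at this
    rw [← this]; simp [mul_comm]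
  set j : ℤ := ⌊α * m / (2 * Real.pi)⌋ with hj
  set β : ℝ := 2 * Real.pi * j / m with hβ
  set ξ : ℂ := Complex.exp (Complex.I * β) with hξ
  have hξm : ξ ^ m = 1 := by
    rw [hξ, ← Complex.exp_nat_mul]
    have : (m : ℂ) * (Complex.I * (β : ℂ)) = (j : ℂ) * (2 * Real.pi * Complex.I) := by
      rw [hβ]; push_cast
      have : (m : ℂ) ≠ 0 := by exact_mod_cast hm0.ne'
      field_simp
    rw [this, Complex.exp_int_mul_two_pi_mul_I]
  obtain ⟨l, -, hl⟩ := hω.eq_pow_of_pow_eq_one hξm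
  refine ⟨l, hball ?_⟩
  rw [hl, Metric.mem_ball, dist_eq_norm]
  have hz0 : z ≠ 0 := by
    intro h; rw [h, norm_zero] at hz; exact zero_ne_one hz
  have h1 : z * ξ - z₀ = z * (ξ - w) := by rw [hw, mul_sub, mul_div_cancel₀ _ hz0]
  have h2 : ξ - w = - (ξ * (Complex.exp (Complex.I * ((α - β : ℝ) : ℂ)) - 1)) := by
    rw [hwe, hξ, mul_sub, mul_one, ← Complex.exp_add]
    push_cast
    rw [show Complex.I * (β : ℂ) + Complex.I * ((α : ℂ) - β) = Complex.I * α by ring]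
    ring
  have hξn : ‖ξ‖ = 1 := by
    rw [hξ, mul_comm]; exact Complex.norm_exp_ofReal_mul_I β
  rw [h1, norm_mul, hz, one_mul, h2, norm_neg, norm_mul, hξn, one_mul]
  have h3 : ‖Complex.exp (Complex.I * ((α - β : ℝ) : ℂ)) - 1‖ ≤ ‖α - β‖ :=
    Real.norm_exp_I_mul_ofReal_sub_one_le
  refine h3.trans_lt ?_
  have hpi : (0 : ℝ) < 2 * Real.pi := by positivity
  have h4 := Int.floor_le (α * m / (2 * Real.pi))
  have h5 := Int.lt_floor_add_one (α * m / (2 * Real.pi))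
  rw [← hj] at h4 h5
  have h6 : 0 ≤ α - β := by
    rw [hβ]
    rw [le_div_iff₀ hpi] at h4
    rw [sub_nonneg, div_le_iff₀ hmR]
    linarith
  have h7 : α - β < 2 * Real.pi / m := by
    rw [hβ, ← sub_pos]
    rw [div_lt_iff₀ hpi] at h5
    have : 2 * Real.pi / m - (α - 2 * Real.pi * j / m) = (2 * Real.pi * (j + 1) - α * m) / m := by
      field_simp
      ring
    rw [this]
    apply div_pos _ hmR
    linarith
  rw [Real.norm_of_nonneg h6]
  refine h7.trans ?_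
  rw [div_lt_iff₀ hmR]
  rw [div_lt_iff₀ hδ] at hK
  have h8 : (K : ℝ) + 1 ≤ m := by exact_mod_cast hm
  nlinarith

/-- `p^(k+1) 1_{p^(k+1) ∣ n} - p^k 1_{p^k ∣ n}` is the sum over primitive `p^(k+1)`-th roots. -/
lemma ramanujan_prime_pow {p : ℕ} (hp : p.Prime) (k : ℕ) {ζ : ℂ}
    (hζ : IsPrimitiveRoot ζ (p ^ (k + 1))) (n : ℕ) :
    ((p : ℂ) ^ (k + 1) * (if p ^ (k + 1) ∣ n then 1 else 0)) -
      ((p : ℂ) ^ k * (if p ^ k ∣ n then 1 else 0)) =
      ∑ j ∈ (Finset.range (p ^ (k + 1))).filter (fun j => ¬ p ∣ j), (ζ ^ j) ^ n := by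
  have hgeom : ∀ (m : ℕ) (ξ : ℂ), 0 < m → IsPrimitiveRoot ξ m →
      ∑ j ∈ Finset.range m, (ξ ^ j) ^ n = (m : ℂ) * (if m ∣ n then 1 else 0) := by
    intro m ξ hm hξ
    have h1 : ∀ j, (ξ ^ j) ^ n = (ξ ^ n) ^ j := fun j => by rw [← pow_mul, ← pow_mul, mul_comm]
    simp_rw [h1]
    split_ifs with h
    · rw [(hξ.pow_eq_one_iff_dvd n).2 h]; simp
    · have h2 : ξ ^ n ≠ 1 := fun h3 => h ((hξ.pow_eq_one_iff_dvd n).1 h3)
      rw [geom_sum_eq h2, ← pow_mul, mul_comm, pow_mul, hξ.pow_eq_one, one_pow]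
      simp
  have hp0 : 0 < p := hp.pos
  have h1 := hgeom (p ^ (k + 1)) ζ (pow_pos hp0 _) hζ
  have h2 := hgeom (p ^ k) (ζ ^ p) (pow_pos hp0 _)
    (hζ.pow (pow_pos hp0 _) (by rw [pow_succ]; ring))
  rw [← Finset.sum_filter_add_sum_filter_not (Finset.range (p ^ (k + 1))) (fun j => p ∣ j)] at h1
  have h3 : ∑ j ∈ (Finset.range (p ^ (k + 1))).filter (fun j => p ∣ j), (ζ ^ j) ^ n =
      ∑ j ∈ Finset.range (p ^ k), ((ζ ^ p) ^ j) ^ n := by
    symm
    refine Finset.sum_bij (fun j _ => p * j) ?_ ?_ ?_ ?_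
    · intro j hj
      rw [Finset.mem_filter, Finset.mem_range]
      rw [Finset.mem_range] at hj
      refine ⟨?_, Dvd.intro j rfl⟩
      rw [pow_succ, mul_comm]
      exact Nat.mul_lt_mul_of_pos_right hj hp0
    · intro a _ b _ hab
      exact Nat.eq_of_mul_eq_mul_left hp0 hab
    · intro b hb
      rw [Finset.mem_filter, Finset.mem_range] at hb
      obtain ⟨c, rfl⟩ := hb.2
      refine ⟨c, ?_, rfl⟩
      rw [Finset.mem_range]
      have := hb.1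
      rw [pow_succ, mul_comm] at this
      exact Nat.lt_of_mul_lt_mul_right this
    · intro j _
      rw [← pow_mul ζ p j]
  rw [h3, h2] at h1
  push_cast at h1
  rw [← h1]; ring

/-- Main core statement: the frequencies `ζ` for which `D_n x_n ζ^n` has nonzero mean are
dense in the unit circle. -/
theorem core_density {D : ℕ → ℝ} {M : ℕ} (hM : 0 < M) {C : ℝ}
    (hD : ∀ n, 1 ≤ n → 0 < D n ∧ D n ≤ C) (happ : GcdApprox D M)
    {x : ℕ → ℂ} {F : Finset ℂ} {a : ℂ → ℂ} (hF : ∀ u ∈ F, ‖u‖ = 1)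
    (hx : ∀ n, x n = ∑ u ∈ F, a u * u ^ n)
    (htor : ∀ u ∈ F, ∀ v ∈ F, (∃ m : ℕ, 0 < m ∧ (u / v) ^ m = 1) → (u / v) ^ M = 1)
    (hx0 : ∀ n, 1 ≤ n → x n ≠ 0)
    {p : ℕ} (hp : p.Prime) (hpM : p ∣ M) {N : ℕ} (hN : 0 < N) (hNM : N ∣ M)
    {G : ℕ → ℝ} (hG : ∀ n, G (n + N) = G n) (hG01 : ∀ n, G n = 0 ∨ G n = 1)
    {n₀ : ℕ} (hn₀ : 1 ≤ n₀) (hGn₀ : ∀ k, G (n₀ * p ^ k) = 1)
    (hdec : ∀ ε : ℝ, 0 < ε → ∃ k : ℕ, ∀ n, 1 ≤ n → p ^ k ∣ n → G n = 1 → D n ≤ ε)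
    {V : Set ℂ} (hV : IsOpen V) {z₀ : ℂ} (hz₀ : z₀ ∈ V) (hz₀n : ‖z₀‖ = 1) :
    ∃ ζ ∈ V, ‖ζ‖ = 1 ∧ gm (fun n => (D n : ℂ) * x n * ζ ^ n) ≠ 0 := by
  by_contra hcon
  push Not at hcon
  obtain rfl : x = fun n => ∑ u ∈ F, a u * u ^ n := funext hx
  have hD' : ∀ n, 1 ≤ n → |D n| ≤ C := fun n hn => by
    rw [abs_of_pos (hD n hn).1]; exact (hD n hn).2
  have hDb := bddSeq_D hD'
  have hGabs : ∀ n, |G n| ≤ 1 := fun n => by rcases hG01 n with h | h <;> rw [h] <;> norm_num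
  have hGb : BddSeq (fun n => (G n : ℂ)) :=
    ⟨1, fun n => by rw [Complex.norm_real, Real.norm_eq_abs]; exact hGabs n⟩
  have hxb : BddSeq (fun n => ∑ u ∈ F, a u * u ^ n) :=
    BddSeq.sum F (fun u hu => (bddSeq_pow (hF u hu)).const_mul (a u))
  have hp0 : 0 < p := hp.pos
  have hpC : (p : ℂ) ≠ 0 := by exact_mod_cast hp0.ne'
  have hinv : ∀ u ∈ F, ‖u⁻¹‖ = 1 := fun u hu => by rw [norm_inv, hF u hu, inv_one]
  obtain ⟨K, hK⟩ := exists_root_near hV hz₀ hz₀n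
  set k₀ : ℕ := K * M with hk₀
  -- claim A
  have claimA : ∀ k, k₀ ≤ k → ∀ ω : ℂ, IsPrimitiveRoot ω (p ^ k) → ∀ η : ℂ, η ^ N = 1 →
      ∀ u₀ ∈ F, gm (fun n => (D n : ℂ) * (∑ u ∈ F, a u * u ^ n) * (u₀⁻¹ * (η * ω)) ^ n) = 0 := by
    intro k hk ω hω η hη u₀ hu₀
    have hηM : η ^ M = 1 := by
      obtain ⟨t, ht⟩ := hNM
      rw [ht, pow_mul, hη, one_pow]
    have hωM : ω ^ (M ^ k) = 1 := by
      obtain ⟨t, ht⟩ := pow_dvd_pow_of_dvd hpM k
      rw [ht, pow_mul, hω.pow_eq_one, one_pow]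
    have hθ : (η * ω) ^ (M ^ (k + 1)) = 1 := by
      rw [mul_pow, pow_succ, mul_comm (M ^ k), pow_mul, hηM, one_pow, mul_comm M, pow_mul,
        hωM, one_pow, one_mul]
    have hord : orderOf ω = p ^ k := hω.eq_orderOf.symm
    have hm : K ≤ orderOf (ω ^ M) := by
      rw [orderOf_pow' ω hM.ne', hord]
      have h1 : Nat.gcd (p ^ k) M ≤ M := Nat.gcd_le_right _ hM
      have h2 : K * M ≤ p ^ k := by
        have h3 : k < p ^ k := Nat.lt_pow_self hp.one_lt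
        omega
      have h4 : 0 < Nat.gcd (p ^ k) M := Nat.gcd_pos_of_pos_right _ hM
      rw [Nat.le_div_iff_mul_le h4]
      exact (Nat.mul_le_mul_left K h1).trans h2
    have hωn : ‖ω‖ = 1 := by
      have h1 : ‖ω‖ ^ (p ^ k) = 1 := by rw [← norm_pow, hω.pow_eq_one, norm_one]
      exact (pow_eq_one_iff_of_nonneg (norm_nonneg ω) (pow_pos hp0 k).ne').1 h1
    have hηn : ‖η‖ = 1 := by
      have h1 : ‖η‖ ^ N = 1 := by rw [← norm_pow, hη, norm_one]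
      exact (pow_eq_one_iff_of_nonneg (norm_nonneg η) hN.ne').1 h1
    obtain ⟨l, hl⟩ := hK _ hm (ω ^ M) (IsPrimitiveRoot.orderOf _) (u₀⁻¹ * (η * ω))
      (by rw [norm_mul, norm_mul, hinv u₀ hu₀, hηn, hωn]; norm_num)
    have h5 : u₀⁻¹ * (η * ω) * (ω ^ M) ^ l = u₀⁻¹ * (η * ω) ^ (1 + M * l) := by
      rw [pow_add, pow_one, pow_mul (η * ω), mul_pow η ω M, hηM, one_mul]; ring
    rw [h5] at hl
    have h6 := hcon _ hl (by
      rw [norm_mul, norm_pow, norm_mul, hinv u₀ hu₀, hηn, hωn]; norm_num)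
    rw [← gm_transfer hM hD' happ hF htor hu₀ hθ l]
    exact h6
  -- claim B
  have hNC : ∀ n, (G (n + N) : ℂ) = (G n : ℂ) := fun n => by rw [hG n]
  obtain ⟨g, η, hfin, hη1, hgsum⟩ := periodic_eq_sum hN (G := fun n => (G n : ℂ)) hNC
  set T : ℂ → ℕ → ℂ := fun u₀ k => gm (fun n => ((p : ℂ) ^ k * (if p ^ k ∣ n then 1 else 0)) *
      ((G n : ℂ) * ((D n : ℂ) * (∑ u ∈ F, a u * u ^ n) * (u₀⁻¹) ^ n))) with hT
  have hindb : ∀ k, BddSeq (fun n => ((p : ℂ) ^ k * (if p ^ k ∣ n then 1 else 0))) := by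
    intro k
    refine ⟨(p : ℝ) ^ k, fun n => ?_⟩
    beta_reduce
    split_ifs
    · simp
    · simp
  have hWb : ∀ u₀ ∈ F, BddSeq (fun n => ((G n : ℂ) * ((D n : ℂ) *
      (∑ u ∈ F, a u * u ^ n) * (u₀⁻¹) ^ n))) := fun u₀ hu₀ =>
    hGb.mul ((hDb.mul hxb).mul (bddSeq_pow (hinv u₀ hu₀)))
  have claimB : ∀ u₀ ∈ F, ∀ k, k₀ ≤ k → T u₀ (k + 1) = T u₀ k := by
    intro u₀ hu₀ k hk
    obtain ⟨ζ, hζ⟩ : ∃ ζ : ℂ, IsPrimitiveRoot ζ (p ^ (k + 1)) :=
      ⟨_, Complex.isPrimitiveRoot_exp _ (pow_pos hp0 _).ne'⟩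
    rw [← sub_eq_zero, hT]
    simp only
    rw [← gm_sub ((hindb _).mul (hWb u₀ hu₀)) ((hindb _).mul (hWb u₀ hu₀))]
    have hsum : (fun n => (p : ℂ) ^ (k + 1) * (if p ^ (k + 1) ∣ n then 1 else 0) *
        ((G n : ℂ) * ((D n : ℂ) * (∑ u ∈ F, a u * u ^ n) * (u₀⁻¹) ^ n)) -
        (p : ℂ) ^ k * (if p ^ k ∣ n then 1 else 0) *
        ((G n : ℂ) * ((D n : ℂ) * (∑ u ∈ F, a u * u ^ n) * (u₀⁻¹) ^ n))) =
        fun n => ∑ j ∈ (Finset.range (p ^ (k + 1))).filter (fun j => ¬ p ∣ j),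
          ∑ i, g i * ((D n : ℂ) * (∑ u ∈ F, a u * u ^ n) *
            (u₀⁻¹ * (η i * ζ ^ j)) ^ n) := by
      funext n
      rw [← sub_mul, ramanujan_prime_pow hp k hζ n, Finset.sum_mul]
      refine Finset.sum_congr rfl (fun j _ => ?_)
      have h1 := hgsum n
      rw [h1, Finset.sum_mul, Finset.mul_sum]
      refine Finset.sum_congr rfl (fun i _ => ?_)
      rw [mul_pow, mul_pow]; ring
    rw [hsum]
    have hηn : ∀ i, ‖η i‖ = 1 := fun i => by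
      have h1 : ‖η i‖ ^ N = 1 := by rw [← norm_pow, hη1, norm_one]
      exact (pow_eq_one_iff_of_nonneg (norm_nonneg _) hN.ne').1 h1
    have hζn : ∀ j, ‖ζ ^ j‖ = 1 := fun j => by
      have h1 : ‖ζ‖ ^ (p ^ (k + 1)) = 1 := by rw [← norm_pow, hζ.pow_eq_one, norm_one]
      have h2 := (pow_eq_one_iff_of_nonneg (norm_nonneg ζ) (pow_pos hp0 _).ne').1 h1
      rw [norm_pow, h2, one_pow]
    have hbb : ∀ i j, BddSeq (fun n => ((D n : ℂ) * (∑ u ∈ F, a u * u ^ n) *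
            (u₀⁻¹ * (η i * ζ ^ j)) ^ n)) := fun i j =>
      (hDb.mul hxb).mul (bddSeq_pow (by
        rw [norm_mul, norm_mul, hinv u₀ hu₀, hηn, hζn]; norm_num))
    rw [gm_sum _ (fun j _ => BddSeq.sum _ (fun i _ => (hbb i j).const_mul (g i)))]
    refine Finset.sum_eq_zero (fun j hj => ?_)
    rw [gm_sum _ (fun i _ => (hbb i j).const_mul (g i))]
    refine Finset.sum_eq_zero (fun i _ => ?_)
    rw [gm_const_mul (hbb i j)]
    have hj' : ¬ p ∣ j := (Finset.mem_filter.1 hj).2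
    have hprim : IsPrimitiveRoot (ζ ^ j) (p ^ (k + 1)) := by
      refine hζ.pow_of_coprime j ?_
      exact Nat.Coprime.pow_right _ ((Nat.coprime_comm.1 ((Nat.Prime.coprime_iff_not_dvd hp).2 hj')))
    rw [claimA (k + 1) (by omega) (ζ ^ j) hprim (η i) (hη1 i) u₀ hu₀, mul_zero]
  have claimB' : ∀ u₀ ∈ F, ∀ k, k₀ ≤ k → T u₀ k = T u₀ k₀ := by
    intro u₀ hu₀ k hk
    induction k, hk using Nat.le_induction with
    | base => rfl
    | succ k hk ih => rw [claimB u₀ hu₀ k hk, ih]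
  -- claim C
  obtain ⟨X, hX⟩ := hxb
  have hX0 : 0 ≤ X := (norm_nonneg _).trans (hX 0)
  have hind : ∀ k, gm (fun n => ((p : ℂ) ^ k * (if p ^ k ∣ n then 1 else 0))) = 1 := by
    intro k
    have hm : 0 < p ^ k := pow_pos hp0 k
    rw [gm_periodic (hindb k) hm (fun n => by simp)]
    have : ∑ b ∈ Finset.range (p ^ k), ((p : ℂ) ^ k * (if p ^ k ∣ b then 1 else 0)) =
        (p : ℂ) ^ k := by
      rw [Finset.sum_eq_single 0]
      · simp
      · intro b hb hb0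
        rw [if_neg, mul_zero]
        intro hdvd
        exact hb0 (Nat.eq_zero_of_dvd_of_lt hdvd (Finset.mem_range.1 hb))
      · intro h
        exact absurd (Finset.mem_range.2 hm) h
    rw [this, Nat.cast_pow]
    exact div_self (pow_ne_zero _ hpC)
  have claimC : ∀ u₀ ∈ F, T u₀ k₀ = 0 := by
    intro u₀ hu₀
    rw [← norm_le_zero_iff]
    refine le_of_forall_pos_le_add (fun ε hε => ?_)
    obtain ⟨k, hk⟩ := hdec (ε / (X + 1)) (div_pos hε (by linarith))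
    set k' := max k k₀ with hk'
    rw [← claimB' u₀ hu₀ k' (le_max_right _ _), zero_add]
    have hindR : BddSeq (fun n => ((((p : ℝ) ^ k' * (if p ^ k' ∣ n then 1 else 0) *
        ε : ℝ)) : ℂ)) := by
      refine ⟨(p : ℝ) ^ k' * ε, fun n => ?_⟩
      rw [Complex.norm_real, Real.norm_eq_abs, abs_mul, abs_mul, abs_of_pos hε]
      split_ifs
      · simp
      · simp; positivity
    have hbd : ∀ n, 1 ≤ n → ‖((p : ℂ) ^ k' * (if p ^ k' ∣ n then 1 else 0)) *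
      ((G n : ℂ) * ((D n : ℂ) * (∑ u ∈ F, a u * u ^ n) * (u₀⁻¹) ^ n))‖ ≤
        (p : ℝ) ^ k' * (if p ^ k' ∣ n then 1 else 0) * ε := by
      intro n hn
      rw [norm_mul, norm_mul, norm_mul, norm_mul, norm_mul, norm_pow, norm_pow, hinv u₀ hu₀,
        one_pow, mul_one, Complex.norm_natCast]
      split_ifs with hdvd
      · rw [norm_one, mul_one]
        refine mul_le_mul_of_nonneg_left ?_ (by positivity)
        rcases hG01 n with h | h
        · rw [h]; simp [hε.le]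
        · rw [h, Complex.ofReal_one, norm_one, one_mul, Complex.norm_real, Real.norm_eq_abs,
            abs_of_pos (hD n hn).1]
          have h1 := hk n hn ((pow_dvd_pow p (le_max_left _ _)).trans hdvd) h
          calc D n * ‖∑ u ∈ F, a u * u ^ n‖ ≤ ε / (X + 1) * X :=
                mul_le_mul h1 (hX n) (norm_nonneg _) (by positivity)
            _ ≤ ε := by
                rw [div_mul_eq_mul_div, div_le_iff₀ (by linarith)]
                nlinarith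
      · simp
    rw [hT]
    simp only
    rw [← gm_shift ((hindb _).mul (hWb u₀ hu₀))]
    have h2 : ‖gm (fun n => ((p : ℂ) ^ k' * (if p ^ k' ∣ (n + 1) then 1 else 0)) *
      ((G (n + 1) : ℂ) * ((D (n + 1) : ℂ) * (∑ u ∈ F, a u * u ^ (n + 1)) *
        (u₀⁻¹) ^ (n + 1))))‖ ≤
        (gm (fun n => ((((p : ℝ) ^ k' * (if p ^ k' ∣ (n + 1) then 1 else 0) * ε : ℝ)) : ℂ))).re := by
      refine norm_gm_le_of_le (y := fun n => (p : ℝ) ^ k' *
        (if p ^ k' ∣ (n + 1) then 1 else 0) * ε) (C := (p : ℝ) ^ k' * ε)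
        (fun n => hbd (n + 1) (by omega)) ?_
      intro n
      refine mul_le_mul_of_nonneg_right ?_ hε.le
      split_ifs
      · simp
      · simp
    refine h2.trans (le_of_eq ?_)
    rw [gm_shift hindR]
    have h3 : (fun n => ((((p : ℝ) ^ k' * (if p ^ k' ∣ n then 1 else 0) * ε : ℝ)) : ℂ)) =
        fun n => (ε : ℂ) * ((p : ℂ) ^ k' * (if p ^ k' ∣ n then 1 else 0)) := by
      funext n
      split_ifs
      · push_cast; ring
      · push_cast; ring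
    rw [h3, gm_const_mul (hindb k'), hind k', mul_one, Complex.ofReal_re]
  -- claim E
  have hconj : ∀ n, (starRingEnd ℂ) (∑ u ∈ F, a u * u ^ n) =
      ∑ u ∈ F, (starRingEnd ℂ) (a u) * (u⁻¹) ^ n := by
    intro n
    rw [map_sum]
    refine Finset.sum_congr rfl (fun u hu => ?_)
    rw [map_mul, map_pow]
    congr 2
    exact (Complex.inv_eq_conj (hF u hu)).symm
  have claimE : gm (fun n => ((p : ℂ) ^ k₀ * (if p ^ k₀ ∣ n then 1 else 0)) *
      ((G n : ℂ) * ((D n : ℂ) * ((∑ u ∈ F, a u * u ^ n) *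
        (starRingEnd ℂ) (∑ u ∈ F, a u * u ^ n))))) = 0 := by
    have h1 : (fun n => ((p : ℂ) ^ k₀ * (if p ^ k₀ ∣ n then 1 else 0)) *
      ((G n : ℂ) * ((D n : ℂ) * ((∑ u ∈ F, a u * u ^ n) *
        (starRingEnd ℂ) (∑ u ∈ F, a u * u ^ n))))) =
        fun n => ∑ u₀ ∈ F, (starRingEnd ℂ) (a u₀) *
          (((p : ℂ) ^ k₀ * (if p ^ k₀ ∣ n then 1 else 0)) *
          ((G n : ℂ) * ((D n : ℂ) * (∑ u ∈ F, a u * u ^ n) * (u₀⁻¹) ^ n))) := by
      funext n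
      rw [hconj n, Finset.mul_sum (a := ∑ u ∈ F, a u * u ^ n), Finset.mul_sum (a := (D n : ℂ)),
        Finset.mul_sum (a := (G n : ℂ)), Finset.mul_sum]
      refine Finset.sum_congr rfl (fun u₀ _ => ?_)
      ring
    rw [h1, gm_sum F (fun u₀ hu₀ => ((hindb _).mul (hWb u₀ hu₀)).const_mul _)]
    refine Finset.sum_eq_zero (fun u₀ hu₀ => ?_)
    rw [gm_const_mul ((hindb _).mul (hWb u₀ hu₀))]
    have := claimC u₀ hu₀
    rw [hT] at this
    simp only at this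
    rw [this, mul_zero]
  -- claim F: positivity
  set n₁ : ℕ := n₀ * p ^ k₀ with hn₁
  have hn₁pos : 1 ≤ n₁ := Nat.mul_pos hn₀ (pow_pos hp0 _)
  set m₁ : ℕ := n₁ * M with hm₁
  have hm₁pos : 0 < m₁ := Nat.mul_pos hn₁pos hM
  -- the indicator of the class of `n₁` modulo `m₁`
  set J : ℕ → ℂ := fun n => if n % m₁ = n₁ % m₁ then 1 else 0 with hJ
  have hJper : ∀ n, J (n + m₁) = J n := fun n => by simp [hJ]
  obtain ⟨b, η', hfin', hη'1, hJsum⟩ := periodic_eq_sum hm₁pos hJper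
  have hη'n : ∀ i, ‖η' i‖ = 1 := fun i => by
    have h1 : ‖η' i‖ ^ m₁ = 1 := by rw [← norm_pow, hη'1, norm_one]
    exact (pow_eq_one_iff_of_nonneg (norm_nonneg _) hm₁pos.ne').1 h1
  have hJtrig : IsTrig J := isTrig_of_sum Finset.univ b η' (fun i _ => hη'n i) hJsum
  have hxtrig : IsTrig (fun n => ∑ u ∈ F, a u * u ^ n) := ⟨F, a, hF, fun n => rfl⟩
  obtain ⟨F', a', hF', hy⟩ := hJtrig.mul hxtrig
  have hpars := gm_mul_conj (c := a') hF'
  -- comparison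
  have hJ01 : ∀ n, J n = 0 ∨ J n = 1 := fun n => by
    simp only [hJ]; split_ifs <;> simp
  have hJprop : ∀ n, 1 ≤ n → J n = 1 → p ^ k₀ ∣ n ∧ G n = 1 ∧ D n = D n₁ := by
    intro n hn hJn
    have hmod : n % m₁ = n₁ % m₁ := by
      by_contra h
      simp only [hJ, if_neg h] at hJn
      exact zero_ne_one hJn
    have hn1m : n₁ ∣ m₁ := Dvd.intro M rfl
    have hdvdn : n₁ ∣ n := by
      have h1 : n % n₁ = 0 := by
        have h2 : n % m₁ % n₁ = n % n₁ := Nat.mod_mod_of_dvd n hn1m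
        rw [← h2, hmod, Nat.mod_mod_of_dvd n₁ hn1m, Nat.mod_self]
      exact Nat.dvd_of_mod_eq_zero h1
    obtain ⟨c, hc⟩ := hdvdn
    have hc0 : 0 < c := by
      rcases Nat.eq_zero_or_pos c with h | h
      · subst h; omega
      · exact h
    have hcM : c ≡ 1 [MOD M] := by
      have h1 : n₁ * c ≡ n₁ * 1 [MOD n₁ * M] := by
        rw [mul_one, ← hc]; exact hmod
      exact Nat.ModEq.mul_left_cancel' (by omega) h1
    have hcop : Nat.Coprime c M := by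
      have := hcM.gcd_eq
      simpa [Nat.Coprime] using this
    refine ⟨?_, ?_, ?_⟩
    · exact (Dvd.intro_left n₀ rfl : p ^ k₀ ∣ n₁).trans (hc ▸ Dvd.intro c rfl)
    · have hGper : ∀ k l : ℕ, G (l + N * k) = G l := by
        intro k
        induction k with
        | zero => intro l; simp
        | succ k ih => intro l; rw [Nat.mul_succ, ← add_assoc, hG, ih]
      have hGmod : ∀ l : ℕ, G l = G (l % N) := fun l => by
        conv_lhs => rw [← Nat.mod_add_div l N]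
        exact hGper _ _
      have h1 : n % N = n₁ % N := by
        have h2 : N ∣ m₁ := hNM.trans (Dvd.intro_left n₁ rfl)
        rw [← Nat.mod_mod_of_dvd n h2, hmod, Nat.mod_mod_of_dvd n₁ h2]
      rw [hGmod n, h1, ← hGmod n₁]
      exact hGn₀ k₀
    · rw [hc, mul_comm]
      exact D_mul_coprime hM happ hcop hc0 hn₁pos
  have hreal : ∀ n, ((∑ u ∈ F, a u * u ^ n) * (starRingEnd ℂ) (∑ u ∈ F, a u * u ^ n)) =
      ((‖∑ u ∈ F, a u * u ^ n‖ ^ 2 : ℝ) : ℂ) := fun n => by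
    rw [Complex.mul_conj, Complex.normSq_eq_norm_sq]
  have hD1 := (hD n₁ hn₁pos).1
  have hcmp : ‖gm (fun n => (D n₁ : ℂ) * ((∑ u ∈ F', a' u * u ^ n) *
      (starRingEnd ℂ) (∑ u ∈ F', a' u * u ^ n)))‖ ≤ 0 := by
    have hb1 : BddSeq (fun n => (D n₁ : ℂ) * ((∑ u ∈ F', a' u * u ^ n) *
      (starRingEnd ℂ) (∑ u ∈ F', a' u * u ^ n))) := by
      obtain ⟨Y, hY⟩ := (show IsTrig (fun n => ∑ u ∈ F', a' u * u ^ n) from
        ⟨F', a', hF', fun n => rfl⟩).bdd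
      refine BddSeq.const_mul (BddSeq.mul ⟨Y, hY⟩ ⟨Y, fun n => ?_⟩) _
      rw [RCLike.norm_conj]; exact hY n
    have hC0 : 0 ≤ C := hD1.le.trans (hD n₁ hn₁pos).2
    rw [← gm_shift hb1]
    have hmain : ∀ n, ‖(D n₁ : ℂ) * ((∑ u ∈ F', a' u * u ^ (n + 1)) *
      (starRingEnd ℂ) (∑ u ∈ F', a' u * u ^ (n + 1)))‖ ≤
        (p : ℝ) ^ k₀ * (if p ^ k₀ ∣ (n + 1) then 1 else 0) * (G (n + 1) * (D (n + 1) *
          ‖∑ u ∈ F, a u * u ^ (n + 1)‖ ^ 2)) := by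
      intro n
      rw [← hy (n + 1), norm_mul, Complex.norm_real, Real.norm_eq_abs, abs_of_pos hD1,
        Complex.mul_conj, Complex.norm_real, Complex.normSq_eq_norm_sq,
        Real.norm_of_nonneg (by positivity)]
      beta_reduce
      have hp1 : (1 : ℝ) ≤ (p : ℝ) ^ k₀ := one_le_pow₀ (by exact_mod_cast hp0)
      rcases hJ01 (n + 1) with h | h
      · rw [h, zero_mul, norm_zero]
        have hGn : 0 ≤ G (n + 1) := by
          rcases hG01 (n + 1) with h | h <;> rw [h]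
          norm_num
        have hDn := (hD (n + 1) (by omega)).1.le
        split_ifs
        · simp; positivity
        · simp
      · obtain ⟨h1, h2, h3⟩ := hJprop (n + 1) (by omega) h
        rw [h, one_mul, if_pos h1, h2, h3, one_mul, mul_one]
        nlinarith [mul_nonneg hD1.le (sq_nonneg ‖∑ u ∈ F, a u * u ^ (n + 1)‖)]
    have h2 := norm_gm_le_of_le (C := (p : ℝ) ^ k₀ * (C * X ^ 2)) hmain ?_
    · refine h2.trans (le_of_eq ?_)
      have h3 : (fun n => ((((p : ℝ) ^ k₀ * (if p ^ k₀ ∣ (n + 1) then 1 else 0) *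
          (G (n + 1) * (D (n + 1) * ‖∑ u ∈ F, a u * u ^ (n + 1)‖ ^ 2)) : ℝ)) : ℂ)) =
          fun n => (fun n => ((p : ℂ) ^ k₀ * (if p ^ k₀ ∣ n then 1 else 0)) *
            ((G n : ℂ) * ((D n : ℂ) * ((∑ u ∈ F, a u * u ^ n) *
            (starRingEnd ℂ) (∑ u ∈ F, a u * u ^ n))))) (n + 1) := by
        funext n
        simp only
        rw [hreal (n + 1)]
        split_ifs
        · push_cast; ring
        · push_cast; ring
      have hb3 : BddSeq (fun n => ((p : ℂ) ^ k₀ * (if p ^ k₀ ∣ n then 1 else 0)) *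
            ((G n : ℂ) * ((D n : ℂ) * ((∑ u ∈ F, a u * u ^ n) *
            (starRingEnd ℂ) (∑ u ∈ F, a u * u ^ n))))) := by
        refine (hindb k₀).mul (hGb.mul (hDb.mul (BddSeq.mul ⟨X, hX⟩ ⟨X, fun n => ?_⟩)))
        rw [RCLike.norm_conj]; exact hX n
      rw [h3, gm_shift hb3, claimE, Complex.zero_re]
    · intro n
      have hGn : 0 ≤ G (n + 1) ∧ G (n + 1) ≤ 1 := by
        rcases hG01 (n + 1) with h | h <;> rw [h] <;> norm_num
      have hDn := hD (n + 1) (by omega)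
      have hxn := hX (n + 1)
      have h5 : ‖∑ u ∈ F, a u * u ^ (n + 1)‖ ^ 2 ≤ X ^ 2 :=
        pow_le_pow_left₀ (norm_nonneg _) hxn 2
      have h6 : D (n + 1) * ‖∑ u ∈ F, a u * u ^ (n + 1)‖ ^ 2 ≤ C * X ^ 2 :=
        mul_le_mul hDn.2 h5 (by positivity) hC0
      have h7 : 0 ≤ D (n + 1) * ‖∑ u ∈ F, a u * u ^ (n + 1)‖ ^ 2 :=
        mul_nonneg hDn.1.le (by positivity)
      have h8 : G (n + 1) * (D (n + 1) * ‖∑ u ∈ F, a u * u ^ (n + 1)‖ ^ 2) ≤ C * X ^ 2 := by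
        nlinarith [hGn.1, hGn.2]
      have h9 : 0 ≤ G (n + 1) * (D (n + 1) * ‖∑ u ∈ F, a u * u ^ (n + 1)‖ ^ 2) :=
        mul_nonneg hGn.1 h7
      have hpk : (0 : ℝ) ≤ (p : ℝ) ^ k₀ := by positivity
      split_ifs
      · rw [mul_one]; exact mul_le_mul_of_nonneg_left h8 hpk
      · rw [mul_zero, zero_mul]
        positivity
  have hb2 : BddSeq (fun n => ((∑ u ∈ F', a' u * u ^ n) *
      (starRingEnd ℂ) (∑ u ∈ F', a' u * u ^ n))) := by
    obtain ⟨Y, hY⟩ := (show IsTrig (fun n => ∑ u ∈ F', a' u * u ^ n) from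
      ⟨F', a', hF', fun n => rfl⟩).bdd
    refine BddSeq.mul ⟨Y, hY⟩ ⟨Y, fun n => ?_⟩
    rw [RCLike.norm_conj]; exact hY n
  rw [gm_const_mul hb2, hpars, norm_le_zero_iff] at hcmp
  have hsum0 : ∑ u ∈ F', ‖a' u‖ ^ 2 = 0 := by
    rcases mul_eq_zero.1 hcmp with h | h
    · exact absurd h (by exact_mod_cast hD1.ne')
    · exact_mod_cast h
  have ha'0 : ∀ u ∈ F', a' u = 0 := by
    intro u hu
    have := (Finset.sum_eq_zero_iff_of_nonneg (fun u _ => by positivity)).1 hsum0 u hu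
    have h1 : ‖a' u‖ = 0 := by
      rcases pow_eq_zero_iff (two_ne_zero) |>.1 this with h
      exact h
    exact norm_eq_zero.1 h1
  have hfinal := hy n₁
  rw [Finset.sum_eq_zero (s := F') (fun u hu => by rw [ha'0 u hu, zero_mul])] at hfinal
  have hJ1 : J n₁ = 1 := by simp [hJ]
  beta_reduce at hfinal
  rw [hJ1, one_mul] at hfinal
  exact hx0 n₁ hn₁pos hfinal

end Pool.Agent.FAD
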