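import Pool.Agent.FAD.Defs

/-!
# Elementary facts on fixed point counts
-/

namespace Pool.Agent.FAD

variable {X : Type*} {f : X → X}

lemma iterate_mem {n : ℕ} {x : X} (hx : f^[n] x = x) : f^[n] (f x) = f x := by
  rw [← Function.iterate_succ_apply, Function.iterate_succ_apply', hx]

/-- `f_p ≡ f_1` modulo a prime `p`. -/
lemma fixCount_modEq (hf : IsSystem f) {p : ℕ} (hp : p.Prime) :
    fixCount f p ≡ fixCount f 1 [MOD p] := by
  classical
  have hfp := Fact.mk hp
  have hfin := hf p hp.pos
  set α := {x : X | f^[p] x = x} with hα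
  haveI : Fintype α := hfin.fintype
  let g : Function.End α := fun x => ⟨f x.1, iterate_mem x.2⟩
  have hg : ∀ (n : ℕ) (x : α), ((g^[n] x : α) : X) = f^[n] x.1 := by
    intro n
    induction n with
    | zero => intro x; rfl
    | succ n ih =>
      intro x
      rw [Function.iterate_succ_apply, Function.iterate_succ_apply, ih]
  have hgp : g ^ p ^ 1 = 1 := by
    rw [pow_one]
    funext x
    apply Subtype.ext
    have h1 : (g ^ p) x = g^[p] x := by
      have := (hom_coe_pow (fun h : Function.End α ↦ h) rfl (fun _ _ ↦ rfl) g p)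
      exact congrFun this x
    rw [h1, hg]
    exact x.2
  have hmain := Equiv.Perm.card_fixedPoints_modEq (n := 1) hgp
  have h1 : Fintype.card α = fixCount f p := by
    unfold fixCount
    rw [Set.ncard_eq_toFinset_card' α, Set.toFinset_card]
  have h2 : Fintype.card (Function.fixedPoints g) = fixCount f 1 := by
    unfold fixCount
    rw [← Nat.card_eq_fintype_card, ← Nat.card_coe_set_eq]
    refine Nat.card_congr ⟨fun y => ⟨y.1.1, ?_⟩, fun x => ⟨⟨x.1, ?_⟩, ?_⟩, ?_, ?_⟩
    · have h3 : g y.1 = y.1 := y.2
      have h4 := congrArg Subtype.val h3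
      exact h4
    · have h3 : f x.1 = x.1 := x.2
      exact Function.iterate_fixed h3 p
    · have h3 : f x.1 = x.1 := x.2
      apply Subtype.ext
      exact h3
    · intro y; rfl
    · intro x; rfl
  rw [h1, h2] at hmain
  exact hmain

/-- fixed points of `f` are fixed points of `f^n`. -/
lemma fixCount_one_le (hf : IsSystem f) {n : ℕ} (hn : 1 ≤ n) : fixCount f 1 ≤ fixCount f n := by
  unfold fixCount
  refine Set.ncard_le_ncard ?_ (hf n hn)
  intro x hx
  have h3 : f x = x := hx
  exact Function.iterate_fixed h3 n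

end Pool.Agent.FAD
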