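import Mathlib

/-!
# FAD-systems: definitions

Definitions for the problem on natural boundaries of Artin-Mazur zeta functions of
FAD-systems (finite-adelically distorted systems).
-/

open Filter Topology

namespace Pool.Agent.FAD

/-- `fixCount f n` is the number `f_n` of points `x` with `f^n x = x`
(it is used only for `n ≥ 1`, where `IsSystem` makes this set finite). -/
noncomputable def fixCount {X : Type*} (f : X → X) (n : ℕ) : ℕ :=
  {x : X | f^[n] x = x}.ncard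

/-- `(X,f)` is a system: for every `n ≥ 1` the map `f^n` has only finitely many fixed points. -/
def IsSystem {X : Type*} (f : X → X) : Prop :=
  ∀ n : ℕ, 1 ≤ n → {x : X | f^[n] x = x}.Finite

/-- `IsGcdSeq N a`: `N ≥ 1` and `a n = a (gcd n N)` for all `n ≥ 1`. -/
def IsGcdSeq (N : ℕ) (a : ℕ → ℝ) : Prop :=
  1 ≤ N ∧ ∀ n : ℕ, 1 ≤ n → a n = a (Nat.gcd n N)

/-- The formal power series `∑_{n ≥ 1} (f_n / n) z^n`. -/
noncomputable def logZeta {X : Type*} (f : X → X) : PowerSeries ℂ :=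
  PowerSeries.mk fun n => if n = 0 then 0 else (fixCount f n : ℂ) / (n : ℂ)

/-- The Artin-Mazur zeta function `exp (∑_{n ≥ 1} (f_n / n) z^n)`, as a formal power series. -/
noncomputable def zeta {X : Type*} (f : X → X) : PowerSeries ℂ :=
  (PowerSeries.exp ℂ).subst (logZeta f)

/-- FAD-systems: systems whose fixed point counts have the form
`|det(A^n-1)| c^n r_n ∏_{p ∈ S} |n|_p^{s_{p,n}} p^{-t_{p,n} |n|_p^{-1}}`. -/
def IsFAD {X : Type*} (f : X → X) : Prop :=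
  IsSystem f ∧
  ∃ (d : ℕ) (A : Matrix (Fin d) (Fin d) ℤ) (S : Finset ℕ) (c : ℝ) (r : ℕ → ℝ)
    (s t : ℕ → ℕ → ℝ),
    (∀ p ∈ S, p.Prime) ∧ 0 < c ∧
    (∀ n : ℕ, 1 ≤ n → 0 < r n) ∧ (∃ N, IsGcdSeq N r) ∧
    (∀ p ∈ S, (∀ n : ℕ, 1 ≤ n → 0 ≤ s p n) ∧ (∀ n : ℕ, 1 ≤ n → 0 ≤ t p n) ∧
      (∃ N, Nat.Coprime N p ∧ IsGcdSeq N (s p)) ∧
      (∃ N, Nat.Coprime N p ∧ IsGcdSeq N (t p))) ∧
    ∀ n : ℕ, 1 ≤ n →
      (fixCount f n : ℝ) = |(((A ^ n - 1).det : ℤ) : ℝ)| * c ^ n * r n *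
        ∏ p ∈ S, (((padicNorm p (n : ℚ) : ℚ) : ℝ) ^ (s p n) *
          (p : ℝ) ^ (-(t p n * ((padicNorm p (n : ℚ) : ℚ) : ℝ)⁻¹)))

/-- `Λ = exp (limsup (log f_n) / n)`. -/
noncomputable def growth {X : Type*} (f : X → X) : ℝ :=
  Real.exp (limsup (fun n : ℕ => Real.log (fixCount f n) / (n : ℝ)) atTop)

/-- `φ` is root-rational: `φ^k` is a rational function for some `k ≥ 1`. -/
def IsRootRational (φ : PowerSeries ℂ) : Prop :=
  ∃ k : ℕ, 1 ≤ k ∧ ∃ P Q : Polynomial ℂ, Q ≠ 0 ∧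
    φ ^ k * (Q : PowerSeries ℂ) = (P : PowerSeries ℂ)

/-- The power series `φ` converges for `|z| < R` and has the circle `|z| = R` as a natural
boundary: for no open set `U` meeting that circle there is an analytic function on `U`
which agrees with the sum of `φ` at all points of `U` with `|z| < R`. -/
def HasNaturalBoundary (φ : PowerSeries ℂ) (R : ℝ) : Prop :=
  (∀ z : ℂ, ‖z‖ < R → Summable fun n : ℕ => PowerSeries.coeff n φ * z ^ n) ∧
  ∀ U : Set ℂ, IsOpen U → (U ∩ {z : ℂ | ‖z‖ = R}).Nonempty →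
    ¬ ∃ g : ℂ → ℂ, AnalyticOnNhd ℂ g U ∧
      ∀ z ∈ U, ‖z‖ < R → g z = ∑' n : ℕ, PowerSeries.coeff n φ * z ^ n

end Pool.Agent.FAD
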