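import Pool.Agent.FAD.Defs
import Pool.Agent.FAD.Core2

/-!
# The distortion factor `r_n ∏ |n|_p^s p^{-t |n|_p^{-1}}`
-/

open Filter Topology

namespace Pool.Agent.FAD

/-- the factor at `p` as a function of the valuation -/
noncomputable def phi (p : ℕ) (σ τ : ℝ) (v : ℕ) : ℝ :=
  ((p : ℝ) ^ (-(v : ℤ))) ^ σ * (p : ℝ) ^ (-(τ * (p : ℝ) ^ v))

lemma factor_eq_phi {p : ℕ} (hp : p.Prime) (σ τ : ℝ) {n : ℕ} (hn : 1 ≤ n) :
    (((padicNorm p (n : ℚ) : ℚ) : ℝ) ^ σ *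
      (p : ℝ) ^ (-(τ * ((padicNorm p (n : ℚ) : ℚ) : ℝ)⁻¹))) = phi p σ τ (padicValNat p n) := by
  have hq : (n : ℚ) ≠ 0 := by exact_mod_cast (by omega : n ≠ 0)
  have h1 : ((padicNorm p (n : ℚ) : ℚ) : ℝ) = (p : ℝ) ^ (-(padicValNat p n : ℤ)) := by
    rw [padicNorm.eq_zpow_of_nonzero hq, padicValRat.of_nat]
    push_cast; rfl
  unfold phi
  rw [h1, zpow_neg, inv_inv, zpow_natCast]

section

variable {p : ℕ} (hp : p.Prime) {σ τ : ℝ} (hσ : 0 ≤ σ) (hτ : 0 ≤ τ)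

include hp hσ hτ

lemma phi_pos (v : ℕ) : 0 < phi p σ τ v := by
  have hp0 : (0 : ℝ) < p := by exact_mod_cast hp.pos
  unfold phi
  positivity

lemma phi_fst_le (v : ℕ) : ((p : ℝ) ^ (-(v : ℤ))) ^ σ ≤ 1 := by
  have hp1 : (1 : ℝ) ≤ p := by exact_mod_cast hp.one_lt.le
  refine Real.rpow_le_one (by positivity) ?_ hσ
  rw [zpow_neg, zpow_natCast]
  exact inv_le_one_of_one_le₀ (one_le_pow₀ hp1)

lemma phi_snd_le (v : ℕ) : (p : ℝ) ^ (-(τ * (p : ℝ) ^ v)) ≤ 1 := by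
  have hp1 : (1 : ℝ) ≤ p := by exact_mod_cast hp.one_lt.le
  refine Real.rpow_le_one_of_one_le_of_nonpos hp1 ?_
  have : 0 ≤ τ * (p : ℝ) ^ v := by positivity
  linarith

lemma phi_le_one (v : ℕ) : phi p σ τ v ≤ 1 := by
  have hp0 : (0 : ℝ) < p := by exact_mod_cast hp.pos
  unfold phi
  exact mul_le_one₀ (phi_fst_le hp hσ hτ v) (by positivity) (phi_snd_le hp hσ hτ v)

lemma tendsto_phi_zero (h : ¬ (σ = 0 ∧ τ = 0)) : Tendsto (phi p σ τ) atTop (𝓝 0) := by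
  have hp0 : (0 : ℝ) < p := by exact_mod_cast hp.pos
  have hp1 : (1 : ℝ) < p := by exact_mod_cast hp.one_lt
  have hfst : ∀ v : ℕ, ((p : ℝ) ^ (-(v : ℤ))) ^ σ = ((p : ℝ) ^ (-σ)) ^ v := by
    intro v
    rw [← Real.rpow_intCast, ← Real.rpow_mul hp0.le, ← Real.rpow_natCast, ← Real.rpow_mul hp0.le]
    congr 1
    push_cast; ring
  by_cases hσ0 : σ = 0
  · have hτ0 : 0 < τ := lt_of_le_of_ne hτ (fun h1 => h ⟨hσ0, h1.symm⟩)
    have h1 : Tendsto (fun v : ℕ => (p : ℝ) ^ (-(τ * (p : ℝ) ^ v))) atTop (𝓝 0) := by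
      have h2 : Tendsto (fun v : ℕ => τ * (p : ℝ) ^ v) atTop atTop :=
        (tendsto_pow_atTop_atTop_of_one_lt hp1).const_mul_atTop hτ0
      have h3 : (fun v : ℕ => (p : ℝ) ^ (-(τ * (p : ℝ) ^ v))) =
          fun v : ℕ => Real.exp (-(Real.log p * (τ * (p : ℝ) ^ v))) := by
        funext v
        rw [Real.rpow_def_of_pos hp0]
        congr 1; ring
      rw [h3]
      exact Real.tendsto_exp_neg_atTop_nhds_zero.comp (h2.const_mul_atTop (Real.log_pos hp1))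
    refine squeeze_zero (fun v => (phi_pos hp hσ hτ v).le) (fun v => ?_) h1
    unfold phi
    exact mul_le_of_le_one_left (by positivity) (phi_fst_le hp hσ hτ v)
  · have hσpos : 0 < σ := lt_of_le_of_ne hσ (Ne.symm hσ0)
    have h1 : Tendsto (fun v : ℕ => ((p : ℝ) ^ (-(v : ℤ))) ^ σ) atTop (𝓝 0) := by
      simp_rw [hfst]
      refine tendsto_pow_atTop_nhds_zero_of_lt_one (by positivity) ?_
      exact Real.rpow_lt_one_of_one_lt_of_neg hp1 (by linarith)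
    refine squeeze_zero (fun v => (phi_pos hp hσ hτ v).le) (fun v => ?_) h1
    unfold phi
    exact mul_le_of_le_one_right (by positivity) (phi_snd_le hp hσ hτ v)

lemma phi_zero_zero (v : ℕ) (h : σ = 0 ∧ τ = 0) : phi p σ τ v = 1 := by
  unfold phi
  rw [h.1, h.2]; simp

lemma phi_cauchy {ε : ℝ} (hε : 0 < ε) :
    ∀ᶠ L : ℕ in atTop, ∀ v v', L ≤ v → L ≤ v' → |phi p σ τ v - phi p σ τ v'| ≤ ε := by
  by_cases h : σ = 0 ∧ τ = 0
  · refine Eventually.of_forall (fun L v v' _ _ => ?_)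
    rw [phi_zero_zero hp hσ hτ v h, phi_zero_zero hp hσ hτ v' h, sub_self, abs_zero]
    exact hε.le
  · have h1 := (tendsto_phi_zero hp hσ hτ h).eventually (gt_mem_nhds hε)
    rw [eventually_atTop] at h1
    obtain ⟨L₀, hL₀⟩ := h1
    filter_upwards [eventually_ge_atTop L₀] with L hL v v' hv hv'
    have h2 := hL₀ v (hL.trans hv)
    have h3 := hL₀ v' (hL.trans hv')
    have h4 := phi_pos hp hσ hτ v
    have h5 := phi_pos hp hσ hτ v'
    rw [abs_le]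
    constructor <;> linarith

end

lemma IsGcdSeq.of_dvd {N M : ℕ} {a : ℕ → ℝ} (ha : IsGcdSeq N a) (hNM : N ∣ M) (hM : 0 < M) :
    IsGcdSeq M a := by
  refine ⟨hM, fun n hn => ?_⟩
  rw [ha.2 n hn, ha.2 (Nat.gcd n M) (Nat.gcd_pos_of_pos_left _ hn)]
  congr 1
  rw [Nat.gcd_assoc, Nat.gcd_eq_right hNM]

lemma IsGcdSeq.gcd_pow {N M : ℕ} {a : ℕ → ℝ} (ha : IsGcdSeq N a) (hNM : N ∣ M) {L n : ℕ}
    (hL : 1 ≤ L) (hn : 1 ≤ n) : a (Nat.gcd n (M ^ L)) = a n := by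
  rw [ha.2 n hn, ha.2 (Nat.gcd n (M ^ L)) (Nat.gcd_pos_of_pos_left _ hn)]
  congr 1
  rw [Nat.gcd_assoc, Nat.gcd_eq_right (hNM.trans (dvd_pow_self M (by omega)))]

/-- the valuation of `gcd n M^L` -/
lemma val_gcd_pow {p M L n : ℕ} (hp : p.Prime) (hM : 0 < M) (hpM : p ∣ M) (hn : 1 ≤ n) :
    padicValNat p (Nat.gcd n (M ^ L)) = padicValNat p n ∨
      (L ≤ padicValNat p (Nat.gcd n (M ^ L)) ∧ L ≤ padicValNat p n) := by
  have := Fact.mk hp
  have hML : M ^ L ≠ 0 := (pow_pos hM L).ne'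
  have h1 : padicValNat p (Nat.gcd n (M ^ L)) = min (padicValNat p n) (padicValNat p (M ^ L)) := by
    have h2 := Nat.factorization_gcd (show n ≠ 0 by omega) hML
    have h3 := DFunLike.congr_fun h2 p
    rw [Finsupp.inf_apply] at h3
    rwa [Nat.factorization_def _ hp, Nat.factorization_def _ hp, Nat.factorization_def _ hp] at h3
  have h4 : L ≤ padicValNat p (M ^ L) := by
    rw [padicValNat.pow]
    have : 1 ≤ padicValNat p M := one_le_padicValNat_of_dvd hM.ne' hpM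
    exact Nat.le_mul_of_pos_right L this
  rw [h1]
  rcases le_total (padicValNat p n) (padicValNat p (M ^ L)) with h | h
  · left; exact min_eq_left h
  · right
    rw [min_eq_right h]
    exact ⟨h4, h4.trans h⟩

lemma prod_sub_prod_le {ι : Type*} (S : Finset ι) (x y : ι → ℝ)
    (hx : ∀ i ∈ S, 0 ≤ x i ∧ x i ≤ 1) (hy : ∀ i ∈ S, 0 ≤ y i ∧ y i ≤ 1) :
    |∏ i ∈ S, x i - ∏ i ∈ S, y i| ≤ ∑ i ∈ S, |x i - y i| := by
  classical
  induction S using Finset.induction_on with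
  | empty => simp
  | insert a S ha ih =>
    rw [Finset.prod_insert ha, Finset.prod_insert ha, Finset.sum_insert ha]
    have ih' := ih (fun i hi => hx i (Finset.mem_insert_of_mem hi))
      (fun i hi => hy i (Finset.mem_insert_of_mem hi))
    have hxa := hx a (Finset.mem_insert_self _ _)
    have hP : 0 ≤ ∏ i ∈ S, y i ∧ ∏ i ∈ S, y i ≤ 1 :=
      ⟨Finset.prod_nonneg (fun i hi => (hy i (Finset.mem_insert_of_mem hi)).1),
        Finset.prod_le_one (fun i hi => (hy i (Finset.mem_insert_of_mem hi)).1)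
          (fun i hi => (hy i (Finset.mem_insert_of_mem hi)).2)⟩
    calc |x a * ∏ i ∈ S, x i - y a * ∏ i ∈ S, y i|
        = |x a * (∏ i ∈ S, x i - ∏ i ∈ S, y i) + (x a - y a) * ∏ i ∈ S, y i| := by
          congr 1; ring
      _ ≤ |x a * (∏ i ∈ S, x i - ∏ i ∈ S, y i)| + |(x a - y a) * ∏ i ∈ S, y i| := abs_add_le _ _
      _ ≤ |∏ i ∈ S, x i - ∏ i ∈ S, y i| + |x a - y a| := by
          rw [abs_mul, abs_mul]
          refine add_le_add ?_ ?_
          · refine mul_le_of_le_one_left (abs_nonneg _) ?_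
            rw [abs_of_nonneg hxa.1]; exact hxa.2
          · refine mul_le_of_le_one_right (abs_nonneg _) ?_
            rw [abs_of_nonneg hP.1]; exact hP.2
      _ ≤ |x a - y a| + ∑ i ∈ S, |x i - y i| := by linarith

section

variable {S : Finset ℕ} {r : ℕ → ℝ} {s t : ℕ → ℕ → ℝ}

/-- the distortion factor -/
noncomputable def distort (S : Finset ℕ) (r : ℕ → ℝ) (s t : ℕ → ℕ → ℝ) (n : ℕ) : ℝ :=
  r n * ∏ p ∈ S, phi p (s p n) (t p n) (padicValNat p n)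

lemma distort_pos (hS : ∀ p ∈ S, p.Prime) (hr : ∀ n : ℕ, 1 ≤ n → 0 < r n)
    (hs : ∀ p ∈ S, ∀ n : ℕ, 1 ≤ n → 0 ≤ s p n) (ht : ∀ p ∈ S, ∀ n : ℕ, 1 ≤ n → 0 ≤ t p n)
    {n : ℕ} (hn : 1 ≤ n) : 0 < distort S r s t n := by
  unfold distort
  exact mul_pos (hr n hn) (Finset.prod_pos (fun p hp => phi_pos (hS p hp) (hs p hp n hn)
    (ht p hp n hn) _))

lemma gcdSeq_bdd {N : ℕ} {a : ℕ → ℝ} (ha : IsGcdSeq N a) :
    ∃ C : ℝ, 0 ≤ C ∧ ∀ n : ℕ, 1 ≤ n → a n ≤ C := by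
  refine ⟨∑ i ∈ Finset.range (N + 1), |a i|, Finset.sum_nonneg (fun i _ => abs_nonneg _),
    fun n hn => ?_⟩
  rw [ha.2 n hn]
  have h1 : Nat.gcd n N ∈ Finset.range (N + 1) := by
    rw [Finset.mem_range]
    have := Nat.gcd_le_right n (show 0 < N from ha.1)
    omega
  exact (le_abs_self _).trans
    (Finset.single_le_sum (f := fun i => |a i|) (fun i _ => abs_nonneg _) h1)

lemma distort_le (hS : ∀ p ∈ S, p.Prime) (hr : ∀ n : ℕ, 1 ≤ n → 0 < r n)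
    (hs : ∀ p ∈ S, ∀ n : ℕ, 1 ≤ n → 0 ≤ s p n) (ht : ∀ p ∈ S, ∀ n : ℕ, 1 ≤ n → 0 ≤ t p n)
    {n : ℕ} (hn : 1 ≤ n) {C : ℝ} (hC : r n ≤ C) : distort S r s t n ≤ C := by
  unfold distort
  have h1 : ∏ p ∈ S, phi p (s p n) (t p n) (padicValNat p n) ≤ 1 :=
    Finset.prod_le_one (fun p hp => (phi_pos (hS p hp) (hs p hp n hn) (ht p hp n hn) _).le)
      (fun p hp => phi_le_one (hS p hp) (hs p hp n hn) (ht p hp n hn) _)
  exact (mul_le_of_le_one_right (hr n hn).le h1).trans hC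

lemma distort_le_phi (hS : ∀ p ∈ S, p.Prime) (hr : ∀ n : ℕ, 1 ≤ n → 0 < r n)
    (hs : ∀ p ∈ S, ∀ n : ℕ, 1 ≤ n → 0 ≤ s p n) (ht : ∀ p ∈ S, ∀ n : ℕ, 1 ≤ n → 0 ≤ t p n)
    {n : ℕ} (hn : 1 ≤ n) {C : ℝ} (hC : r n ≤ C) {p : ℕ} (hp : p ∈ S) :
    distort S r s t n ≤ C * phi p (s p n) (t p n) (padicValNat p n) := by
  classical
  unfold distort
  rw [← Finset.mul_prod_erase S _ hp]
  have hφ := phi_pos (hS p hp) (hs p hp n hn) (ht p hp n hn) (padicValNat p n)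
  have h1 : ∏ q ∈ S.erase p, phi q (s q n) (t q n) (padicValNat q n) ≤ 1 :=
    Finset.prod_le_one (fun q hq => (phi_pos (hS q (Finset.mem_of_mem_erase hq))
        (hs q (Finset.mem_of_mem_erase hq) n hn) (ht q (Finset.mem_of_mem_erase hq) n hn) _).le)
      (fun q hq => phi_le_one (hS q (Finset.mem_of_mem_erase hq))
        (hs q (Finset.mem_of_mem_erase hq) n hn) (ht q (Finset.mem_of_mem_erase hq) n hn) _)
  refine mul_le_mul hC (mul_le_of_le_one_right hφ.le h1) ?_ ((hr n hn).le.trans hC)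
  exact mul_nonneg hφ.le (Finset.prod_nonneg (fun q hq => (phi_pos
    (hS q (Finset.mem_of_mem_erase hq)) (hs q (Finset.mem_of_mem_erase hq) n hn)
    (ht q (Finset.mem_of_mem_erase hq) n hn) _).le))

lemma distort_gcdApprox (hS : ∀ p ∈ S, p.Prime) (hr : ∀ n : ℕ, 1 ≤ n → 0 < r n)
    (hs : ∀ p ∈ S, ∀ n : ℕ, 1 ≤ n → 0 ≤ s p n) (ht : ∀ p ∈ S, ∀ n : ℕ, 1 ≤ n → 0 ≤ t p n)
    {M : ℕ} (hM : 0 < M) (hrM : IsGcdSeq M r) (hsM : ∀ p ∈ S, IsGcdSeq M (s p))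
    (htM : ∀ p ∈ S, IsGcdSeq M (t p)) (hSM : ∀ p ∈ S, p ∣ M) :
    GcdApprox (distort S r s t) M := by
  intro ε hε
  obtain ⟨C, hC0, hC⟩ := gcdSeq_bdd hrM
  set δ : ℝ := ε / ((C + 1) * (S.card + 1)) with hδ
  have hδ0 : 0 < δ := by positivity
  -- uniform choice of `L`
  have h1 : ∀ᶠ L : ℕ in atTop, ∀ p ∈ S, ∀ d ∈ M.divisors, ∀ v v', L ≤ v → L ≤ v' →
      |phi p (s p d) (t p d) v - phi p (s p d) (t p d) v'| ≤ δ := by
    rw [eventually_all_finset]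
    intro p hp
    rw [eventually_all_finset]
    intro d hd
    have hd1 : 1 ≤ d := Nat.pos_of_mem_divisors hd
    exact phi_cauchy (hS p hp) (hs p hp d hd1) (ht p hp d hd1) hδ0
  obtain ⟨L, hL, hL1⟩ := (h1.and (eventually_ge_atTop 1)).exists
  refine ⟨L, fun n hn => ?_⟩
  set g := Nat.gcd n (M ^ L) with hg
  have hg1 : 1 ≤ g := Nat.gcd_pos_of_pos_left _ hn
  have hrg : r g = r n := hrM.gcd_pow dvd_rfl hL1 hn
  have hsg : ∀ p ∈ S, s p g = s p n := fun p hp => (hsM p hp).gcd_pow dvd_rfl hL1 hn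
  have htg : ∀ p ∈ S, t p g = t p n := fun p hp => (htM p hp).gcd_pow dvd_rfl hL1 hn
  have h2 : ∀ p ∈ S, |phi p (s p n) (t p n) (padicValNat p n) -
      phi p (s p g) (t p g) (padicValNat p g)| ≤ δ := by
    intro p hp
    rw [hsg p hp, htg p hp]
    rcases val_gcd_pow (hS p hp) hM (hSM p hp) (L := L) hn with h | h
    · rw [← hg] at h
      rw [h, sub_self, abs_zero]; exact hδ0.le
    · rw [← hg] at h
      have h3 : s p n = s p (Nat.gcd n M) := (hsM p hp).2 n hn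
      have h4 : t p n = t p (Nat.gcd n M) := (htM p hp).2 n hn
      rw [h3, h4]
      exact hL p hp _ (Nat.mem_divisors.2 ⟨Nat.gcd_dvd_right _ _, hM.ne'⟩) _ _ h.2 h.1
  unfold distort
  rw [hrg, ← mul_sub, abs_mul, abs_of_pos (hr n hn)]
  have h5 := prod_sub_prod_le S (fun p => phi p (s p n) (t p n) (padicValNat p n))
    (fun p => phi p (s p g) (t p g) (padicValNat p g))
    (fun p hp => ⟨(phi_pos (hS p hp) (hs p hp n hn) (ht p hp n hn) _).le,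
      phi_le_one (hS p hp) (hs p hp n hn) (ht p hp n hn) _⟩)
    (fun p hp => ⟨(phi_pos (hS p hp) (hs p hp g hg1) (ht p hp g hg1) _).le,
      phi_le_one (hS p hp) (hs p hp g hg1) (ht p hp g hg1) _⟩)
  have h6 : ∑ p ∈ S, |phi p (s p n) (t p n) (padicValNat p n) -
      phi p (s p g) (t p g) (padicValNat p g)| ≤ S.card * δ := by
    refine (Finset.sum_le_sum h2).trans (le_of_eq ?_)
    rw [Finset.sum_const, nsmul_eq_mul]
  calc r n * |∏ p ∈ S, phi p (s p n) (t p n) (padicValNat p n) -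
      ∏ p ∈ S, phi p (s p g) (t p g) (padicValNat p g)| ≤ C * (S.card * δ) :=
        mul_le_mul (hC n hn) (h5.trans h6) (abs_nonneg _) hC0
    _ ≤ (C + 1) * ((S.card + 1) * δ) := by
        refine mul_le_mul (by linarith) ?_ (by positivity) (by positivity)
        exact mul_le_mul_of_nonneg_right (by linarith) hδ0.le
    _ = ε := by rw [hδ]; field_simp

/-- `G n = 0` if `(s_{p,n}, t_{p,n}) = (0,0)` and `1` otherwise (extended to `n = 0`). -/
noncomputable def indG (s t : ℕ → ℕ → ℝ) (p N : ℕ) (n : ℕ) : ℝ :=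
  open Classical in if s p (Nat.gcd n N) = 0 ∧ t p (Nat.gcd n N) = 0 then 0 else 1

lemma indG_periodic (s t : ℕ → ℕ → ℝ) (p N n : ℕ) : indG s t p N (n + N) = indG s t p N n := by
  unfold indG
  rw [Nat.gcd_add_self_left]

lemma indG_01 (s t : ℕ → ℕ → ℝ) (p N n : ℕ) : indG s t p N n = 0 ∨ indG s t p N n = 1 := by
  unfold indG
  split_ifs
  · left; rfl
  · right; rfl

lemma indG_eq_one_iff {p N n : ℕ} (hs : IsGcdSeq N (s p)) (ht : IsGcdSeq N (t p)) (hn : 1 ≤ n) :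
    indG s t p N n = 1 ↔ ¬ (s p n = 0 ∧ t p n = 0) := by
  unfold indG
  rw [← hs.2 n hn, ← ht.2 n hn]
  split_ifs with h
  · simp [h]
  · simp [h]

lemma distort_dec (hS : ∀ p ∈ S, p.Prime) (hr : ∀ n : ℕ, 1 ≤ n → 0 < r n)
    (hs : ∀ p ∈ S, ∀ n : ℕ, 1 ≤ n → 0 ≤ s p n) (ht : ∀ p ∈ S, ∀ n : ℕ, 1 ≤ n → 0 ≤ t p n)
    {M : ℕ} (hrM : IsGcdSeq M r) {p N : ℕ} (hp : p ∈ S) (hsN : IsGcdSeq N (s p))
    (htN : IsGcdSeq N (t p)) {ε : ℝ} (hε : 0 < ε) :
    ∃ k : ℕ, ∀ n, 1 ≤ n → p ^ k ∣ n → indG s t p N n = 1 → distort S r s t n ≤ ε := by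
  obtain ⟨C, hC0, hC⟩ := gcdSeq_bdd hrM
  have hN : 0 < N := hsN.1
  have h1 : ∀ᶠ L : ℕ in atTop, ∀ d ∈ N.divisors, ¬ (s p d = 0 ∧ t p d = 0) → ∀ v, L ≤ v →
      phi p (s p d) (t p d) v ≤ ε / (C + 1) := by
    rw [eventually_all_finset]
    intro d hd
    have hd1 : 1 ≤ d := Nat.pos_of_mem_divisors hd
    by_cases h : s p d = 0 ∧ t p d = 0
    · exact Eventually.of_forall (fun L h' => absurd h h')
    · have h2 := (tendsto_phi_zero (hS p hp) (hs p hp d hd1) (ht p hp d hd1) h).eventually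
        (gt_mem_nhds (show 0 < ε / (C + 1) by positivity))
      rw [eventually_atTop] at h2
      obtain ⟨L₀, hL₀⟩ := h2
      filter_upwards [eventually_ge_atTop L₀] with L hL _ v hv
      exact (hL₀ v (hL.trans hv)).le
  obtain ⟨k, hk⟩ := h1.exists
  refine ⟨k, fun n hn hdvd hG => ?_⟩
  rw [indG_eq_one_iff hsN htN hn] at hG
  have h2 := distort_le_phi hS hr hs ht hn (hC n hn) hp
  have hd : Nat.gcd n N ∈ N.divisors := Nat.mem_divisors.2 ⟨Nat.gcd_dvd_right _ _, hN.ne'⟩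
  have := Fact.mk (hS p hp)
  have hv : k ≤ padicValNat p n := (padicValNat_dvd_iff_le (by omega)).1 hdvd
  rw [hsN.2 n hn, htN.2 n hn] at hG h2
  have h3 := hk _ hd hG _ hv
  have h4 := phi_pos (hS p hp) (hs p hp (Nat.gcd n N) (Nat.pos_of_mem_divisors hd))
    (ht p hp (Nat.gcd n N) (Nat.pos_of_mem_divisors hd)) (padicValNat p n)
  calc distort S r s t n ≤ C * phi p (s p (Nat.gcd n N)) (t p (Nat.gcd n N)) (padicValNat p n) := h2
    _ ≤ (C + 1) * (ε / (C + 1)) := by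
        refine mul_le_mul (by linarith) h3 h4.le (by positivity)
    _ = ε := by field_simp

end

end Pool.Agent.FAD
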