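import Pool.Agent.FAD.Defs

/-!
# The sequence `|det(A^n - 1)|`
-/

open Filter Topology

namespace Pool.Agent.FAD

open Polynomial in
lemma det_pow_sub_one {d : ℕ} (B : Matrix (Fin d) (Fin d) ℂ) {n : ℕ} (hn : 1 ≤ n) :
    (B ^ n - 1).det = (B.charpoly.roots.map (fun ξ => ξ ^ n - 1)).prod := by
  set q : ℂ[X] := X ^ n - C 1 with hq
  have hqm : q.Monic := monic_X_pow_sub_C _ (by omega)
  have hqs : q.Splits := IsAlgClosed.splits q
  have hBs : B.charpoly.Splits := IsAlgClosed.splits _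
  set φ : ℂ[X] →* ℂ := (Matrix.detMonoidHom).comp
    ((aeval B : ℂ[X] →ₐ[ℂ] Matrix (Fin d) (Fin d) ℂ) : ℂ[X] →* Matrix (Fin d) (Fin d) ℂ) with hφ
  have h1 : φ q = (B ^ n - 1).det := by
    simp [hφ, hq]
  have h2 : ∀ ω : ℂ, φ (X - C ω) = (B.charpoly.roots.map (fun ξ => ξ - ω)).prod := by
    intro ω
    have h3 : φ (X - C ω) = (B - Matrix.scalar _ ω).det := by
      simp [hφ, Matrix.algebraMap_eq_diagonal, Matrix.scalar_apply, Pi.algebraMap_def]
    have hcard : Multiset.card B.charpoly.roots = d := by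
      rw [← hBs.natDegree_eq_card_roots, Matrix.charpoly_natDegree_eq_dim, Fintype.card_fin]
    rw [h3, ← neg_sub, Matrix.det_neg, ← Matrix.eval_charpoly,
      hBs.eval_eq_prod_roots_of_monic (Matrix.charpoly_monic B), Fintype.card_fin]
    have h4 : (B.charpoly.roots.map (fun ξ => ξ - ω)).prod =
        (B.charpoly.roots.map (fun ξ => (-1) * (ω - ξ))).prod := by
      congr 1
      refine Multiset.map_congr rfl (fun ξ _ => by ring)
    rw [h4, Multiset.prod_map_mul, Multiset.map_const', Multiset.prod_replicate, hcard]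
  rw [← h1, hqs.eq_prod_roots_of_monic hqm, map_multiset_prod, Multiset.map_map]
  have h5 : (q.roots.map (φ ∘ fun x => X - C x)).prod =
      (q.roots.map (fun ω => (B.charpoly.roots.map (fun ξ => ξ - ω)).prod)).prod := by
    congr 1
    refine Multiset.map_congr rfl (fun ω _ => ?_)
    rw [Function.comp_apply, h2]
  rw [h5, Multiset.prod_map_prod_map]
  congr 1
  refine Multiset.map_congr rfl (fun ξ _ => ?_)
  rw [← hqs.eval_eq_prod_roots_of_monic hqm]
  simp [hq]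

/-- The multiset of complex eigenvalues of an integer matrix. -/
noncomputable def eigs {d : ℕ} (A : Matrix (Fin d) (Fin d) ℤ) : Multiset ℂ :=
  (A.map (Int.castRingHom ℂ)).charpoly.roots

lemma eigs_conj {d : ℕ} (A : Matrix (Fin d) (Fin d) ℤ) :
    (eigs A).map (starRingEnd ℂ) = eigs A := by
  unfold eigs
  rw [← (IsAlgClosed.splits _ :
      (A.map (Int.castRingHom ℂ)).charpoly.Splits).roots_map_of_injective
    (starRingEnd ℂ).injective]
  congr 1
  rw [← Matrix.charpoly_map]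
  congr 1
  ext i j
  simp

lemma det_int {d : ℕ} (A : Matrix (Fin d) (Fin d) ℤ) {n : ℕ} (hn : 1 ≤ n) :
    (((A ^ n - 1).det : ℤ) : ℂ) = ((eigs A).map (fun ξ => ξ ^ n - 1)).prod := by
  unfold eigs
  rw [← det_pow_sub_one _ hn]
  have h1 := (Int.castRingHom ℂ).map_det (A ^ n - 1)
  have h2 : (Int.castRingHom ℂ).mapMatrix (A ^ n - 1) =
      (A.map (Int.castRingHom ℂ)) ^ n - 1 := by
    rw [map_sub, map_pow, map_one]
    rfl
  rw [h2] at h1
  simpa using h1

lemma abs_det_int {d : ℕ} (A : Matrix (Fin d) (Fin d) ℤ) {n : ℕ} (hn : 1 ≤ n) :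
    |(((A ^ n - 1).det : ℤ) : ℝ)| = ((eigs A).map (fun ξ => ‖ξ ^ n - 1‖)).prod := by
  have h1 := congrArg norm (det_int A hn)
  have h2 : ‖((eigs A).map (fun ξ => ξ ^ n - 1)).prod‖ =
      ((eigs A).map (fun ξ => ‖ξ ^ n - 1‖)).prod := by
    have := (map_multiset_prod (normHom : ℂ →*₀ ℝ) ((eigs A).map (fun ξ => ξ ^ n - 1)))
    simpa [Multiset.map_map] using this
  rw [← h2, ← h1]
  have h3 : ((((A ^ n - 1).det : ℤ)) : ℂ) = (((((A ^ n - 1).det : ℤ)) : ℝ) : ℂ) :=
    (Complex.ofReal_intCast _).symm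
  rw [h3, Complex.norm_real, Real.norm_eq_abs]

/-- products of factors tending to `1` exponentially fast -/
lemma prod_close_to_one (t : Multiset ℂ) (ht : ∀ η ∈ t, ‖η‖ < 1) :
    ∃ C ρ : ℝ, 0 ≤ C ∧ 0 ≤ ρ ∧ ρ < 1 ∧ ∀ n : ℕ,
      |(t.map (fun η => ‖1 - η ^ n‖)).prod - 1| ≤ C * ρ ^ n := by
  induction t using Multiset.induction_on with
  | empty => exact ⟨0, 0, le_rfl, le_rfl, one_pos, fun n => by simp⟩
  | cons η t ih =>
    obtain ⟨C, ρ, hC, hρ0, hρ1, h⟩ := ih (fun ξ hξ => ht ξ (Multiset.mem_cons_of_mem hξ))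
    have hη := ht η (Multiset.mem_cons_self _ _)
    refine ⟨2 * C + 1, max ρ ‖η‖, by positivity, le_max_of_le_left hρ0, max_lt hρ1 hη,
      fun n => ?_⟩
    rw [Multiset.map_cons, Multiset.prod_cons]
    set P := (t.map (fun η => ‖1 - η ^ n‖)).prod with hP
    have h1 : |‖1 - η ^ n‖ - 1| ≤ ‖η‖ ^ n := by
      have := abs_norm_sub_norm_le (1 - η ^ n) 1
      rw [norm_one] at this
      refine this.trans (le_of_eq ?_)
      rw [show (1 : ℂ) - η ^ n - 1 = - η ^ n by ring, norm_neg, norm_pow]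
    have h2 : ‖1 - η ^ n‖ ≤ 2 := by
      refine (norm_sub_le _ _).trans ?_
      rw [norm_one, norm_pow]
      have := pow_le_one₀ (n := n) (norm_nonneg η) hη.le
      linarith
    have h3 := h n
    have h4 : ρ ^ n ≤ (max ρ ‖η‖) ^ n := pow_le_pow_left₀ hρ0 (le_max_left _ _) n
    have h5 : ‖η‖ ^ n ≤ (max ρ ‖η‖) ^ n := pow_le_pow_left₀ (norm_nonneg _) (le_max_right _ _) n
    calc |‖1 - η ^ n‖ * P - 1| = |‖1 - η ^ n‖ * (P - 1) + (‖1 - η ^ n‖ - 1)| := by
          congr 1; ring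
      _ ≤ |‖1 - η ^ n‖ * (P - 1)| + |‖1 - η ^ n‖ - 1| := abs_add_le _ _
      _ ≤ 2 * (C * ρ ^ n) + ‖η‖ ^ n := by
          refine add_le_add ?_ h1
          rw [abs_mul, abs_of_nonneg (norm_nonneg _)]
          exact mul_le_mul h2 h3 (abs_nonneg _) (by norm_num)
      _ ≤ 2 * (C * (max ρ ‖η‖) ^ n) + (max ρ ‖η‖) ^ n := by
          gcongr
      _ = (2 * C + 1) * (max ρ ‖η‖) ^ n := by ring

/-- growth rate of `|det(A^n-1)|`. -/
noncomputable def detGrowth {d : ℕ} (A : Matrix (Fin d) (Fin d) ℤ) : ℝ :=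
  (((eigs A).filter (fun ξ => 1 < ‖ξ‖)).map (fun ξ => ‖ξ‖)).prod

lemma one_le_detGrowth {d : ℕ} (A : Matrix (Fin d) (Fin d) ℤ) : 1 ≤ detGrowth A := by
  have key : ∀ t : Multiset ℂ, (∀ ξ ∈ t, 1 ≤ ‖ξ‖) → 1 ≤ (t.map (fun ξ => ‖ξ‖)).prod := by
    intro t
    induction t using Multiset.induction_on with
    | empty => intro _; simp
    | cons ξ t ih =>
      intro h
      rw [Multiset.map_cons, Multiset.prod_cons]
      exact one_le_mul_of_one_le_of_one_le (h ξ (Multiset.mem_cons_self _ _))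
        (ih (fun η hη => h η (Multiset.mem_cons_of_mem hη)))
  exact key _ (fun ξ hξ => (Multiset.mem_filter.1 hξ).2.le)

/-- The unimodular part: `∏_{|ξ| = 1} (1 - ξ^n)`. -/
noncomputable def unimod {d : ℕ} (A : Matrix (Fin d) (Fin d) ℤ) (n : ℕ) : ℂ :=
  (((eigs A).filter (fun ξ => ‖ξ‖ = 1)).map (fun ξ => 1 - ξ ^ n)).prod

lemma multiset_norm_prod {α : Type*} (s : Multiset α) (f : α → ℂ) :
    ‖(s.map f).prod‖ = (s.map (fun a => ‖f a‖)).prod := by
  have := (map_multiset_prod (normHom : ℂ →*₀ ℝ) (s.map f))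
  simpa [Multiset.map_map] using this

lemma norm_unimod_le {d : ℕ} (A : Matrix (Fin d) (Fin d) ℤ) :
    ∃ K : ℝ, 0 ≤ K ∧ ∀ n, ‖unimod A n‖ ≤ K := by
  unfold unimod
  generalize hs : (eigs A).filter (fun ξ => ‖ξ‖ = 1) = s
  have hs1 : ∀ ξ ∈ s, ‖ξ‖ = 1 := fun ξ hξ => by
    rw [← hs] at hξ; exact (Multiset.mem_filter.1 hξ).2
  clear hs
  induction s using Multiset.induction_on with
  | empty => exact ⟨1, zero_le_one, fun n => by simp⟩
  | cons ξ s ih =>
    obtain ⟨K, hK0, hK⟩ := ih (fun η hη => hs1 η (Multiset.mem_cons_of_mem hη))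
    refine ⟨2 * K, by positivity, fun n => ?_⟩
    rw [Multiset.map_cons, Multiset.prod_cons, norm_mul]
    refine mul_le_mul ?_ (hK n) (norm_nonneg _) (by norm_num)
    refine (norm_sub_le _ _).trans ?_
    rw [norm_one, norm_pow, hs1 ξ (Multiset.mem_cons_self _ _), one_pow]
    norm_num

/-- main asymptotics -/
lemma abs_det_asymp {d : ℕ} (A : Matrix (Fin d) (Fin d) ℤ) :
    ∃ C ρ : ℝ, 0 ≤ C ∧ 0 ≤ ρ ∧ ρ < 1 ∧ ∀ n : ℕ, 1 ≤ n →
      |(|(((A ^ n - 1).det : ℤ) : ℝ)| / detGrowth A ^ n) - ‖unimod A n‖| ≤ C * ρ ^ n := by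
  set s := eigs A with hs
  set sb := s.filter (fun ξ => 1 < ‖ξ‖) with hsb
  set s1 := s.filter (fun ξ => ‖ξ‖ = 1) with hs1
  set sm := s.filter (fun ξ => ‖ξ‖ < 1) with hsm
  obtain ⟨C1, ρ1, hC1, hρ10, hρ11, h1⟩ := prod_close_to_one (sb.map (fun ξ => ξ⁻¹) + sm) (by
    intro η hη
    rcases Multiset.mem_add.1 hη with h | h
    · obtain ⟨ξ, hξ, rfl⟩ := Multiset.mem_map.1 h
      rw [norm_inv]
      exact inv_lt_one_of_one_lt₀ (Multiset.mem_filter.1 hξ).2
    · exact (Multiset.mem_filter.1 h).2)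
  obtain ⟨K, hK0, hK⟩ := norm_unimod_le A
  refine ⟨K * C1, ρ1, by positivity, hρ10, hρ11, fun n hn => ?_⟩
  have hsplit : s = sb + (s1 + sm) := by
    have h2 : s.filter (fun ξ => ¬ 1 < ‖ξ‖) = s1 + sm := by
      have h3 : s.filter (fun ξ => ¬ 1 < ‖ξ‖) = s.filter (fun ξ => ‖ξ‖ = 1 ∨ ‖ξ‖ < 1) := by
        refine Multiset.filter_congr (fun ξ _ => ?_)
        rw [not_lt, le_iff_lt_or_eq, or_comm]
      rw [h3, hs1, hsm]
      have h4 := Multiset.filter_add_filter (fun ξ : ℂ => ‖ξ‖ = 1) (fun ξ : ℂ => ‖ξ‖ < 1) s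
      rw [h4]
      have h5 : s.filter (fun ξ => ‖ξ‖ = 1 ∧ ‖ξ‖ < 1) = 0 := by
        rw [Multiset.filter_eq_nil]
        rintro ξ _ ⟨h6, h7⟩
        linarith
      rw [h5, add_zero]
    rw [← h2, hsb, Multiset.filter_add_not]
  have hpos : 0 < detGrowth A := lt_of_lt_of_le one_pos (one_le_detGrowth A)
  have hdet : |(((A ^ n - 1).det : ℤ) : ℝ)| = detGrowth A ^ n *
      (‖unimod A n‖ * ((sb.map (fun ξ => ξ⁻¹) + sm).map (fun η => ‖1 - η ^ n‖)).prod) := by
    rw [abs_det_int A hn, ← hs, hsplit, Multiset.map_add, Multiset.prod_add, Multiset.map_add,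
      Multiset.prod_add, Multiset.map_add, Multiset.prod_add, Multiset.map_map]
    have h6 : (sb.map (fun ξ => ‖ξ ^ n - 1‖)).prod = detGrowth A ^ n *
        (sb.map ((fun η => ‖1 - η ^ n‖) ∘ fun ξ => ξ⁻¹)).prod := by
      unfold detGrowth
      rw [← hs, ← hsb, ← Multiset.prod_map_pow, ← Multiset.prod_map_mul]
      congr 1
      refine Multiset.map_congr rfl (fun ξ hξ => ?_)
      have hξ1 : 1 < ‖ξ‖ := (Multiset.mem_filter.1 hξ).2
      have hξ0 : ξ ≠ 0 := by
        intro h; rw [h, norm_zero] at hξ1; linarith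
      rw [Function.comp_apply, ← norm_pow, ← norm_mul]
      congr 1
      rw [inv_pow, mul_sub, mul_one, mul_inv_cancel₀ (pow_ne_zero _ hξ0)]
    have h7 : (s1.map (fun ξ => ‖ξ ^ n - 1‖)).prod = ‖unimod A n‖ := by
      unfold unimod
      rw [multiset_norm_prod]
      congr 1
      refine Multiset.map_congr rfl (fun ξ _ => ?_)
      exact norm_sub_rev _ _
    have h8 : (sm.map (fun ξ => ‖ξ ^ n - 1‖)).prod = (sm.map (fun ξ => ‖1 - ξ ^ n‖)).prod := by
      congr 1
      refine Multiset.map_congr rfl (fun ξ _ => ?_)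
      exact norm_sub_rev _ _
    rw [h6, h7, h8]; ring
  rw [hdet, mul_div_assoc, mul_comm, div_mul_eq_mul_div, div_eq_mul_inv]
  set P := ((sb.map (fun ξ => ξ⁻¹) + sm).map (fun η => ‖1 - η ^ n‖)).prod with hP
  have h9 : ‖unimod A n‖ * P * detGrowth A ^ n * (detGrowth A ^ n)⁻¹ - ‖unimod A n‖ =
      ‖unimod A n‖ * (P - 1) := by
    field_simp
  rw [h9, abs_mul, abs_of_nonneg (norm_nonneg _), mul_assoc]
  exact mul_le_mul (hK n) (h1 n) (abs_nonneg _) hK0

/-- If `±1` are not eigenvalues then the unimodular part is a nonnegative real. -/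
lemma unimod_eq_norm {d : ℕ} (A : Matrix (Fin d) (Fin d) ℤ)
    (h1 : (1 : ℂ) ∉ eigs A) (h2 : (-1 : ℂ) ∉ eigs A) (n : ℕ) :
    unimod A n = (‖unimod A n‖ : ℂ) := by
  set s := eigs A with hs
  set s1 := s.filter (fun ξ => ‖ξ‖ = 1) with hs1
  set sp := s1.filter (fun ξ => 0 < ξ.im) with hsp
  have hconj : (s1.filter (fun ξ => ¬ 0 < ξ.im)) = sp.map (starRingEnd ℂ) := by
    have h3 : s1.filter (fun ξ => ¬ 0 < ξ.im) = s1.filter (fun ξ => ξ.im < 0) := by
      refine Multiset.filter_congr (fun ξ hξ => ?_)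
      rw [not_lt, le_iff_lt_or_eq]
      constructor
      · rintro (h | h)
        · exact h
        · exfalso
          obtain ⟨hξs, hξn⟩ := Multiset.mem_filter.1 hξ
          have h4 : ξ = (ξ.re : ℂ) := by
            apply Complex.ext <;> simp [h]
          rw [h4, Complex.norm_real, Real.norm_eq_abs] at hξn
          rcases (abs_eq zero_le_one).1 hξn with h5 | h5
          · rw [h4, h5] at hξs
            exact h1 (by simpa using hξs)
          · rw [h4, h5] at hξs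
            exact h2 (by simpa using hξs)
      · intro h; exact Or.inl h
    have h4 : s1.map (starRingEnd ℂ) = s1 := by
      rw [hs1]
      conv_rhs => rw [hs, ← eigs_conj A, ← hs]
      rw [Multiset.filter_map]
      congr 1
      refine Multiset.filter_congr (fun ξ _ => ?_)
      simp
    rw [h3]
    conv_lhs => rw [← h4]
    rw [Multiset.filter_map, hsp]
    congr 1
    refine Multiset.filter_congr (fun ξ _ => ?_)
    simp
  have h5 : unimod A n = (sp.map (fun ξ => 1 - ξ ^ n)).prod *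
      (starRingEnd ℂ) ((sp.map (fun ξ => 1 - ξ ^ n)).prod) := by
    unfold unimod
    rw [← hs, ← hs1]
    conv_lhs => rw [← Multiset.filter_add_not (fun ξ : ℂ => 0 < ξ.im) s1]
    rw [Multiset.map_add, Multiset.prod_add, hconj, ← hsp, map_multiset_prod, Multiset.map_map,
      Multiset.map_map]
    congr 2
    refine Multiset.map_congr rfl (fun ξ _ => ?_)
    simp
  rw [h5, norm_mul, RCLike.norm_conj, Complex.mul_conj, Complex.normSq_eq_norm_sq]
  push_cast; ring

end Pool.Agent.FAD
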