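import Pool.Agent.FAD.Defs

/-!
# The formal exponential of a power series converges to the exponential of the sum
-/

open Filter Topology

namespace Pool.Agent.FAD

open PowerSeries in
lemma pow_summable (G : PowerSeries ℂ) (z : ℂ)
    (hG : Summable fun n => ‖coeff n G * z ^ n‖) (k : ℕ) :
    (Summable fun n => ‖coeff n (G ^ k) * z ^ n‖) ∧
      (∑' n, coeff n (G ^ k) * z ^ n = (∑' n, coeff n G * z ^ n) ^ k) ∧
      (∑' n, ‖coeff n (G ^ k) * z ^ n‖ ≤ (∑' n, ‖coeff n G * z ^ n‖) ^ k) := by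
  induction k with
  | zero =>
    have h1 : ∀ n, n ∉ ({0} : Finset ℕ) → coeff n (G ^ 0) * z ^ n = 0 := by
      intro n hn
      rw [Finset.mem_singleton] at hn
      rw [pow_zero, coeff_one, if_neg hn, zero_mul]
    have h2 : ∀ n, n ∉ ({0} : Finset ℕ) → ‖coeff n (G ^ 0) * z ^ n‖ = 0 := by
      intro n hn
      rw [h1 n hn, norm_zero]
    refine ⟨summable_of_ne_finset_zero h2, ?_, ?_⟩
    · rw [tsum_eq_sum h1]; simp
    · rw [tsum_eq_sum h2]; simp
  | succ k ih =>
    obtain ⟨ih1, ih2, ih3⟩ := ih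
    have hcoef : ∀ n, coeff n (G ^ (k + 1)) * z ^ n =
        ∑ q ∈ Finset.HasAntidiagonal.antidiagonal n, (coeff q.1 (G ^ k) * z ^ q.1) * (coeff q.2 G * z ^ q.2) := by
      intro n
      rw [pow_succ, coeff_mul, Finset.sum_mul]
      refine Finset.sum_congr rfl (fun q hq => ?_)
      rw [← Finset.HasAntidiagonal.mem_antidiagonal.1 hq, pow_add]; ring
    refine ⟨?_, ?_, ?_⟩
    · simp_rw [hcoef]
      exact summable_norm_sum_mul_antidiagonal_of_summable_norm
        (f := fun n => coeff n (G ^ k) * z ^ n) (g := fun n => coeff n G * z ^ n) ih1 hG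
    · simp_rw [hcoef]
      have h0 := tsum_mul_tsum_eq_tsum_sum_antidiagonal_of_summable_norm
        (f := fun n => coeff n (G ^ k) * z ^ n) (g := fun n => coeff n G * z ^ n) ih1 hG
      rw [← h0, ih2, pow_succ]
    · have h3 : (∑' n, ‖coeff n (G ^ k) * z ^ n‖) * (∑' n, ‖coeff n G * z ^ n‖) =
          ∑' n, ∑ q ∈ Finset.HasAntidiagonal.antidiagonal n,
            ‖coeff q.1 (G ^ k) * z ^ q.1‖ * ‖coeff q.2 G * z ^ q.2‖ := by
        exact tsum_mul_tsum_eq_tsum_sum_antidiagonal_of_summable_norm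
          (f := fun n => ‖coeff n (G ^ k) * z ^ n‖) (g := fun n => ‖coeff n G * z ^ n‖)
          ih1.norm hG.norm
      have h4 : Summable fun n => ∑ q ∈ Finset.HasAntidiagonal.antidiagonal n,
            ‖coeff q.1 (G ^ k) * z ^ q.1‖ * ‖coeff q.2 G * z ^ q.2‖ := by
        have := summable_norm_sum_mul_antidiagonal_of_summable_norm
          (f := fun n => ‖coeff n (G ^ k) * z ^ n‖) (g := fun n => ‖coeff n G * z ^ n‖)
          ih1.norm hG.norm
        refine this.congr (fun n => ?_)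
        rw [Real.norm_of_nonneg]
        exact Finset.sum_nonneg (fun q _ => mul_nonneg (norm_nonneg _) (norm_nonneg _))
      have h5 : ∀ n, ‖coeff n (G ^ (k + 1)) * z ^ n‖ ≤ ∑ q ∈ Finset.HasAntidiagonal.antidiagonal n,
            ‖coeff q.1 (G ^ k) * z ^ q.1‖ * ‖coeff q.2 G * z ^ q.2‖ := by
        intro n
        rw [hcoef]
        refine (norm_sum_le _ _).trans (Finset.sum_le_sum (fun q _ => ?_))
        rw [norm_mul]
      calc ∑' n, ‖coeff n (G ^ (k + 1)) * z ^ n‖
          ≤ ∑' n, ∑ q ∈ Finset.HasAntidiagonal.antidiagonal n,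
            ‖coeff q.1 (G ^ k) * z ^ q.1‖ * ‖coeff q.2 G * z ^ q.2‖ :=
            Summable.tsum_le_tsum h5 (Summable.of_nonneg_of_le (fun n => norm_nonneg _) h5 h4) h4
        _ = (∑' n, ‖coeff n (G ^ k) * z ^ n‖) * (∑' n, ‖coeff n G * z ^ n‖) := h3.symm
        _ ≤ (∑' n, ‖coeff n G * z ^ n‖) ^ k * (∑' n, ‖coeff n G * z ^ n‖) :=
            mul_le_mul_of_nonneg_right ih3 (tsum_nonneg (fun n => norm_nonneg _))
        _ = (∑' n, ‖coeff n G * z ^ n‖) ^ (k + 1) := (pow_succ _ _).symm

open PowerSeries in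
/-- The formal series `exp(G)` sums to `exp` of the sum of `G`, wherever `G` converges
absolutely. -/
theorem hasSum_exp_subst (G : PowerSeries ℂ) (hG0 : constantCoeff G = 0) (z : ℂ)
    (hG : Summable fun n => ‖coeff n G * z ^ n‖) :
    HasSum (fun n => coeff n ((PowerSeries.exp ℂ).subst G) * z ^ n)
      (Complex.exp (∑' n, coeff n G * z ^ n)) := by
  set s := ∑' n, ‖coeff n G * z ^ n‖ with hs
  have hsub : HasSubst G := HasSubst.of_constantCoeff_zero' hG0
  set F : ℕ × ℕ → ℂ := fun q => (1 / (q.1.factorial : ℂ)) * (coeff q.2 (G ^ q.1) * z ^ q.2)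
    with hF
  have hrow : ∀ k, Summable fun n => ‖F (k, n)‖ := by
    intro k
    simp only [hF, norm_mul (1 / (_ : ℂ))]
    exact (pow_summable G z hG k).1.mul_left _
  have hrowsum : Summable fun k => ∑' n, ‖F (k, n)‖ := by
    have hexp : Summable fun k : ℕ => s ^ k / k.factorial := Real.summable_pow_div_factorial s
    refine Summable.of_nonneg_of_le (fun k => tsum_nonneg (fun n => norm_nonneg _)) ?_ hexp
    intro k
    simp only [hF, norm_mul (1 / (_ : ℂ))]
    rw [tsum_mul_left]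
    have h1 := (pow_summable G z hG k).2.2
    have h2 : ‖(1 / (k.factorial : ℂ))‖ = 1 / k.factorial := by
      rw [norm_div, norm_one, Complex.norm_natCast]
    rw [h2, div_mul_eq_mul_div, one_mul]
    exact div_le_div_of_nonneg_right h1 (by positivity)
  have hFs : Summable fun q => ‖F q‖ :=
    (summable_prod_of_nonneg (fun q => norm_nonneg _)).2 ⟨hrow, hrowsum⟩
  have hFs' : Summable F := hFs.of_norm
  have h1 : ∑' q, F q = Complex.exp (∑' n, coeff n G * z ^ n) := by
    rw [hFs'.tsum_prod, Complex.exp_eq_exp_ℂ, NormedSpace.exp_eq_tsum_div]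
    refine tsum_congr (fun k => ?_)
    simp only [hF]
    rw [tsum_mul_left, (pow_summable G z hG k).2.1]
    ring
  have hcol : ∀ n, ∑' k, F (k, n) = coeff n ((PowerSeries.exp ℂ).subst G) * z ^ n := by
    intro n
    rw [coeff_subst' hsub]
    have hfin := coeff_subst_finite' hsub (PowerSeries.exp ℂ) n
    have h2 : ∀ k, F (k, n) = (coeff k (PowerSeries.exp ℂ) • coeff n (G ^ k)) * z ^ n := by
      intro k
      simp only [hF, coeff_exp, smul_eq_mul, eq_ratCast, Rat.cast_div, Rat.cast_one,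
        Rat.cast_natCast]
      ring
    simp_rw [h2]
    rw [tsum_mul_right, tsum_eq_finsum hfin]
  have hswap : Summable fun q : ℕ × ℕ => F q.swap := hFs'.prod_symm
  have h3 : HasSum (fun n => ∑' k, F (k, n)) (∑' q : ℕ × ℕ, F q.swap) := by
    have := hswap.hasSum.prod_fiberwise (fun n => (hswap.prod_factor n).hasSum)
    simpa using this
  have h4 : ∑' q : ℕ × ℕ, F q.swap = ∑' q, F q := (Equiv.prodComm ℕ ℕ).tsum_eq F
  rw [h4, h1] at h3
  simpa only [hcol] using h3

end Pool.Agent.FAD
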