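import Pool.Agent.FAD.RootRational
import Pool.Agent.FAD.Distortion
import Pool.Agent.FAD.Boundary

/-!
# Natural boundaries for FAD-systems: final assembly
-/

open Filter Topology

namespace Pool.Agent.FAD

lemma gm_eq_zero_of_decay {y : ℕ → ℂ} {C ρ : ℝ} (hb : BddSeq y) (hρ0 : 0 ≤ ρ)
    (hρ1 : ρ < 1) (h : ∀ᶠ n in atTop, ‖y n‖ ≤ C * ρ ^ n) : gm y = 0 := by
  rw [← norm_le_zero_iff]
  refine le_of_forall_pos_le_add (fun ε hε => ?_)
  have h1 : Tendsto (fun n : ℕ => C * ρ ^ n) atTop (𝓝 (C * 0)) :=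
    (tendsto_pow_atTop_nhds_zero_of_lt_one hρ0 hρ1).const_mul C
  rw [mul_zero] at h1
  obtain ⟨m, hm⟩ := eventually_atTop.1 (h.and (h1.eventually (gt_mem_nhds hε)))
  rw [← gm_shift_nat hb m, zero_add]
  refine norm_gm_le (fun n => ?_)
  have h2 := hm (n + m) (by omega)
  exact h2.1.trans h2.2.le

lemma growth_eq {X : Type*} {f : X → X} {Λ C : ℝ} (hΛ : 0 < Λ)
    (hf1 : ∀ n : ℕ, 1 ≤ n → 1 ≤ fixCount f n)
    (hup : ∀ n : ℕ, 1 ≤ n → (fixCount f n : ℝ) ≤ C * Λ ^ n)
    (hne : ∃ ζ : ℂ, ‖ζ‖ = 1 ∧ gm (fun n => ((fixCount f n : ℂ) / (Λ : ℂ) ^ n) * ζ ^ n) ≠ 0) :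
    growth f = Λ := by
  have hC : 0 < C := by
    have h1 := hup 1 le_rfl
    have h2 : (1 : ℝ) ≤ fixCount f 1 := by exact_mod_cast hf1 1 le_rfl
    rw [pow_one] at h1
    by_contra hC
    push Not at hC
    nlinarith
  set u : ℕ → ℝ := fun n => Real.log (fixCount f n) / (n : ℝ) with hu
  have hu0 : ∀ n, 0 ≤ u n := by
    intro n
    rcases Nat.eq_zero_or_pos n with h | h
    · subst h; simp [hu]
    · have : (1 : ℝ) ≤ fixCount f n := by exact_mod_cast hf1 n h
      exact div_nonneg (Real.log_nonneg this) (by positivity)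
  have hupper : ∀ n : ℕ, 1 ≤ n → u n ≤ Real.log Λ + Real.log C / n := by
    intro n hn
    have hnR : (0 : ℝ) < n := by exact_mod_cast hn
    have h1 : (1 : ℝ) ≤ fixCount f n := by exact_mod_cast hf1 n hn
    have h2 : Real.log (fixCount f n) ≤ Real.log (C * Λ ^ n) :=
      Real.log_le_log (by linarith) (hup n hn)
    rw [Real.log_mul hC.ne' (by positivity), Real.log_pow] at h2
    simp only [hu]
    rw [div_le_iff₀ hnR, add_mul, div_mul_cancel₀ _ hnR.ne']
    linarith
  have hcob : IsCoboundedUnder (· ≤ ·) atTop u := isCoboundedUnder_le_of_le atTop hu0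
  have hlimC : Tendsto (fun n : ℕ => Real.log Λ + Real.log C / (n : ℝ)) atTop
      (𝓝 (Real.log Λ + 0)) :=
    tendsto_const_nhds.add (tendsto_const_nhds.div_atTop tendsto_natCast_atTop_atTop)
  rw [add_zero] at hlimC
  have hbdd : IsBoundedUnder (· ≤ ·) atTop u := by
    refine ⟨Real.log Λ + 1, ?_⟩
    rw [eventually_map]
    filter_upwards [hlimC.eventually (gt_mem_nhds (show Real.log Λ < Real.log Λ + 1 by linarith)),
      eventually_ge_atTop 1] with n hn hn1
    exact (hupper n hn1).trans hn.le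
  have hlim : limsup u atTop = Real.log Λ := by
    apply le_antisymm
    · refine le_of_forall_pos_le_add (fun ε hε => ?_)
      refine limsup_le_of_le hcob ?_
      filter_upwards [hlimC.eventually (gt_mem_nhds (show Real.log Λ < Real.log Λ + ε by linarith)),
        eventually_ge_atTop 1] with n hn hn1
      exact (hupper n hn1).trans hn.le
    · by_contra hcon
      push Not at hcon
      obtain ⟨b, hb1, hb2⟩ := exists_between hcon
      have hev := eventually_lt_of_limsup_lt hb1 hbdd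
      obtain ⟨ζ, hζ, hζne⟩ := hne
      apply hζne
      have hρ1 : Real.exp b / Λ < 1 := by
        rw [div_lt_one hΛ, ← Real.exp_log hΛ]
        exact Real.exp_lt_exp.2 hb2
      have hbs : BddSeq (fun n => ((fixCount f n : ℂ) / (Λ : ℂ) ^ n) * ζ ^ n) := by
        refine ⟨max C (fixCount f 0), fun n => ?_⟩
        rw [norm_mul, norm_pow, hζ, one_pow, mul_one, norm_div, norm_pow, Complex.norm_real,
          Real.norm_of_nonneg hΛ.le, Complex.norm_natCast]
        rcases Nat.eq_zero_or_pos n with h | h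
        · subst h; simp
        · rw [div_le_iff₀ (by positivity)]
          exact (hup n h).trans (mul_le_mul_of_nonneg_right (le_max_left _ _) (by positivity))
      refine gm_eq_zero_of_decay (C := 1) (ρ := Real.exp b / Λ) hbs (by positivity)
        hρ1 ?_
      filter_upwards [hev, eventually_ge_atTop 1] with n hn hn1
      have hnR : (0 : ℝ) < n := by exact_mod_cast hn1
      have h1 : (1 : ℝ) ≤ fixCount f n := by exact_mod_cast hf1 n hn1
      rw [norm_mul, norm_pow, hζ, one_pow, mul_one, norm_div, norm_pow, Complex.norm_real,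
          Real.norm_of_nonneg hΛ.le, Complex.norm_natCast, one_mul, div_pow]
      refine div_le_div_of_nonneg_right ?_ (by positivity)
      simp only [hu] at hn
      rw [div_lt_iff₀ hnR] at hn
      rw [← Real.exp_nat_mul, ← Real.exp_log (show (0 : ℝ) < fixCount f n by linarith)]
      exact Real.exp_le_exp.2 (by linarith)
  unfold growth
  rw [hlim, Real.exp_log hΛ]

lemma eigs_root_of_unity {d : ℕ} {A : Matrix (Fin d) (Fin d) ℤ} {ξ : ℂ} (hξ : ξ ∈ eigs A)
    {n : ℕ} (hn : 1 ≤ n) (h : ξ ^ n = 1) : (A ^ n - 1).det = 0 := by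
  have h1 := det_int A hn
  have h2 : ((eigs A).map (fun ξ => ξ ^ n - 1)).prod = 0 := by
    apply Multiset.prod_eq_zero
    rw [Multiset.mem_map]
    exact ⟨ξ, hξ, by rw [h, sub_self]⟩
  rw [h2] at h1
  exact_mod_cast h1

lemma exists_root_of_det_zero {d : ℕ} {A : Matrix (Fin d) (Fin d) ℤ}
    {n : ℕ} (hn : 1 ≤ n) (h : (A ^ n - 1).det = 0) : ∃ ξ ∈ eigs A, ξ ^ n = 1 := by
  have h1 := det_int A hn
  rw [h, Int.cast_zero] at h1
  have h2 := Multiset.prod_eq_zero_iff.1 h1.symm
  obtain ⟨ξ, hξ, hξ1⟩ := Multiset.mem_map.1 h2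
  exact ⟨ξ, hξ, sub_eq_zero.1 hξ1⟩

/-- **Main theorem.** -/
theorem naturalBoundary_of_FAD {X : Type*} (f : X → X) (hf : IsFAD f)
    (hnr : ¬ IsRootRational (zeta f)) : HasNaturalBoundary (zeta f) (1 / growth f) := by
  obtain ⟨hsys, d, A, S, c, r, s, t, hS, hc, hr, ⟨Nr, hNr⟩, hst, hform⟩ := hf
  have hs : ∀ p ∈ S, ∀ n : ℕ, 1 ≤ n → 0 ≤ s p n := fun p hp => (hst p hp).1
  have ht : ∀ p ∈ S, ∀ n : ℕ, 1 ≤ n → 0 ≤ t p n := fun p hp => (hst p hp).2.1
  -- rewrite the formula
  have hform' : ∀ n : ℕ, 1 ≤ n → (fixCount f n : ℝ) =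
      |(((A ^ n - 1).det : ℤ) : ℝ)| * c ^ n * distort S r s t n := by
    intro n hn
    rw [hform n hn, distort, mul_assoc _ (r n)]
    congr 2
    exact Finset.prod_congr rfl (fun p hp => factor_eq_phi (hS p hp) _ _ hn)
  have hDpos : ∀ n : ℕ, 1 ≤ n → 0 < distort S r s t n := fun n hn => distort_pos hS hr hs ht hn
  by_cases hf0 : fixCount f 1 = 0
  · -- degenerate case: no periodic points
    exfalso
    apply hnr
    have hdet1 : (A ^ 1 - 1).det = 0 := by
      have h1 := hform' 1 le_rfl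
      rw [hf0, Nat.cast_zero] at h1
      have h2 : c ^ 1 * distort S r s t 1 ≠ 0 := (mul_pos (pow_pos hc 1) (hDpos 1 le_rfl)).ne'
      rw [mul_assoc] at h1
      rcases mul_eq_zero.1 h1.symm with h3 | h3
      · rw [abs_eq_zero] at h3
        exact_mod_cast h3
      · exact absurd h3 h2
    obtain ⟨ξ, hξ, hξ1⟩ := exists_root_of_det_zero le_rfl hdet1
    have hall : ∀ n : ℕ, 1 ≤ n → fixCount f n = 0 := by
      intro n hn
      have h1 := hform' n hn
      rw [eigs_root_of_unity hξ hn (by rw [pow_one] at hξ1; rw [hξ1, one_pow])] at h1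
      simp at h1
      exact_mod_cast h1
    have hlog : logZeta f = 0 := by
      ext n
      rw [logZeta, PowerSeries.coeff_mk, map_zero]
      split_ifs with h
      · rfl
      · rw [hall n (Nat.one_le_iff_ne_zero.2 h)]; simp
    have : zeta f = 1 := by
      have h1 : zeta f = fexp (logZeta f) := rfl
      rw [h1, hlog, fexp_zero]
    rw [this]
    exact isRootRational_one
  · -- main case
    have hfge : ∀ n : ℕ, 1 ≤ n → 1 ≤ fixCount f n := fun n hn => by
      have := fixCount_one_le hsys hn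
      omega
    have hdetne : ∀ n : ℕ, 1 ≤ n → (A ^ n - 1).det ≠ 0 := by
      intro n hn h0
      have h1 := hform' n hn
      rw [h0] at h1
      simp at h1
      have := hfge n hn
      rw [h1] at this
      omega
    have hnoroot : ∀ ξ ∈ eigs A, ∀ n : ℕ, 1 ≤ n → ξ ^ n ≠ 1 := fun ξ hξ n hn h =>
      hdetne n hn (eigs_root_of_unity hξ hn h)
    have he1 : (1 : ℂ) ∉ eigs A := fun h => hnoroot 1 h 1 le_rfl (by simp)
    have he2 : (-1 : ℂ) ∉ eigs A := fun h => hnoroot (-1) h 2 (by norm_num) (by norm_num)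
    by_cases hcase : ∀ p ∈ S, ∀ n : ℕ, 1 ≤ n → s p n = 0 ∧ t p n = 0
    · -- undistorted case
      exfalso
      apply hnr
      refine rootRational_of_undistorted hsys A hc hr hNr he1 he2 hf0 (fun n hn => ?_)
      rw [hform' n hn, distort]
      rw [Finset.prod_eq_one, mul_one]
      intro p hp
      exact phi_zero_zero (hS p hp) (hs p hp n hn) (ht p hp n hn) _ (hcase p hp n hn)
    · push Not at hcase
      obtain ⟨p, hp, n₀, hn₀, hst0⟩ := hcase
      have hst0' : ¬ (s p n₀ = 0 ∧ t p n₀ = 0) := fun h => hst0 h.1 h.2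
      -- trigonometric polynomial
      have htrig : IsTrig (unimod A) := by
        have := IsTrig.multiset_prod ((eigs A).filter (fun ξ => ‖ξ‖ = 1))
          (fun ξ hξ => (Multiset.mem_filter.1 hξ).2)
        exact this
      obtain ⟨F, a, hF, hx⟩ := htrig
      -- moduli
      have hNs : ∀ q : ℕ, ∃ N, q ∈ S → Nat.Coprime N q ∧ IsGcdSeq N (s q) := by
        intro q
        by_cases hq : q ∈ S
        · obtain ⟨N, hN⟩ := (hst q hq).2.2.1
          exact ⟨N, fun _ => hN⟩
        · exact ⟨0, fun h => absurd h hq⟩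
      have hNt : ∀ q : ℕ, ∃ N, q ∈ S → Nat.Coprime N q ∧ IsGcdSeq N (t q) := by
        intro q
        by_cases hq : q ∈ S
        · obtain ⟨N, hN⟩ := (hst q hq).2.2.2
          exact ⟨N, fun _ => hN⟩
        · exact ⟨0, fun h => absurd h hq⟩
      choose Ns hNs using hNs
      choose Nt hNt using hNt
      obtain ⟨g, hg⟩ : ∃ g : ℂ × ℂ → ℕ, ∀ u v, g (u, v) = max 1 (orderOf (u / v)) :=
        ⟨fun uv => max 1 (orderOf (uv.1 / uv.2)), fun _ _ => rfl⟩
      set M : ℕ := Nr * (∏ q ∈ S, q * (Ns q * Nt q)) * (∏ uv ∈ F ×ˢ F, g uv) with hM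
      have hNr0 : 0 < Nr := hNr.1
      have hprod1 : 0 < ∏ q ∈ S, q * (Ns q * Nt q) := by
        refine Nat.pos_of_ne_zero (Finset.prod_ne_zero_iff.2 (fun q hq => ?_))
        have h1 := (hS q hq).pos
        have h2 : 0 < Ns q := ((hNs q hq).2).1
        have h3 : 0 < Nt q := ((hNt q hq).2).1
        positivity
      have hprod2 : 0 < ∏ uv ∈ F ×ˢ F, g uv := by
        refine Nat.pos_of_ne_zero (Finset.prod_ne_zero_iff.2 ?_)
        rintro ⟨u, v⟩ _
        rw [hg]
        exact (lt_max_of_lt_left one_pos).ne'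
      have hM0 : 0 < M := by
        rw [hM]; positivity
      have hqM : ∀ q ∈ S, q * (Ns q * Nt q) ∣ M := by
        intro q hq
        have h1 : q * (Ns q * Nt q) ∣ ∏ q ∈ S, q * (Ns q * Nt q) :=
          Finset.dvd_prod_of_mem (fun q => q * (Ns q * Nt q)) hq
        exact (h1.trans (Dvd.intro_left Nr rfl)).trans (Dvd.intro _ rfl)
      have hNrM : Nr ∣ M := (Dvd.intro _ rfl : Nr ∣ Nr * (∏ q ∈ S, q * (Ns q * Nt q))).trans
        (Dvd.intro _ rfl)
      have hrM : IsGcdSeq M r := hNr.of_dvd hNrM hM0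
      have hsM : ∀ q ∈ S, IsGcdSeq M (s q) := fun q hq =>
        ((hNs q hq).2).of_dvd ((Dvd.intro (q * Nt q) (by ring) :
          Ns q ∣ q * (Ns q * Nt q)).trans (hqM q hq)) hM0
      have htM : ∀ q ∈ S, IsGcdSeq M (t q) := fun q hq =>
        ((hNt q hq).2).of_dvd ((Dvd.intro (q * Ns q) (by ring) :
          Nt q ∣ q * (Ns q * Nt q)).trans (hqM q hq)) hM0
      have hSM : ∀ q ∈ S, q ∣ M := fun q hq => (Dvd.intro _ rfl : q ∣ q * (Ns q * Nt q)).trans
        (hqM q hq)
      have htor : ∀ u ∈ F, ∀ v ∈ F, (∃ m : ℕ, 0 < m ∧ (u / v) ^ m = 1) → (u / v) ^ M = 1 := by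
        intro u hu v hv hm
        have h1 : 0 < orderOf (u / v) := by
          obtain ⟨m, hm0, hm1⟩ := hm
          exact orderOf_pos_iff.2 (isOfFinOrder_iff_pow_eq_one.2 ⟨m, hm0, hm1⟩)
        have h2 : max 1 (orderOf (u / v)) = orderOf (u / v) := max_eq_right h1
        have h3 : orderOf (u / v) ∣ M := by
          have h4 : g (u, v) ∣ ∏ uv ∈ F ×ˢ F, g uv :=
            Finset.dvd_prod_of_mem g (Finset.mem_product.2 ⟨hu, hv⟩)
          rw [hg, h2] at h4
          refine h4.trans ?_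
          rw [hM]
          exact dvd_mul_left _ _
        exact orderOf_dvd_iff_pow_eq_one.1 h3
      set N : ℕ := Ns p * Nt p with hN
      have hN0 : 0 < N := Nat.mul_pos ((hNs p hp).2).1 ((hNt p hp).2).1
      have hNM : N ∣ M := (Dvd.intro_left p rfl : N ∣ p * N).trans (hqM p hp)
      have hsN : IsGcdSeq N (s p) := ((hNs p hp).2).of_dvd (Dvd.intro _ rfl) hN0
      have htN : IsGcdSeq N (t p) := ((hNt p hp).2).of_dvd (Dvd.intro_left _ rfl) hN0
      have hcopN : Nat.Coprime N p := Nat.Coprime.mul_left (hNs p hp).1 (hNt p hp).1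
      obtain ⟨CD, hCD0, hCD⟩ := gcdSeq_bdd hrM
      have hunimod_ne : ∀ n, 1 ≤ n → unimod A n ≠ 0 := by
        intro n hn h0
        unfold unimod at h0
        have h1 := Multiset.prod_eq_zero_iff.1 h0
        obtain ⟨ξ, hξ, hξ1⟩ := Multiset.mem_map.1 h1
        exact hnoroot ξ (Multiset.mem_filter.1 hξ).1 n hn (sub_eq_zero.1 hξ1).symm
      have hGn₀ : ∀ k, indG s t p N (n₀ * p ^ k) = 1 := by
        intro k
        have hk1 : 1 ≤ n₀ * p ^ k := Nat.mul_pos hn₀ (pow_pos (hS p hp).pos k)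
        rw [indG_eq_one_iff hsN htN hk1]
        have hg : Nat.gcd (n₀ * p ^ k) N = Nat.gcd n₀ N :=
          Nat.Coprime.gcd_mul_right_cancel n₀ ((hcopN.symm).pow_left k)
        rw [hsN.2 _ hk1, htN.2 _ hk1, hg, ← hsN.2 n₀ hn₀, ← htN.2 n₀ hn₀]
        exact hst0'
      have hdens : ∀ V : Set ℂ, IsOpen V → ∀ z₀ ∈ V, ‖z₀‖ = 1 →
          ∃ ζ ∈ V, ‖ζ‖ = 1 ∧
            gm (fun n => (distort S r s t n : ℂ) * unimod A n * ζ ^ n) ≠ 0 := by
        intro V hV z₀ hz₀ hz₀n
        exact core_density hM0 (C := CD)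
          (fun n hn => ⟨hDpos n hn, distort_le hS hr hs ht hn (hCD n hn)⟩)
          (distort_gcdApprox hS hr hs ht hM0 hrM hsM htM hSM) hF hx htor hunimod_ne
          (hS p hp) (hSM p hp) hN0 hNM (fun n => indG_periodic s t p N n)
          (fun n => indG_01 s t p N n) hn₀ hGn₀
          (fun ε hε => distort_dec hS hr hs ht hrM hp hsN htN hε) hV hz₀ hz₀n
      -- asymptotics
      set Λ : ℝ := c * detGrowth A with hΛdef
      have hg1 : 0 < detGrowth A := lt_of_lt_of_le one_pos (one_le_detGrowth A)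
      have hΛ : 0 < Λ := mul_pos hc hg1
      obtain ⟨C1, ρ, hC1, hρ0, hρ1, hasymp⟩ := abs_det_asymp A
      obtain ⟨K, hK0, hK⟩ := norm_unimod_le A
      have hquot : ∀ n : ℕ, 1 ≤ n → (fixCount f n : ℝ) / Λ ^ n =
          distort S r s t n * (|(((A ^ n - 1).det : ℤ) : ℝ)| / detGrowth A ^ n) := by
        intro n hn
        rw [hform' n hn, hΛdef, mul_pow]
        have h1 : c ^ n ≠ 0 := (pow_pos hc n).ne'
        have h2 : detGrowth A ^ n ≠ 0 := (pow_pos hg1 n).ne'
        field_simp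
      have hquot_le : ∀ n : ℕ, 1 ≤ n → (fixCount f n : ℝ) / Λ ^ n ≤ CD * (K + C1) := by
        intro n hn
        rw [hquot n hn]
        have h1 := hasymp n hn
        have h2 := hK n
        have h3 : C1 * ρ ^ n ≤ C1 := mul_le_of_le_one_right hC1 (pow_le_one₀ hρ0 hρ1.le)
        have h4 : |(((A ^ n - 1).det : ℤ) : ℝ)| / detGrowth A ^ n ≤ K + C1 := by
          have := (abs_le.1 h1).2
          linarith
        exact mul_le_mul (distort_le hS hr hs ht hn (hCD n hn)) h4 (by positivity) hCD0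
      have hup : ∀ n : ℕ, 1 ≤ n → (fixCount f n : ℝ) ≤ (CD * (K + C1)) * Λ ^ n := by
        intro n hn
        have := hquot_le n hn
        rwa [div_le_iff₀ (by positivity)] at this
      have hdens' : ∀ V : Set ℂ, IsOpen V → ∀ z₀ ∈ V, ‖z₀‖ = 1 →
          ∃ ζ ∈ V, ‖ζ‖ = 1 ∧
            gm (fun n => ((fixCount f n : ℂ) / (Λ : ℂ) ^ n) * ζ ^ n) ≠ 0 := by
        intro V hV z₀ hz₀ hz₀n
        obtain ⟨ζ, hζV, hζ, hζne⟩ := hdens V hV z₀ hz₀ hz₀n
        refine ⟨ζ, hζV, hζ, ?_⟩
        have hb1 : BddSeq (fun n => ((fixCount f n : ℂ) / (Λ : ℂ) ^ n) * ζ ^ n) := by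
          refine ⟨max (CD * (K + C1)) (fixCount f 0), fun n => ?_⟩
          rw [norm_mul, norm_pow, hζ, one_pow, mul_one, norm_div, norm_pow, Complex.norm_real,
            Real.norm_of_nonneg hΛ.le, Complex.norm_natCast]
          rcases Nat.eq_zero_or_pos n with h | h
          · subst h; simp
          · exact (hquot_le n h).trans (le_max_left _ _)
        have hb2 : BddSeq (fun n => (distort S r s t n : ℂ) * unimod A n * ζ ^ n) := by
          have hub : BddSeq (fun n => unimod A n) := ⟨K, hK⟩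
          have hdb : BddSeq (fun n => (distort S r s t n : ℂ)) := by
            refine bddSeq_D (C := CD) (fun n hn => ?_)
            rw [abs_of_pos (hDpos n hn)]
            exact distort_le hS hr hs ht hn (hCD n hn)
          exact (hdb.mul hub).mul (bddSeq_pow hζ)
        have hdiff : gm (fun n => ((fixCount f n : ℂ) / (Λ : ℂ) ^ n) * ζ ^ n -
            (distort S r s t n : ℂ) * unimod A n * ζ ^ n) = 0 := by
          refine gm_eq_zero_of_decay (C := CD * C1) (ρ := ρ) (hb1.sub hb2) hρ0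
            hρ1 ?_
          filter_upwards [eventually_ge_atTop 1] with n hn
          have h1 : ((fixCount f n : ℂ) / (Λ : ℂ) ^ n) =
              (((fixCount f n : ℝ) / Λ ^ n : ℝ) : ℂ) := by push_cast; rfl
          rw [← sub_mul, norm_mul, norm_pow, hζ, one_pow, mul_one, h1, hquot n hn,
            unimod_eq_norm A he1 he2 n, ← Complex.ofReal_mul, ← Complex.ofReal_sub,
            Complex.norm_real, Real.norm_eq_abs, ← mul_sub, abs_mul, abs_of_pos (hDpos n hn),
            mul_assoc]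
          exact mul_le_mul (distort_le hS hr hs ht hn (hCD n hn)) (hasymp n hn) (abs_nonneg _)
            hCD0
        rw [gm_sub hb1 hb2] at hdiff
        rw [sub_eq_zero.1 hdiff]
        exact hζne
      have hgrowth : growth f = Λ := by
        refine growth_eq hΛ hfge hup ?_
        obtain ⟨ζ, -, hζ, hζne⟩ := hdens' Set.univ isOpen_univ 1 (Set.mem_univ _) norm_one
        exact ⟨ζ, hζ, hζne⟩
      rw [hgrowth]
      have hmain := hasNaturalBoundary_of_dense (a := fun n => (fixCount f n : ℂ)) hΛ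
        (C := CD * (K + C1)) (fun n hn => by rw [Complex.norm_natCast]; exact hup n hn)
        (by positivity) hdens'
      exact hmain

end Pool.Agent.FAD
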