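import Mathlib

/-!
# A natural number which is a quadratic residue modulo almost all primes is a square
-/

namespace Pool.Agent.FAD

open NumberTheorySymbols

lemma exists_prime_jacobi_squarefree {a : ℕ} (ha : Squarefree a) (ha1 : a ≠ 1) (B : ℕ) :
    ∃ p, B < p ∧ p.Prime ∧ J(a | p) = -1 := by
  have ha0 : a ≠ 0 := ha.ne_zero
  by_cases h : ∃ l, l.Prime ∧ l ∣ a ∧ l ≠ 2
  · obtain ⟨l, hl, ⟨E, rfl⟩, hl2⟩ := h
    have hfl := Fact.mk hl
    have hE0 : E ≠ 0 := by
      rintro rfl; simp at ha0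
    have hcop : Nat.Coprime l E := by
      rw [Nat.squarefree_mul_iff] at ha
      exact ha.1
    have hchar : ringChar (ZMod l) ≠ 2 := by
      rw [ZMod.ringChar_zmod_n]; exact hl2
    obtain ⟨u, hu⟩ := FiniteField.exists_nonsquare hchar
    have hl_odd : Odd l := hl.odd_of_ne_two hl2
    have hcop8 : Nat.Coprime l (8 * E) := by
      refine Nat.Coprime.mul_right ?_ hcop
      rw [show (8 : ℕ) = 2 ^ 3 by norm_num]
      exact Nat.Coprime.pow_right 3 (Nat.coprime_two_right.2 hl_odd)
    obtain ⟨b, hb1, hb2⟩ := Nat.chineseRemainder hcop8 u.val 1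
    have hu0 : u ≠ 0 := by
      rintro rfl; exact hu (IsSquare.zero)
    have hbl : (b : ZMod l) = u := by
      have := (ZMod.natCast_eq_natCast_iff _ _ _).2 hb1
      rw [this, ZMod.natCast_zmod_val]
    have hcopb : Nat.Coprime b (l * (8 * E)) := by
      refine Nat.Coprime.mul_right ?_ ?_
      · rw [Nat.coprime_comm, hl.coprime_iff_not_dvd]
        intro hdvd
        rw [← ZMod.natCast_eq_zero_iff, hbl] at hdvd
        exact hu0 hdvd
      · have := hb2.gcd_eq
        simpa [Nat.Coprime] using this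
    have hne : NeZero (l * (8 * E)) := ⟨by
      have := hl.pos.ne'
      positivity⟩
    have hunit : IsUnit ((b : ZMod (l * (8 * E)))) := (ZMod.isUnit_iff_coprime _ _).2 hcopb
    obtain ⟨p, hp1, hp, hpb⟩ := Nat.forall_exists_prime_gt_and_eq_mod hunit (max B (8 * E))
    have hfp := Fact.mk hp
    refine ⟨p, (le_max_left _ _).trans_lt hp1, hp, ?_⟩
    have hmod : p ≡ b [MOD l * (8 * E)] := (ZMod.natCast_eq_natCast_iff _ _ _).1 hpb
    have hp8E : p ≡ 1 [MOD 8 * E] := (hmod.of_dvd (Dvd.intro_left l rfl)).trans hb2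
    have hp8 : p ≡ 1 [MOD 8] := hp8E.of_dvd (Dvd.intro E rfl)
    have hp4 : p % 4 = 1 := by
      have : p % 8 = 1 := hp8
      omega
    have hpodd : Odd p := by
      rw [Nat.odd_iff]; omega
    rw [Nat.cast_mul, jacobiSym.mul_left]
    have h1 : J(l | p) = -1 := by
      rw [jacobiSym.quadratic_reciprocity_one_mod_four' hl_odd hp4]
      refine (ZMod.nonsquare_iff_jacobiSym_eq_neg_one (a := (p : ℤ)) (p := l)).2 ?_
      have : ((p : ℤ) : ZMod l) = u := by
        rw [Int.cast_natCast, ← hbl]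
        exact (ZMod.natCast_eq_natCast_iff _ _ _).2 (hmod.of_dvd (Dvd.intro _ rfl))
      rwa [this]
    have h2 : J(E | p) = 1 := by
      rw [jacobiSym.mod_right' E hpodd]
      have h3 : p % (4 * E) = 1 := by
        have h4 : p ≡ 1 [MOD 4 * E] := hp8E.of_dvd ⟨2, by ring⟩
        have h5 : 1 % (4 * E) = 1 := Nat.mod_eq_of_lt (by omega)
        unfold Nat.ModEq at h4
        rw [h4, h5]
      rw [h3, jacobiSym.one_right]
    rw [h1, h2]; norm_num
  · push Not at h
    have ha2 : a = 2 := by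
      obtain ⟨q, hq, hqa⟩ := Nat.exists_prime_and_dvd ha1
      have hq2 := h q hq hqa
      subst hq2
      obtain ⟨c, rfl⟩ := hqa
      have hcop : Nat.Coprime 2 c := (Nat.squarefree_mul_iff.1 ha).1
      by_contra hne
      have hc1 : c ≠ 1 := by
        rintro rfl; exact hne (by norm_num)
      obtain ⟨q, hq, hqc⟩ := Nat.exists_prime_and_dvd hc1
      have hq2 := h q hq (hqc.trans (Dvd.intro_left 2 rfl))
      subst hq2
      have h2 := Nat.dvd_gcd (dvd_refl 2) hqc
      rw [hcop] at h2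
      omega
    subst ha2
    have hunit : IsUnit ((3 : ZMod 8)) := by decide
    obtain ⟨p, hp1, hp, hpb⟩ := Nat.forall_exists_prime_gt_and_eq_mod (q := 8) hunit B
    refine ⟨p, hp1, hp, ?_⟩
    have hp8 : p % 8 = 3 := by
      have h3 : ((p : ℕ) : ZMod 8) = ((3 : ℕ) : ZMod 8) := by rw [hpb]; rfl
      have := (ZMod.natCast_eq_natCast_iff _ _ _).1 h3
      exact this
    have hpodd : Odd p := by
      rw [Nat.odd_iff]; omega
    rw [Nat.cast_ofNat, jacobiSym.at_two hpodd, ZMod.χ₈_nat_eq_if_mod_eight, if_neg (by omega),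
      if_neg (by omega)]

/-- A natural number that is a quadratic residue modulo all large primes is a square. -/
theorem isSquare_of_forall_prime {D : ℕ} (B : ℕ)
    (h : ∀ p : ℕ, B < p → p.Prime → J(D | p) = 1) : IsSquare D := by
  by_contra hD
  have hD0 : 0 < D := by
    rcases Nat.eq_zero_or_pos D with h0 | h0
    · subst h0; exact absurd IsSquare.zero hD
    · exact h0
  obtain ⟨a, b, ha0, hb0, hab, ha⟩ := Nat.sq_mul_squarefree_of_pos hD0
  have ha1 : a ≠ 1 := by
    rintro rfl
    exact hD ⟨b, by rw [← hab]; ring⟩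
  obtain ⟨p, hp1, hp, hpJ⟩ := exists_prime_jacobi_squarefree ha ha1 (max B b)
  have hpB : B < p := (le_max_left _ _).trans_lt hp1
  have hpb : b < p := (le_max_right _ _).trans_lt hp1
  have h1 := h p hpB hp
  have h2 : J((b ^ 2 : ℕ) | p) = 1 := by
    push_cast
    refine jacobiSym.sq_one' ?_
    have : Nat.Coprime b p := by
      rw [Nat.coprime_comm, hp.coprime_iff_not_dvd]
      intro hdvd
      exact absurd (Nat.le_of_dvd hb0 hdvd) (by omega)
    simpa [Int.gcd_natCast_natCast] using this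
  rw [← hab, Nat.cast_mul, jacobiSym.mul_left, h2, hpJ] at h1
  norm_num at h1

end Pool.Agent.FAD
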