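import Pool.Agent.FAD.Sign
import Pool.Agent.FAD.QR
import Pool.Agent.FAD.Count

/-!
# In the undistorted case the constant `c` is rational
-/

namespace Pool.Agent.FAD

open NumberTheorySymbols

theorem rational_c {X : Type*} {f : X → X} (hf : IsSystem f) {d : ℕ}
    (A : Matrix (Fin d) (Fin d) ℤ) {c : ℝ} (hc : 0 < c) {r : ℕ → ℝ}
    (hr : ∀ n : ℕ, 1 ≤ n → 0 < r n) {N : ℕ} (hrN : IsGcdSeq N r)
    (h1 : (1 : ℂ) ∉ eigs A) (h2 : (-1 : ℂ) ∉ eigs A) (hf1 : fixCount f 1 ≠ 0)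
    (hform : ∀ n : ℕ, 1 ≤ n → (fixCount f n : ℝ) = |(((A ^ n - 1).det : ℤ) : ℝ)| * c ^ n * r n) :
    ∃ q : ℚ, c = q := by
  obtain ⟨ε, δ, hε, hδ, hsign⟩ := det_sign A h1 h2
  obtain ⟨D', hD'⟩ : ∃ D' : ℕ → ℤ, ∀ n, D' n = (A ^ n - 1).det := ⟨_, fun _ => rfl⟩
  obtain ⟨a', ha'⟩ : ∃ a' : ℕ → ℤ, ∀ n, a' n = |(A ^ n - 1).det| := ⟨_, fun _ => rfl⟩
  have hsign' : ∀ n : ℕ, 1 ≤ n → a' n = ε * δ ^ n * D' n := fun n hn => by
    rw [ha', hD']; exact hsign n hn
  have hDmod : ∀ p : ℕ, p.Prime → ((D' p : ℤ) : ZMod p) = ((D' 1 : ℤ) : ZMod p) := by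
    intro p hp
    rw [hD', hD', pow_one]
    exact det_modEq A hp
  have hform : ∀ n : ℕ, 1 ≤ n → (fixCount f n : ℝ) = (a' n : ℝ) * c ^ n * r n := by
    intro n hn
    rw [hform n hn, ha' n, Int.cast_abs]
  clear hsign
  set a : ℤ := a' 1 with ha
  have hN : 0 < N := hrN.1
  have hr1 : 0 < r 1 := hr 1 le_rfl
  have hf1R : (fixCount f 1 : ℝ) = (a : ℝ) * c * r 1 := by
    rw [hform 1 le_rfl, ha, pow_one c]
  have ha0 : a ≠ 0 := by
    intro h0
    rw [h0] at hf1R
    apply hf1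
    have : (fixCount f 1 : ℝ) = 0 := by rw [hf1R]; simp
    exact_mod_cast this
  -- key identity for primes
  have key : ∀ p : ℕ, p.Prime → N < p →
      (fixCount f p : ℝ) * a = (a' p) * c ^ (p - 1) * (fixCount f 1 : ℝ) := by
    intro p hp hNp
    have hrp : r p = r 1 := by
      rw [hrN.2 p hp.pos, hrN.2 1 le_rfl]
      congr 1
      have : Nat.Coprime p N := by
        rw [hp.coprime_iff_not_dvd]
        intro hdvd
        exact absurd (Nat.le_of_dvd hN hdvd) (by omega)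
      rw [Nat.gcd_one_left]; exact this
    rw [hform p hp.pos, hf1R, hrp]
    have hcp : c ^ p = c ^ (p - 1) * c := by
      rw [← pow_succ, Nat.sub_add_cancel hp.pos]
    rw [hcp]; push_cast; ring
  -- residues of `|det(A^p-1)|`
  have hmod : ∀ p : ℕ, p.Prime → 2 < p →
      (((a' p)) : ZMod p) = ((a : ℤ) : ZMod p) := by
    intro p hp hp2
    have hodd : Odd p := hp.odd_of_ne_two (by omega)
    rw [ha, hsign' p hp.pos, hsign' 1 le_rfl]
    push_cast
    have hδp : (δ : ZMod p) ^ p = (δ : ZMod p) ^ 1 := by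
      rcases hδ with rfl | rfl
      · simp
      · push_cast
        rw [hodd.neg_one_pow, pow_one]
    rw [hδp, hDmod p hp]
  set B : ℕ := N + a.natAbs + fixCount f 1 + 2 with hB
  have hap : ∀ p : ℕ, p.Prime → B < p → ((a : ℤ) : ZMod p) ≠ 0 := by
    intro p hp hBp h0
    rw [ZMod.intCast_zmod_eq_zero_iff_dvd] at h0
    have h3 : p ∣ a.natAbs := Int.natCast_dvd.1 h0
    have h4 : 0 < a.natAbs := Int.natAbs_pos.2 ha0
    exact absurd (Nat.le_of_dvd h4 h3) (by omega)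
  have hfp : ∀ p : ℕ, p.Prime → B < p → ((fixCount f 1 : ℕ) : ZMod p) ≠ 0 := by
    intro p hp hBp h0
    rw [ZMod.natCast_eq_zero_iff] at h0
    exact absurd (Nat.le_of_dvd (Nat.pos_of_ne_zero hf1) h0) (by omega)
  have hap0 : ∀ p : ℕ, p.Prime → B < p → (a' p) ≠ 0 := by
    intro p hp hBp h0
    have h3 := hmod p hp (by omega)
    rw [h0] at h3
    exact hap p hp hBp (by rw [← h3]; simp)
  have hf1R0 : (fixCount f 1 : ℝ) ≠ 0 := by exact_mod_cast hf1
  -- step 1
  have step1 : ∀ p : ℕ, p.Prime → B < p → ∃ q : ℚ, c ^ (p - 1) = q := by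
    intro p hp hBp
    refine ⟨(fixCount f p : ℚ) * a / ((a' p) * (fixCount f 1 : ℚ)), ?_⟩
    have h3 : (((a' p)) : ℝ) ≠ 0 := by exact_mod_cast hap0 p hp hBp
    have h4 := key p hp (by omega)
    push_cast at h3 h4 ⊢
    rw [h4]
    field_simp
  -- step 2
  have step2 : ∃ q : ℚ, c ^ 2 = q := by
    obtain ⟨p₁, hp₁B, hp₁⟩ := Nat.exists_infinite_primes (B + 1)
    obtain ⟨q₁, hq₁⟩ := step1 p₁ hp₁ (by omega)
    have hm : NeZero (p₁ - 1) := ⟨by have := hp₁.two_le; omega⟩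
    obtain ⟨p₂, hp₂B, hp₂, hp₂m⟩ := Nat.forall_exists_prime_gt_and_eq_mod
      (q := p₁ - 1) (a := -1) (isUnit_one.neg) B
    obtain ⟨q₂, hq₂⟩ := step1 p₂ hp₂ hp₂B
    have hdvd : (p₁ - 1) ∣ (p₂ + 1) := by
      rw [← ZMod.natCast_eq_zero_iff]
      push_cast
      rw [hp₂m]; ring
    obtain ⟨k, hk⟩ := hdvd
    refine ⟨q₁ ^ k / q₂, ?_⟩
    have h3 : c ^ (p₂ + 1) = c ^ (p₂ - 1) * c ^ 2 := by
      rw [← pow_add]
      congr 1
      have := hp₂.two_le
      omega
    rw [hk, pow_mul, hq₁, hq₂] at h3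
    have h4 : (q₂ : ℝ) ≠ 0 := by
      rw [← hq₂]; positivity
    push_cast
    rw [h3]; field_simp
  obtain ⟨q, hq⟩ := step2
  have hq0 : 0 < q := by
    have : (0 : ℝ) < q := by rw [← hq]; positivity
    exact_mod_cast this
  set y : ℕ := q.den with hy
  have hy0 : 0 < y := q.den_pos
  obtain ⟨x, hx⟩ : ∃ x : ℕ, (x : ℤ) = q.num := ⟨q.num.toNat, Int.toNat_of_nonneg
    (Rat.num_pos.2 hq0).le⟩
  set D : ℕ := x * y with hD
  have hcy : (c * y) ^ 2 = D := by
    have h3 : (q : ℝ) = (x : ℝ) / y := by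
      have : q = (x : ℚ) / y := by
        conv_lhs => rw [← Rat.num_div_den q, ← hx]
        push_cast; rfl
      rw [this]; push_cast; rfl
    have hyR : (y : ℝ) ≠ 0 := by exact_mod_cast hy0.ne'
    rw [mul_pow, hq, h3, hD]; push_cast
    field_simp
  -- step 3
  have step3 : IsSquare D := by
    refine isSquare_of_forall_prime (B + y) (fun p hpB hp => ?_)
    have hfac := Fact.mk hp
    have hp2 : 2 < p := by omega
    have hpodd : Odd p := hp.odd_of_ne_two (by omega)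
    obtain ⟨e, he⟩ := hpodd
    have hk := key p hp (by omega)
    have h4 : (((D : ℤ) ^ e * a' p * (fixCount f 1 : ℤ) : ℤ) : ℝ) =
        (((y : ℤ) ^ (p - 1) * (fixCount f p : ℤ) * a : ℤ) : ℝ) := by
      push_cast
      rw [mul_assoc ((y : ℝ) ^ (p - 1)), hk, ← hcy, ← pow_mul]
      have h5 : 2 * e = p - 1 := by omega
      rw [h5, mul_pow]; push_cast; ring
    have h5 : (D : ℤ) ^ e * a' p * (fixCount f 1 : ℤ) =
        (y : ℤ) ^ (p - 1) * (fixCount f p : ℤ) * a := by exact_mod_cast h4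
    have h6 := congrArg (fun z : ℤ => (z : ZMod p)) h5
    simp only [Int.cast_mul, Int.cast_pow, Int.cast_natCast] at h6
    have hypow : (y : ZMod p) ^ (p - 1) = 1 := by
      apply ZMod.pow_card_sub_one_eq_one
      intro h0
      rw [ZMod.natCast_eq_zero_iff] at h0
      exact absurd (Nat.le_of_dvd hy0 h0) (by omega)
    have hfmod : ((fixCount f p : ℕ) : ZMod p) = ((fixCount f 1 : ℕ) : ZMod p) :=
      (ZMod.natCast_eq_natCast_iff _ _ _).2 (fixCount_modEq hf hp)
    have hm := hmod p hp hp2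
    rw [hm, hypow, hfmod, one_mul] at h6
    have hne := mul_ne_zero (hap p hp (by omega)) (hfp p hp (by omega))
    have h7 : ((D : ℕ) : ZMod p) ^ e = 1 := by
      have h8 : (((D : ℕ) : ZMod p) ^ e - 1) *
          (((a : ℤ) : ZMod p) * ((fixCount f 1 : ℕ) : ZMod p)) = 0 := by
        linear_combination h6
      rcases mul_eq_zero.1 h8 with h9 | h9
      · exact sub_eq_zero.1 h9
      · exact absurd h9 hne
    have h10 : legendreSym p (D : ℤ) = 1 := by
      have h11 := legendreSym.eq_pow p (D : ℤ)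
      have h12 : p / 2 = e := by omega
      rw [h12] at h11
      push_cast at h11
      rw [h7] at h11
      have hD0 : (((D : ℤ)) : ZMod p) ≠ 0 := by
        intro h0
        push_cast at h0
        rw [h0] at h7
        have he0 : e ≠ 0 := by omega
        rw [zero_pow he0] at h7
        exact zero_ne_one h7
      rcases legendreSym.eq_one_or_neg_one p hD0 with h13 | h13
      · exact h13
      · exfalso
        rw [h13] at h11
        push_cast at h11
        have hfp2 : Fact (2 < p) := ⟨hp2⟩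
        exact ZMod.neg_one_ne_one h11
    rw [← jacobiSym.legendreSym.to_jacobiSym]
    exact h10
  obtain ⟨e, he⟩ := step3
  refine ⟨(e : ℚ) / y, ?_⟩
  have hyR : (0 : ℝ) < y := by exact_mod_cast hy0
  have h3 : (c * y) ^ 2 = (e : ℝ) ^ 2 := by
    rw [hcy, he]; push_cast; ring
  have h4 : c * y = e := by
    have h5 : 0 ≤ c * y := by positivity
    have h6 : (0 : ℝ) ≤ e := by positivity
    exact (pow_left_inj₀ h5 h6 two_ne_zero).1 h3
  push_cast
  rw [← h4]; field_simp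

end Pool.Agent.FAD
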