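import Pool.Agent.FAD.RatC

/-!
# Root-rationality in the undistorted case
-/

namespace Pool.Agent.FAD

open PowerSeries

lemma ode_unique {Y Z H : PowerSeries ℂ} (hY : d⁄dX ℂ Y = Y * H) (hZ : d⁄dX ℂ Z = Z * H)
    (hY0 : constantCoeff Y = 1) (hZ0 : constantCoeff Z = 1) : Y = Z := by
  have hZinv : Z * Z⁻¹ = 1 := PowerSeries.mul_inv_cancel Z (by rw [hZ0]; exact one_ne_zero)
  have h1 : Y * Z⁻¹ = 1 := by
    apply PowerSeries.derivative.ext
    · rw [Derivation.leibniz, PowerSeries.derivative_inv', hY, hZ]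
      simp only [smul_eq_mul, map_one]
      have h2 : Z⁻¹ * Z = 1 := by rw [mul_comm]; exact hZinv
      have : Y * (-Z⁻¹ ^ 2 * (Z * H)) + Z⁻¹ * (Y * H) = Y * Z⁻¹ * H * (1 - Z⁻¹ * Z) := by ring
      rw [this, h2, sub_self, mul_zero]
      simp
    · rw [map_mul, PowerSeries.constantCoeff_inv, hY0, hZ0]; simp
  calc Y = Y * (Z * Z⁻¹) := by rw [hZinv, mul_one]
    _ = (Y * Z⁻¹) * Z := by ring
    _ = Z := by rw [h1, one_mul]

/-- formal exponential -/
noncomputable def fexp (G : PowerSeries ℂ) : PowerSeries ℂ := (PowerSeries.exp ℂ).subst G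

lemma fexp_deriv {G : PowerSeries ℂ} (hG : constantCoeff G = 0) :
    d⁄dX ℂ (fexp G) = fexp G * d⁄dX ℂ G := by
  unfold fexp
  rw [PowerSeries.derivative_subst (HasSubst.of_constantCoeff_zero' hG),
    PowerSeries.derivative_exp]

lemma fexp_constantCoeff {G : PowerSeries ℂ} (hG : constantCoeff G = 0) :
    constantCoeff (fexp G) = 1 := by
  unfold fexp
  rw [← coeff_zero_eq_constantCoeff_apply, coeff_subst' (HasSubst.of_constantCoeff_zero' hG),
    finsum_eq_single _ 0]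
  · simp
  · intro n hn
    rw [coeff_zero_eq_constantCoeff_apply, map_pow, hG, zero_pow hn, smul_zero]

lemma fexp_add {G H : PowerSeries ℂ} (hG : constantCoeff G = 0) (hH : constantCoeff H = 0) :
    fexp (G + H) = fexp G * fexp H := by
  have hGH : constantCoeff (G + H) = 0 := by rw [map_add, hG, hH, add_zero]
  refine ode_unique (H := d⁄dX ℂ (G + H)) (fexp_deriv hGH) ?_ (fexp_constantCoeff hGH) ?_
  · rw [Derivation.leibniz, fexp_deriv hG, fexp_deriv hH, map_add]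
    simp only [smul_eq_mul]; ring
  · rw [map_mul, fexp_constantCoeff hG, fexp_constantCoeff hH, one_mul]

lemma fexp_zero : fexp 0 = 1 := by
  have h0 : constantCoeff (0 : PowerSeries ℂ) = 0 := map_zero _
  refine ode_unique (H := 0) ?_ ?_ (fexp_constantCoeff h0) (map_one _)
  · rw [fexp_deriv h0, map_zero]
  · simp

lemma fexp_sum {ι : Type*} (s : Finset ι) (G : ι → PowerSeries ℂ)
    (hG : ∀ i ∈ s, constantCoeff (G i) = 0) : fexp (∑ i ∈ s, G i) = ∏ i ∈ s, fexp (G i) := by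
  classical
  induction s using Finset.induction_on with
  | empty => simp [fexp_zero]
  | insert a s ha ih =>
    rw [Finset.sum_insert ha, Finset.prod_insert ha, fexp_add (hG a (Finset.mem_insert_self _ _)),
      ih (fun i hi => hG i (Finset.mem_insert_of_mem hi))]
    rw [map_sum]
    exact Finset.sum_eq_zero (fun i hi => hG i (Finset.mem_insert_of_mem hi))

lemma fexp_nsmul {G : PowerSeries ℂ} (hG : constantCoeff G = 0) (n : ℕ) :
    fexp ((n : ℂ) • G) = fexp G ^ n := by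
  induction n with
  | zero => simp [fexp_zero]
  | succ n ih =>
    have h1 : ((n + 1 : ℕ) : ℂ) • G = (n : ℂ) • G + G := by
      push_cast; rw [add_smul, one_smul]
    rw [h1, fexp_add _ hG, ih, pow_succ]
    simp [hG]

lemma IsRootRational.mul {φ ψ : PowerSeries ℂ} (hφ : IsRootRational φ) (hψ : IsRootRational ψ) :
    IsRootRational (φ * ψ) := by
  obtain ⟨k, hk, P, Q, hQ, h1⟩ := hφ
  obtain ⟨l, hl, P', Q', hQ', h2⟩ := hψ
  refine ⟨k * l, Nat.mul_pos hk hl, P ^ l * P' ^ k, Q ^ l * Q' ^ k,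
    mul_ne_zero (pow_ne_zero _ hQ) (pow_ne_zero _ hQ'), ?_⟩
  push_cast
  rw [← h1, ← h2]
  ring

lemma isRootRational_one : IsRootRational 1 := ⟨1, le_rfl, 1, 1, one_ne_zero, by simp⟩

lemma IsRootRational.prod {ι : Type*} (s : Finset ι) (φ : ι → PowerSeries ℂ)
    (h : ∀ i ∈ s, IsRootRational (φ i)) : IsRootRational (∏ i ∈ s, φ i) := by
  classical
  induction s using Finset.induction_on with
  | empty => simpa using isRootRational_one
  | insert a s ha ih =>
    rw [Finset.prod_insert ha]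
    exact (h a (Finset.mem_insert_self _ _)).mul
      (ih (fun i hi => h i (Finset.mem_insert_of_mem hi)))

/-- `∑_{k ≥ 1} (γ X)^{dk} / k`. -/
noncomputable def elemLog (γ : ℂ) (d : ℕ) : PowerSeries ℂ :=
  PowerSeries.mk fun n => if n ≠ 0 ∧ d ∣ n then (d : ℂ) * γ ^ n / n else 0

lemma elemLog_constantCoeff (γ : ℂ) (d : ℕ) : constantCoeff (elemLog γ d) = 0 := by
  rw [← coeff_zero_eq_constantCoeff_apply, elemLog, coeff_mk, if_neg]
  simp

lemma elemLog_deriv (γ : ℂ) {d : ℕ} (hd : 0 < d) :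
    (1 - C (γ ^ d) * X ^ d) * d⁄dX ℂ (elemLog γ d) = C ((d : ℂ) * γ ^ d) * X ^ (d - 1) := by
  ext n
  rw [sub_mul, one_mul, map_sub, mul_assoc, coeff_C_mul, coeff_C_mul, coeff_X_pow,
    coeff_derivative, elemLog, coeff_mk, coeff_X_pow_mul']
  have hn0 : ((n : ℂ) + 1) ≠ 0 := by exact_mod_cast Nat.succ_ne_zero n
  have hc1 : (if n + 1 ≠ 0 ∧ d ∣ n + 1 then (d : ℂ) * γ ^ (n + 1) / ((n + 1 : ℕ) : ℂ) else 0) *
      ((n : ℂ) + 1) = if d ∣ n + 1 then (d : ℂ) * γ ^ (n + 1) else 0 := by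
    by_cases h : d ∣ n + 1
    · rw [if_pos ⟨Nat.succ_ne_zero n, h⟩, if_pos h]; push_cast; field_simp
    · rw [if_neg (fun h' => h h'.2), if_neg h, zero_mul]
  rw [hc1]
  by_cases hdn : d ≤ n
  · rw [if_pos hdn, coeff_derivative, coeff_mk, if_neg (by omega : ¬ n = d - 1)]
    have h2 : n - d + 1 ≠ 0 := Nat.succ_ne_zero _
    have h3 : d ∣ n - d + 1 ↔ d ∣ n + 1 := by
      have : n + 1 = (n - d + 1) + d := by omega
      rw [this, Nat.dvd_add_self_right]
    have h4 : (if n - d + 1 ≠ 0 ∧ d ∣ n - d + 1 then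
        (d : ℂ) * γ ^ (n - d + 1) / ((n - d + 1 : ℕ) : ℂ) else 0) * (((n - d : ℕ) : ℂ) + 1) =
        if d ∣ n + 1 then (d : ℂ) * γ ^ (n - d + 1) else 0 := by
      have h5 : (((n - d : ℕ) : ℂ) + 1) ≠ 0 := by exact_mod_cast Nat.succ_ne_zero (n - d)
      by_cases h : d ∣ n + 1
      · rw [if_pos ⟨h2, h3.2 h⟩, if_pos h, Nat.cast_add, Nat.cast_one]; field_simp
      · rw [if_neg (fun h' => h (h3.1 h'.2)), if_neg h, zero_mul]
    rw [h4]
    split_ifs with h
    · have h5 : γ ^ (n + 1) = γ ^ d * γ ^ (n - d + 1) := by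
        rw [← pow_add]; congr 1; omega
      rw [h5]; ring
    · simp
  · rw [if_neg hdn, mul_zero, sub_zero]
    by_cases h : n = d - 1
    · have h6 : n + 1 = d := by omega
      rw [if_pos h, h6, if_pos dvd_rfl, mul_one]
    · rw [if_neg h, mul_zero, if_neg]
      intro hdvd
      have := Nat.le_of_dvd (Nat.succ_pos n) hdvd
      omega

lemma fexp_elemLog (γ : ℂ) {d : ℕ} (hd : 0 < d) :
    fexp (elemLog γ d) * (1 - C (γ ^ d) * X ^ d) = 1 := by
  apply PowerSeries.derivative.ext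
  · rw [Derivation.leibniz, fexp_deriv (elemLog_constantCoeff γ d)]
    have h1 : d⁄dX ℂ (1 - C (γ ^ d) * X ^ d : PowerSeries ℂ) =
        - (C ((d : ℂ) * γ ^ d) * X ^ (d - 1)) := by
      rw [map_sub, Derivation.leibniz, PowerSeries.derivative_pow, PowerSeries.derivative_C,
        PowerSeries.derivative_X]
      simp only [smul_eq_mul, mul_zero, mul_one, add_zero, map_mul, map_natCast]
      have : d⁄dX ℂ (1 : PowerSeries ℂ) = 0 := by simp
      rw [this]
      ring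
    have h2 := elemLog_deriv γ hd
    rw [h1]
    simp only [smul_eq_mul]
    have h3 : d⁄dX ℂ (1 : PowerSeries ℂ) = 0 := by simp
    rw [h3, ← h2]
    ring
  · rw [map_mul, fexp_constantCoeff (elemLog_constantCoeff γ d), one_mul]
    rw [map_sub, map_mul, map_pow]
    simp [hd.ne']

lemma isRootRational_fexp_elemLog (γ : ℂ) {d : ℕ} (hd : 0 < d) (w : ℚ) :
    IsRootRational (fexp ((w : ℂ) • elemLog γ d)) := by
  have hL := elemLog_constantCoeff γ d
  have hE := fexp_elemLog γ hd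
  have hwL : constantCoeff ((w : ℂ) • elemLog γ d) = 0 := by simp [hL]
  set T : Polynomial ℂ := 1 - Polynomial.C (γ ^ d) * Polynomial.X ^ d with hT
  have hTc : (T : PowerSeries ℂ) = 1 - C (γ ^ d) * X ^ d := by
    rw [hT]; simp
  have hT0 : T ≠ 0 := by
    intro h
    have : T.coeff 0 = 1 := by rw [hT]; simp [hd.ne]
    rw [h] at this; simp at this
  have hden : fexp ((w : ℂ) • elemLog γ d) ^ w.den = fexp (((w.num : ℤ) : ℂ) • elemLog γ d) := by
    rw [← fexp_nsmul hwL, smul_smul]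
    congr 2
    have : ((w.den : ℚ)) * w = w.num := by
      rw [mul_comm]; exact Rat.mul_den_eq_num w
    exact_mod_cast this
  rcases le_total 0 w.num with h | h
  · obtain ⟨u, hu⟩ := Int.eq_ofNat_of_zero_le h
    refine ⟨w.den, w.den_pos, 1, T ^ u, pow_ne_zero _ hT0, ?_⟩
    rw [hden, hu]
    push_cast
    rw [fexp_nsmul hL, hTc, ← mul_pow, hE, one_pow]
  · obtain ⟨u, hu⟩ := Int.eq_ofNat_of_zero_le (neg_nonneg.2 h)
    refine ⟨w.den, w.den_pos, T ^ u, 1, one_ne_zero, ?_⟩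
    rw [hden]
    push_cast
    rw [mul_one, hTc]
    have hnum : ((w.num : ℤ) : ℂ) = - (u : ℂ) := by
      have : w.num = - (u : ℤ) := by omega
      rw [this]; push_cast; ring
    rw [hnum]
    have h3 : fexp ((-(u : ℂ)) • elemLog γ d) * fexp ((u : ℂ) • elemLog γ d) = 1 := by
      rw [← fexp_add (by simp [hL]) (by simp [hL])]
      rw [← add_smul, neg_add_cancel, zero_smul, fexp_zero]
    rw [fexp_nsmul hL] at h3
    calc fexp ((-(u : ℂ)) • elemLog γ d)
        = fexp ((-(u : ℂ)) • elemLog γ d) * (fexp (elemLog γ d) *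
            (1 - C (γ ^ d) * X ^ d)) ^ u := by rw [hE, one_pow, mul_one]
      _ = (fexp ((-(u : ℂ)) • elemLog γ d) * fexp (elemLog γ d) ^ u) *
            (1 - C (γ ^ d) * X ^ d) ^ u := by rw [mul_pow]; ring
      _ = (1 - C (γ ^ d) * X ^ d) ^ u := by rw [h3, one_mul]

/-- rational gcd sequences are rational combinations of indicators of divisibility. -/
lemma gcdSeq_expand {N : ℕ} (hN : 0 < N) (r : ℕ → ℚ)
    (hr : ∀ n : ℕ, 1 ≤ n → r n = r (Nat.gcd n N)) :
    ∃ e : ℕ → ℚ, ∀ n : ℕ, 1 ≤ n → r n = ∑ d ∈ N.divisors, if d ∣ n then e d else 0 := by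
  obtain ⟨e, he⟩ : ∃ e : ℕ → ℚ, ∀ n : ℕ, 0 < n → ∑ d ∈ n.divisors, e d = r n := by
    refine ⟨fun n => ∑ x ∈ n.divisorsAntidiagonal, (ArithmeticFunction.moebius x.1 : ℚ) * r x.2,
      ?_⟩
    exact (ArithmeticFunction.sum_eq_iff_sum_mul_moebius_eq).2 (fun n _ => rfl)
  refine ⟨e, fun n hn => ?_⟩
  rw [hr n hn, ← he _ (Nat.gcd_pos_of_pos_left _ hn), ← Finset.sum_filter]
  refine Finset.sum_congr ?_ (fun _ _ => rfl)
  ext d
  rw [Nat.mem_divisors, Finset.mem_filter, Nat.mem_divisors, Nat.dvd_gcd_iff]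
  constructor
  · rintro ⟨⟨h1, h2⟩, -⟩; exact ⟨⟨h2, hN.ne'⟩, h1⟩
  · rintro ⟨⟨h1, -⟩, h2⟩; exact ⟨⟨h2, h1⟩, (Nat.gcd_pos_of_pos_left _ hn).ne'⟩

/-- The undistorted case: the zeta function is root-rational. -/
theorem rootRational_of_undistorted {Y : Type*} {f : Y → Y} (hf : IsSystem f) {d : ℕ}
    (A : Matrix (Fin d) (Fin d) ℤ) {c : ℝ} (hc : 0 < c) {r : ℕ → ℝ}
    (hr : ∀ n : ℕ, 1 ≤ n → 0 < r n) {N : ℕ} (hrN : IsGcdSeq N r)
    (h1 : (1 : ℂ) ∉ eigs A) (h2 : (-1 : ℂ) ∉ eigs A) (hf1 : fixCount f 1 ≠ 0)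
    (hform : ∀ n : ℕ, 1 ≤ n → (fixCount f n : ℝ) = |(((A ^ n - 1).det : ℤ) : ℝ)| * c ^ n * r n) :
    IsRootRational (zeta f) := by
  obtain ⟨q, hq⟩ := rational_c hf A hc hr hrN h1 h2 hf1 hform
  obtain ⟨k, m, β, hm⟩ := isIntExp_abs_det A h1 h2
  have hfn : ∀ n : ℕ, 1 ≤ n → fixCount f n ≠ 0 := fun n hn => by
    have := fixCount_one_le hf hn
    omega
  have hN : 0 < N := hrN.1
  have hqpos : (0 : ℝ) < q := by rw [← hq]; exact hc
  -- r is rational
  have hrat : ∀ n : ℕ, 1 ≤ n → ∃ x : ℚ, r n = x := by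
    intro n hn
    refine ⟨(fixCount f n : ℚ) / (((|(A ^ n - 1).det| : ℤ) : ℚ) * q ^ n), ?_⟩
    have h3 := hform n hn
    have h4 : |(((A ^ n - 1).det : ℤ) : ℝ)| ≠ 0 := by
      intro h0
      rw [h0, zero_mul, zero_mul] at h3
      exact hfn n hn (by exact_mod_cast h3)
    have h5 : (((|(A ^ n - 1).det| : ℤ) : ℚ) : ℝ) = |(((A ^ n - 1).det : ℤ) : ℝ)| := by
      rw [Rat.cast_intCast, Int.cast_abs]
    rw [Rat.cast_div, Rat.cast_mul, Rat.cast_natCast, Rat.cast_pow, h5, h3, hq]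
    have h6 : ((q : ℝ)) ^ n ≠ 0 := (pow_pos hqpos n).ne'
    field_simp
  choose! r' hr' using hrat
  have hr'g : ∀ n : ℕ, 1 ≤ n → r' n = r' (Nat.gcd n N) := by
    intro n hn
    have h3 := hrN.2 n hn
    rw [hr' n hn, hr' _ (Nat.gcd_pos_of_pos_left _ hn)] at h3
    exact_mod_cast h3
  obtain ⟨e, he⟩ := gcdSeq_expand hN r' hr'g
  -- the expansion of the logarithm
  have hlog : logZeta f = ∑ i : Fin k, ∑ D ∈ N.divisors,
      (((m i : ℚ) * e D / D : ℚ) : ℂ) • elemLog (β i * (c : ℂ)) D := by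
    ext n
    rw [logZeta, coeff_mk, map_sum]
    simp_rw [map_sum, coeff_smul, elemLog, coeff_mk, smul_eq_mul]
    rcases Nat.eq_zero_or_pos n with hn | hn
    · subst hn; simp
    · rw [if_neg hn.ne']
      have h3 : (fixCount f n : ℂ) = (∑ i, (m i : ℂ) * β i ^ n) * (c : ℂ) ^ n *
          ((∑ D ∈ N.divisors, if D ∣ n then e D else 0 : ℚ) : ℂ) := by
        rw [← hm n hn, ← he n hn]
        have h4 := hform n hn
        rw [hr' n hn] at h4
        have h5 : ((fixCount f n : ℝ) : ℂ) = ((|(((A ^ n - 1).det : ℤ) : ℝ)| * c ^ n *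
            (r' n : ℝ) : ℝ) : ℂ) := by rw [h4]
        rw [Complex.ofReal_natCast] at h5
        rw [h5, ← Int.cast_abs]
        simp only [Complex.ofReal_mul, Complex.ofReal_intCast, Complex.ofReal_pow,
          Complex.ofReal_ratCast]
      rw [h3]
      have hn0 : (n : ℂ) ≠ 0 := by exact_mod_cast hn.ne'
      rw [div_eq_iff hn0, Finset.sum_mul, Finset.sum_mul, Finset.sum_mul]
      refine Finset.sum_congr rfl (fun i _ => ?_)
      rw [Rat.cast_sum, Finset.mul_sum, Finset.sum_mul]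
      refine Finset.sum_congr rfl (fun D hD => ?_)
      have hD0 : (D : ℂ) ≠ 0 := by exact_mod_cast (Nat.pos_of_mem_divisors hD).ne'
      by_cases h : D ∣ n
      · rw [if_pos h, if_pos ⟨hn.ne', h⟩, mul_pow]
        push_cast
        field_simp
      · rw [if_neg h, if_neg (fun h' => h h'.2)]; simp
  have hzeta : zeta f = fexp (logZeta f) := rfl
  have hinner : ∀ i : Fin k, ∀ D : ℕ, constantCoeff ((((m i : ℚ) * e D / D : ℚ) : ℂ) •
      elemLog (β i * (c : ℂ)) D) = 0 := by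
    intro i D
    rw [← coeff_zero_eq_constantCoeff_apply, coeff_smul, coeff_zero_eq_constantCoeff_apply,
      elemLog_constantCoeff, smul_zero]
  rw [hzeta, hlog, fexp_sum]
  · refine IsRootRational.prod _ _ (fun i _ => ?_)
    rw [fexp_sum _ _ (fun D _ => hinner i D)]
    refine IsRootRational.prod _ _ (fun D hD => ?_)
    exact isRootRational_fexp_elemLog _ (Nat.pos_of_mem_divisors hD) _
  · intro i _
    rw [map_sum]
    exact Finset.sum_eq_zero (fun D _ => hinner i D)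

end Pool.Agent.FAD
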