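import Pool.Agent.FAD.Eigen

/-!
# The sign of `det(A^n - 1)`, its expansion, and its congruences
-/

namespace Pool.Agent.FAD

lemma real_sign (t : Multiset ℝ) (h1 : (1 : ℝ) ∉ t) (h2 : (-1 : ℝ) ∉ t) :
    ∃ ε δ : ℤ, (ε = 1 ∨ ε = -1) ∧ (δ = 1 ∨ δ = -1) ∧
      ∀ n : ℕ, 1 ≤ n → 0 ≤ (ε : ℝ) * (δ : ℝ) ^ n * (t.map (fun x => x ^ n - 1)).prod := by
  induction t using Multiset.induction_on with
  | empty => exact ⟨1, 1, Or.inl rfl, Or.inl rfl, fun n _ => by simp⟩
  | cons x t ih =>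
    rw [Multiset.mem_cons, not_or] at h1 h2
    obtain ⟨ε, δ, hε, hδ, h⟩ := ih h1.2 h2.2
    have key : ∃ ε' δ' : ℤ, (ε' = 1 ∨ ε' = -1) ∧ (δ' = 1 ∨ δ' = -1) ∧
      ∀ n : ℕ, 1 ≤ n → 0 ≤ (ε' : ℝ) * (δ' : ℝ) ^ n * (x ^ n - 1) := by
      rcases lt_trichotomy x (-1) with hx | hx | hx
      · refine ⟨1, -1, Or.inl rfl, Or.inr rfl, fun n hn => ?_⟩
        rcases Nat.even_or_odd n with he | ho
        · have h3 : 1 ≤ x ^ n := by
            rw [← he.pow_abs]
            exact one_le_pow₀ (by rw [abs_of_neg (by linarith)]; linarith)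
          push_cast
          rw [he.neg_one_pow]; linarith
        · have h3 : x ^ n ≤ 0 := (ho.pow_neg (by linarith)).le
          push_cast
          rw [ho.neg_one_pow]; linarith
      · exact absurd hx.symm h2.1
      · rcases lt_trichotomy x 1 with hx1 | hx1 | hx1
        · refine ⟨-1, 1, Or.inr rfl, Or.inl rfl, fun n hn => ?_⟩
          have h3 : x ^ n ≤ 1 := by
            refine (le_abs_self _).trans ?_
            rw [abs_pow]
            exact pow_le_one₀ (abs_nonneg _) (abs_le.2 ⟨hx.le, hx1.le⟩)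
          push_cast
          rw [one_pow]; linarith
        · exact absurd hx1.symm h1.1
        · refine ⟨1, 1, Or.inl rfl, Or.inl rfl, fun n hn => ?_⟩
          have h3 : 1 ≤ x ^ n := one_le_pow₀ hx1.le
          push_cast
          rw [one_pow]; linarith
    obtain ⟨ε', δ', hε', hδ', h'⟩ := key
    refine ⟨ε * ε', δ * δ', ?_, ?_, fun n hn => ?_⟩
    · rcases hε with rfl | rfl <;> rcases hε' with rfl | rfl <;> simp
    · rcases hδ with rfl | rfl <;> rcases hδ' with rfl | rfl <;> simp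
    · rw [Multiset.map_cons, Multiset.prod_cons]
      have := mul_nonneg (h' n hn) (h n hn)
      push_cast
      rw [mul_pow]
      linarith

lemma det_sign {d : ℕ} (A : Matrix (Fin d) (Fin d) ℤ)
    (h1 : (1 : ℂ) ∉ eigs A) (h2 : (-1 : ℂ) ∉ eigs A) :
    ∃ ε δ : ℤ, (ε = 1 ∨ ε = -1) ∧ (δ = 1 ∨ δ = -1) ∧
      ∀ n : ℕ, 1 ≤ n → |(A ^ n - 1).det| = ε * δ ^ n * (A ^ n - 1).det := by
  set s := eigs A with hs
  set sr := s.filter (fun ξ => ξ.im = 0) with hsr
  set sp := s.filter (fun ξ => 0 < ξ.im) with hsp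
  have hsplit : s = sr + (sp + sp.map (starRingEnd ℂ)) := by
    have h3 : s.filter (fun ξ => ¬ ξ.im = 0) = sp + s.filter (fun ξ => ξ.im < 0) := by
      have h4 : s.filter (fun ξ => ¬ ξ.im = 0) = s.filter (fun ξ => 0 < ξ.im ∨ ξ.im < 0) := by
        refine Multiset.filter_congr (fun ξ _ => ?_)
        constructor
        · intro h; exact (lt_or_gt_of_ne h).symm
        · rintro (h | h) h'
          · rw [h'] at h; exact lt_irrefl _ h
          · rw [h'] at h; exact lt_irrefl _ h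
      rw [h4, hsp]
      have h5 := Multiset.filter_add_filter (fun ξ : ℂ => 0 < ξ.im) (fun ξ : ℂ => ξ.im < 0) s
      rw [h5]
      have h6 : s.filter (fun ξ => 0 < ξ.im ∧ ξ.im < 0) = 0 := by
        rw [Multiset.filter_eq_nil]
        rintro ξ _ ⟨h6, h7⟩
        linarith
      rw [h6, add_zero]
    have h7 : s.filter (fun ξ => ξ.im < 0) = sp.map (starRingEnd ℂ) := by
      conv_lhs => rw [hs, ← eigs_conj A, ← hs]
      rw [Multiset.filter_map, hsp]
      congr 1
      refine Multiset.filter_congr (fun ξ _ => ?_)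
      simp
    rw [← h7, ← h3, hsr, Multiset.filter_add_not]
  have hreal : ∀ ξ ∈ sr, ξ = (ξ.re : ℂ) := by
    intro ξ hξ
    apply Complex.ext
    · simp
    · simp [(Multiset.mem_filter.1 hξ).2]
  obtain ⟨ε, δ, hε, hδ, h⟩ := real_sign (sr.map Complex.re) (by
    intro hmem
    obtain ⟨ξ, hξ, hξ1⟩ := Multiset.mem_map.1 hmem
    have h3 := hreal ξ hξ
    rw [hξ1] at h3
    rw [h3] at hξ
    exact h1 (by simpa using (Multiset.mem_filter.1 hξ).1)) (by
    intro hmem
    obtain ⟨ξ, hξ, hξ1⟩ := Multiset.mem_map.1 hmem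
    have h3 := hreal ξ hξ
    rw [hξ1] at h3
    rw [h3] at hξ
    exact h2 (by simpa using (Multiset.mem_filter.1 hξ).1))
  refine ⟨ε, δ, hε, hδ, fun n hn => ?_⟩
  have hdet : (((A ^ n - 1).det : ℤ) : ℝ) = ((sr.map Complex.re).map (fun x => x ^ n - 1)).prod *
      ‖(sp.map (fun ξ => ξ ^ n - 1)).prod‖ ^ 2 := by
    have h3 := det_int A hn
    rw [← hs, hsplit, Multiset.map_add, Multiset.prod_add, Multiset.map_add,
      Multiset.prod_add] at h3
    have h4 : ((sp.map (starRingEnd ℂ)).map (fun ξ => ξ ^ n - 1)).prod =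
        (starRingEnd ℂ) ((sp.map (fun ξ => ξ ^ n - 1)).prod) := by
      rw [map_multiset_prod, Multiset.map_map, Multiset.map_map]
      congr 1
      refine Multiset.map_congr rfl (fun ξ _ => ?_)
      simp
    have h5 : (sr.map (fun ξ => ξ ^ n - 1)).prod =
        ((((sr.map Complex.re).map (fun x => x ^ n - 1)).prod : ℝ) : ℂ) := by
      have h6 := map_multiset_prod Complex.ofRealHom
        ((sr.map Complex.re).map (fun x => x ^ n - 1))
      rw [Complex.ofRealHom_eq_coe] at h6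
      rw [h6, Multiset.map_map, Multiset.map_map]
      congr 1
      refine Multiset.map_congr rfl (fun ξ hξ => ?_)
      have h7 := hreal ξ hξ
      simp only [Function.comp_apply, Complex.ofRealHom_eq_coe]
      conv_lhs => rw [h7]
      push_cast; rfl
    rw [h4, h5, Complex.mul_conj, Complex.normSq_eq_norm_sq] at h3
    have h8 : ((((A ^ n - 1).det : ℤ)) : ℂ) = ((((((A ^ n - 1).det : ℤ)) : ℝ)) : ℂ) :=
      (Complex.ofReal_intCast _).symm
    rw [h8] at h3
    exact_mod_cast h3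
  have h6 : (0 : ℝ) ≤ (ε : ℝ) * (δ : ℝ) ^ n * (((A ^ n - 1).det : ℤ) : ℝ) := by
    rw [hdet, ← mul_assoc]
    exact mul_nonneg (h n hn) (by positivity)
  have h7 : (0 : ℤ) ≤ ε * δ ^ n * (A ^ n - 1).det := by exact_mod_cast h6
  rw [← abs_of_nonneg h7, abs_mul, abs_mul, abs_pow]
  have h8 : |ε| = 1 := by rcases hε with rfl | rfl <;> simp
  have h9 : |δ| = 1 := by rcases hδ with rfl | rfl <;> simp
  rw [h8, h9, one_pow, one_mul, one_mul]

/-- `det(A^p-1) ≡ det(A-1)` mod `p` -/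
lemma det_modEq {d : ℕ} (A : Matrix (Fin d) (Fin d) ℤ) {p : ℕ} (hp : p.Prime) :
    (((A ^ p - 1).det : ℤ) : ZMod p) = (((A - 1).det : ℤ) : ZMod p) := by
  have hfp := Fact.mk hp
  have h1 := (Int.castRingHom (ZMod p)).map_det (A ^ p - 1)
  have h2 := (Int.castRingHom (ZMod p)).map_det (A - 1)
  rw [map_sub, map_pow, map_one] at h1
  rw [map_sub, map_one] at h2
  set B := (Int.castRingHom (ZMod p)).mapMatrix A with hB
  rcases Nat.eq_zero_or_pos d with hd | hd
  · subst hd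
    simp only [Matrix.det_isEmpty]
  · have hne : Nonempty (Fin d) := ⟨⟨0, hd⟩⟩
    have h3 : B ^ p - 1 = (B - 1) ^ p := by
      have : CharP (Matrix (Fin d) (Fin d) (ZMod p)) p := inferInstance
      rw [sub_pow_char_of_commute _ (Commute.one_right B), one_pow]
    rw [h3, Matrix.det_pow, ZMod.pow_card, ← h2] at h1
    simpa using h1

/-- finite sums `∑ m_i β_i^n` with integer coefficients. -/
def IsIntExp (x : ℕ → ℂ) : Prop :=
  ∃ (k : ℕ) (m : Fin k → ℤ) (β : Fin k → ℂ), ∀ n, 1 ≤ n → x n = ∑ i, (m i : ℂ) * β i ^ n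

lemma isIntExp_of_sum {ι : Type*} (s : Finset ι) (m : ι → ℤ) (β : ι → ℂ)
    {x : ℕ → ℂ} (hx : ∀ n, 1 ≤ n → x n = ∑ i ∈ s, (m i : ℂ) * β i ^ n) : IsIntExp x := by
  classical
  refine ⟨s.card, fun i => m (s.equivFin.symm i), fun i => β (s.equivFin.symm i), fun n hn => ?_⟩
  rw [hx n hn, ← Finset.sum_coe_sort s]
  exact (Equiv.sum_comp s.equivFin.symm (fun i : s => (m i : ℂ) * β i ^ n)).symm

lemma IsIntExp.mul {x y : ℕ → ℂ} (hx : IsIntExp x) (hy : IsIntExp y) :
    IsIntExp (fun n => x n * y n) := by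
  obtain ⟨k, m, β, hx⟩ := hx
  obtain ⟨l, m', β', hy⟩ := hy
  refine isIntExp_of_sum (Finset.univ : Finset (Fin k × Fin l)) (fun q => m q.1 * m' q.2)
    (fun q => β q.1 * β' q.2) (fun n hn => ?_)
  rw [hx n hn, hy n hn, Finset.sum_mul_sum, ← Finset.univ_product_univ, Finset.sum_product]
  refine Finset.sum_congr rfl (fun i _ => Finset.sum_congr rfl (fun j _ => ?_))
  push_cast
  rw [mul_pow]; ring

lemma isIntExp_pow_sub_one (ξ : ℂ) : IsIntExp (fun n => ξ ^ n - 1) := by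
  refine isIntExp_of_sum (Finset.univ : Finset Bool) (fun b => if b then 1 else -1)
    (fun b => if b then ξ else 1) (fun n _ => ?_)
  simp; ring

lemma isIntExp_sign {ε δ : ℤ} : IsIntExp (fun n => (ε : ℂ) * (δ : ℂ) ^ n) :=
  isIntExp_of_sum (Finset.univ : Finset Unit) (fun _ => ε) (fun _ => (δ : ℂ)) (fun n _ => by simp)

lemma isIntExp_prod (s : Multiset ℂ) : IsIntExp (fun n => (s.map (fun ξ => ξ ^ n - 1)).prod) := by
  induction s using Multiset.induction_on with
  | empty =>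
    simpa using isIntExp_sign (ε := 1) (δ := 1)
  | cons a s ih =>
    simp only [Multiset.map_cons, Multiset.prod_cons]
    exact (isIntExp_pow_sub_one a).mul ih

lemma isIntExp_abs_det {d : ℕ} (A : Matrix (Fin d) (Fin d) ℤ)
    (h1 : (1 : ℂ) ∉ eigs A) (h2 : (-1 : ℂ) ∉ eigs A) :
    IsIntExp (fun n => ((|(A ^ n - 1).det| : ℤ) : ℂ)) := by
  obtain ⟨ε, δ, -, -, h⟩ := det_sign A h1 h2
  obtain ⟨k, m, β, hx⟩ := (isIntExp_sign (ε := ε) (δ := δ)).mul (isIntExp_prod (eigs A))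
  refine ⟨k, m, β, fun n hn => ?_⟩
  rw [← hx n hn]
  beta_reduce
  rw [h n hn, ← det_int A hn]
  push_cast; rfl

end Pool.Agent.FAD
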