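import Pool.Agent.FAD.Mean

/-!
# Trigonometric polynomials in `n` and their means
-/

open Filter Topology

namespace Pool.Agent.FAD

/-- `x n = ∑_{u ∈ F} c u * u^n` with unimodular `u`. -/
def IsTrig (x : ℕ → ℂ) : Prop :=
  ∃ (F : Finset ℂ) (c : ℂ → ℂ), (∀ u ∈ F, ‖u‖ = 1) ∧ ∀ n, x n = ∑ u ∈ F, c u * u ^ n

lemma isTrig_of_sum {ι : Type*} (s : Finset ι) (a u : ι → ℂ) (hu : ∀ i ∈ s, ‖u i‖ = 1)
    {x : ℕ → ℂ} (hx : ∀ n, x n = ∑ i ∈ s, a i * u i ^ n) : IsTrig x := by
  classical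
  refine ⟨s.image u, fun w => ∑ i ∈ s with u i = w, a i, ?_, ?_⟩
  · intro w hw
    obtain ⟨i, hi, rfl⟩ := Finset.mem_image.1 hw
    exact hu i hi
  · intro n
    rw [hx n, ← Finset.sum_fiberwise_of_maps_to (s := s) (t := s.image u) (g := u)
      (fun i hi => Finset.mem_image_of_mem u hi)]
    refine Finset.sum_congr rfl (fun w _ => ?_)
    rw [Finset.sum_mul]
    refine Finset.sum_congr rfl (fun i hi => ?_)
    rw [(Finset.mem_filter.1 hi).2]

lemma IsTrig.mul {x y : ℕ → ℂ} (hx : IsTrig x) (hy : IsTrig y) :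
    IsTrig (fun n => x n * y n) := by
  obtain ⟨F, c, hF, hx⟩ := hx
  obtain ⟨G, d, hG, hy⟩ := hy
  refine isTrig_of_sum (F ×ˢ G) (fun q => c q.1 * d q.2) (fun q => q.1 * q.2) ?_ ?_
  · rintro ⟨u, v⟩ huv
    rw [Finset.mem_product] at huv
    rw [norm_mul, hF _ huv.1, hG _ huv.2, one_mul]
  · intro n
    rw [hx n, hy n, Finset.sum_mul_sum, Finset.sum_product]
    refine Finset.sum_congr rfl (fun u _ => Finset.sum_congr rfl (fun v _ => ?_))
    rw [mul_pow]; ring

lemma IsTrig.const (a : ℂ) : IsTrig (fun _ => a) :=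
  isTrig_of_sum (Finset.univ : Finset Unit) (fun _ => a) (fun _ => 1) (by simp) (by simp)

lemma IsTrig.one_sub_pow {ξ : ℂ} (hξ : ‖ξ‖ = 1) : IsTrig (fun n => 1 - ξ ^ n) := by
  refine isTrig_of_sum (Finset.univ : Finset Bool) (fun b => if b then 1 else -1)
    (fun b => if b then 1 else ξ) ?_ ?_
  · intro b _
    cases b <;> simp [hξ]
  · intro n
    simp; ring

lemma IsTrig.multiset_prod (s : Multiset ℂ) (hs : ∀ ξ ∈ s, ‖ξ‖ = 1) :
    IsTrig (fun n => (s.map (fun ξ => 1 - ξ ^ n)).prod) := by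
  induction s using Multiset.induction_on with
  | empty => simpa using IsTrig.const 1
  | cons a s ih =>
    simp only [Multiset.map_cons, Multiset.prod_cons]
    exact (IsTrig.one_sub_pow (hs a (Multiset.mem_cons_self _ _))).mul
      (ih (fun ξ hξ => hs ξ (Multiset.mem_cons_of_mem hξ)))

lemma bddSeq_pow {u : ℂ} (hu : ‖u‖ = 1) : BddSeq (fun n => u ^ n) :=
  ⟨1, fun n => by rw [norm_pow, hu, one_pow]⟩

lemma IsTrig.bdd {x : ℕ → ℂ} (hx : IsTrig x) : BddSeq x := by
  obtain ⟨F, c, hF, hx⟩ := hx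
  have : x = fun n => ∑ u ∈ F, c u * u ^ n := funext hx
  rw [this]
  exact BddSeq.sum F (fun u hu => (bddSeq_pow (hF u hu)).const_mul (c u))

lemma gm_pow {u : ℂ} (hu : ‖u‖ = 1) : gm (fun n => u ^ n) = if u = 1 then 1 else 0 := by
  split_ifs with h
  · subst h
    simpa using gm_const 1
  · exact gm_eq_zero_of_twist (m := 1) (bddSeq_pow hu) h (fun n => by rw [pow_succ]; ring)

/-- Parseval. -/
lemma gm_mul_conj {F : Finset ℂ} {c : ℂ → ℂ} (hF : ∀ u ∈ F, ‖u‖ = 1) :
    gm (fun n => (∑ u ∈ F, c u * u ^ n) * (starRingEnd ℂ) (∑ u ∈ F, c u * u ^ n)) =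
      ∑ u ∈ F, ((‖c u‖ ^ 2 : ℝ) : ℂ) := by
  classical
  have key : ∀ u ∈ F, ∀ v ∈ F, gm (fun n => c u * (starRingEnd ℂ) (c v) *
      ((u * (starRingEnd ℂ) v) ^ n)) = if u = v then ((‖c u‖ ^ 2 : ℝ) : ℂ) else 0 := by
    intro u hu v hv
    have hnorm : ‖u * (starRingEnd ℂ) v‖ = 1 := by
      rw [norm_mul, RCLike.norm_conj, hF u hu, hF v hv, one_mul]
    rw [gm_const_mul (bddSeq_pow hnorm), gm_pow hnorm]
    have hv1 : v * (starRingEnd ℂ) v = 1 := by
      rw [Complex.mul_conj, Complex.normSq_eq_norm_sq, hF v hv]; simp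
    have hiff : u * (starRingEnd ℂ) v = 1 ↔ u = v := by
      constructor
      · intro h
        have : (u - v) * (starRingEnd ℂ) v = 0 := by rw [sub_mul, h, hv1, sub_self]
        rcases mul_eq_zero.1 this with h | h
        · exact sub_eq_zero.1 h
        · rw [h, mul_zero] at hv1
          exact absurd hv1 zero_ne_one
      · rintro rfl; exact hv1
    simp only [hiff]
    split_ifs with h
    · subst h
      rw [Complex.mul_conj, Complex.normSq_eq_norm_sq]; simp
    · simp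
  have hexp : (fun n => (∑ u ∈ F, c u * u ^ n) * (starRingEnd ℂ) (∑ u ∈ F, c u * u ^ n)) =
      fun n => ∑ u ∈ F, ∑ v ∈ F, c u * (starRingEnd ℂ) (c v) *
        ((u * (starRingEnd ℂ) v) ^ n) := by
    funext n
    rw [map_sum, Finset.sum_mul_sum]
    refine Finset.sum_congr rfl (fun u _ => Finset.sum_congr rfl (fun v _ => ?_))
    rw [map_mul, map_pow, mul_pow]; ring
  have hb : ∀ u ∈ F, ∀ v ∈ F, BddSeq (fun n => c u * (starRingEnd ℂ) (c v) *
      ((u * (starRingEnd ℂ) v) ^ n)) := by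
    intro u hu v hv
    refine (bddSeq_pow ?_).const_mul _
    rw [norm_mul, RCLike.norm_conj, hF u hu, hF v hv, one_mul]
  rw [hexp, gm_sum F (fun u hu => BddSeq.sum F (fun v hv => hb u hu v hv))]
  refine Finset.sum_congr rfl (fun u hu => ?_)
  rw [gm_sum F (fun v hv => hb u hu v hv)]
  rw [Finset.sum_congr rfl (fun v hv => key u hu v hv)]
  simp [hu]

/-- A periodic sequence is a combination of characters of order dividing the period. -/
lemma periodic_eq_sum {N : ℕ} (hN : 0 < N) {G : ℕ → ℂ} (hG : ∀ n, G (n + N) = G n) :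
    ∃ (a η : ZMod N → ℂ) (_ : Fintype (ZMod N)), (∀ j, η j ^ N = 1) ∧
      ∀ n, G n = ∑ j, a j * η j ^ n := by
  have : NeZero N := ⟨hN.ne'⟩
  refine ⟨fun j => (N : ℂ)⁻¹ * (ZMod.dft (fun k : ZMod N => G k.val)) j,
    fun j => ZMod.stdAddChar j, inferInstance, ?_, ?_⟩
  · intro j
    rw [← AddChar.map_nsmul_eq_pow]
    simp
  · intro n
    have hper : ∀ k m : ℕ, G (m + N * k) = G m := by
      intro k
      induction k with
      | zero => intro m; simp
      | succ k ih => intro m; rw [Nat.mul_succ, ← add_assoc, hG, ih]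
    have h1 : G n = G ((n : ZMod N)).val := by
      rw [ZMod.val_natCast]
      conv_lhs => rw [← Nat.mod_add_div n N]
      exact hper _ _
    have h2 := congrFun (ZMod.dft.symm_apply_apply (fun k : ZMod N => G k.val)) (n : ZMod N)
    rw [ZMod.invDFT_apply] at h2
    rw [h1, ← h2, smul_eq_mul, Finset.mul_sum]
    refine Finset.sum_congr rfl (fun j _ => ?_)
    rw [← AddChar.map_nsmul_eq_pow]
    simp only [smul_eq_mul, nsmul_eq_mul]
    rw [mul_comm j (n : ZMod N)]
    ring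

end Pool.Agent.FAD
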